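import Mathlib

/-!
The pointwise identity and inequality for odd indices.
-/

set_option autoImplicit false

namespace Pool.Agent.MP_fe2d2a_anR

lemma odd_identity (x Y N a b h g a1 b1 h1 g1 L : ℝ) (hx : x ≠ 0) (hY : Y ≠ 0)
    (hp : a + h ≠ 0) (hm : b + g ≠ 0) (he : (a + h) + (b + g) ≠ 0) :
    (a * (a1 + h1) / (a + h) - a1) / Y + (b * (b1 + g1) / (b + g) - b1) / (-Y) -
      (((a1 + h1) / (a + h) - -(b1 + g1) / (b + g)) *
          ((a * (b + g) - b * (a + h)) / (Y * ((a + h) + (b + g)))) +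
        L * (((a1 * (b + g) + a * -(b1 + g1) - (-b1 * (a + h) + b * (a1 + h1))) *
            (Y * ((a + h) + (b + g))) - (a * (b + g) - b * (a + h)) *
            (N * (Y / x) * ((a + h) + (b + g)) + Y * ((a1 + h1) + -(b1 + g1)))) /
          (Y * ((a + h) + (b + g))) ^ 2)) =
    ((a + b) * (h1 - g1) - (a1 - b1) * (h + g)) / (Y * ((a + h) + (b + g))) *
        (1 - L / 2 * (((a + h) - (b + g)) / ((a + h) + (b + g)))) +
      L / (2 * Y * x * ((a + h) + (b + g))) *
        ((a + b) * (x * (h1 + g1) - N * (h - g)) + (h + g) * (N * (a - b) - x * (a1 + b1))) := by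
  field_simp
  ring

lemma odd_ineq {x Y N a b h g a1 b1 h1 g1 L : ℝ} (hx : 0 < x) (hY : 0 < Y)
    (hp : 0 < a + h) (hm : 0 < b + g) (hab : 0 < a + b) (hhg : 0 < h + g)
    (hhg' : 0 ≤ h - g) (hL : 0 ≤ L)
    (hc : ((a + h) - (b + g)) * L < 2 * ((a + h) + (b + g)))
    (r1 : 0 ≤ N * (a + b) - x * (a1 - b1)) (r2 : 0 ≤ N * (a - b) - x * (a1 + b1))
    (r3 : 0 ≤ x * (h1 - g1) - (N + 1) * (h + g)) (r4 : 0 ≤ x * (h1 + g1) - (N + 1) * (h - g)) :
    0 < (a * (a1 + h1) / (a + h) - a1) / Y + (b * (b1 + g1) / (b + g) - b1) / (-Y) -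
      (((a1 + h1) / (a + h) - -(b1 + g1) / (b + g)) *
          ((a * (b + g) - b * (a + h)) / (Y * ((a + h) + (b + g)))) +
        L * (((a1 * (b + g) + a * -(b1 + g1) - (-b1 * (a + h) + b * (a1 + h1))) *
            (Y * ((a + h) + (b + g))) - (a * (b + g) - b * (a + h)) *
            (N * (Y / x) * ((a + h) + (b + g)) + Y * ((a1 + h1) + -(b1 + g1)))) /
          (Y * ((a + h) + (b + g))) ^ 2)) := by
  have he : 0 < (a + h) + (b + g) := by linarith
  rw [odd_identity x Y N a b h g a1 b1 h1 g1 L hx.ne' hY.ne' hp.ne' hm.ne' he.ne']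
  have k1 : 0 < (a + b) * (h1 - g1) - (a1 - b1) * (h + g) := by
    have k2 : 0 < x * ((a + b) * (h1 - g1) - (a1 - b1) * (h + g)) := by
      have e : x * ((a + b) * (h1 - g1) - (a1 - b1) * (h + g)) =
          (a + b) * (x * (h1 - g1) - (N + 1) * (h + g)) +
          (h + g) * (N * (a + b) - x * (a1 - b1)) + (a + b) * (h + g) := by ring
      rw [e]
      have := mul_nonneg hab.le r3
      have := mul_nonneg hhg.le r1
      have := mul_pos hab hhg
      linarith
    exact (mul_pos_iff_of_pos_left hx).1 k2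
  have k3 : 0 < 1 - L / 2 * (((a + h) - (b + g)) / ((a + h) + (b + g))) := by
    have e : 1 - L / 2 * (((a + h) - (b + g)) / ((a + h) + (b + g))) =
        (2 * ((a + h) + (b + g)) - ((a + h) - (b + g)) * L) / (2 * ((a + h) + (b + g))) := by
      field_simp
    rw [e]
    apply div_pos _ (by linarith)
    linarith
  have k4 : 0 ≤ (a + b) * (x * (h1 + g1) - N * (h - g)) +
      (h + g) * (N * (a - b) - x * (a1 + b1)) := by
    have k5 : 0 ≤ x * (h1 + g1) - N * (h - g) := by linarith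
    have := mul_nonneg hab.le k5
    have := mul_nonneg hhg.le r2
    linarith
  have k6 : 0 < ((a + b) * (h1 - g1) - (a1 - b1) * (h + g)) / (Y * ((a + h) + (b + g))) *
        (1 - L / 2 * (((a + h) - (b + g)) / ((a + h) + (b + g)))) := by
    apply mul_pos _ k3
    apply div_pos k1
    positivity
  have k7 : 0 ≤ L / (2 * Y * x * ((a + h) + (b + g))) *
        ((a + b) * (x * (h1 + g1) - N * (h - g)) + (h + g) * (N * (a - b) - x * (a1 + b1))) := by
    apply mul_nonneg _ k4
    positivity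
  linarith

end Pool.Agent.MP_fe2d2a_anR
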