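import Mathlib

/-!
The contour form. For `P = ∏ (X^2 - 2 u_k X + 1)` and the truncation `A` of `P` to degrees `≤ J`,
the function `(A P' / P - A') / x^J` is the sum over `k` of
`(2 x (Q_J - u Q_{J-1}) + 2 (Q_{J-1} - u Q_J)) / q_k(x)`, `Q = P / q_k`; the symmetric
antiderivative tends to `2 π ∑ v_k Q_{J-1}` at infinity.
-/

set_option autoImplicit false

open Finset Polynomial Filter Topology

namespace Pool.Agent.MP_fe2d2a_anR

/-- The truncation to degrees `≤ J`. -/
noncomputable def lo (J : ℕ) (p : ℝ[X]) : ℝ[X] := ∑ i ∈ range (J + 1), monomial i (p.coeff i)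

lemma coeff_lo (J : ℕ) (p : ℝ[X]) (i : ℕ) :
    (lo J p).coeff i = if i ≤ J then p.coeff i else 0 := by
  unfold lo
  rw [finsetSum_coeff]
  simp only [coeff_monomial]
  rw [Finset.sum_ite_eq' (range (J + 1)) i]
  simp only [Finset.mem_range, Nat.lt_succ_iff]

lemma lo_add (J : ℕ) (p q : ℝ[X]) : lo J (p + q) = lo J p + lo J q := by
  ext i
  rw [coeff_add, coeff_lo, coeff_lo, coeff_lo, coeff_add]
  split_ifs <;> simp

lemma lo_sub (J : ℕ) (p q : ℝ[X]) : lo J (p - q) = lo J p - lo J q := by
  ext i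
  rw [coeff_sub, coeff_lo, coeff_lo, coeff_lo, coeff_sub]
  split_ifs <;> simp

lemma lo_sum {κ : Type*} (J : ℕ) (S : Finset κ) (p : κ → ℝ[X]) :
    lo J (∑ k ∈ S, p k) = ∑ k ∈ S, lo J (p k) := by
  ext i
  rw [coeff_lo, finsetSum_coeff, finsetSum_coeff]
  simp only [coeff_lo]
  split_ifs <;> simp

lemma lo_CX (J : ℕ) (c : ℝ) (i : ℕ) : lo J (C c * X ^ i) = if i ≤ J then C c * X ^ i else 0 := by
  ext m
  rw [coeff_lo]
  by_cases h1 : m = i
  · subst h1
    by_cases h2 : m ≤ J
    · rw [if_pos h2, if_pos h2]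
    · rw [if_neg h2, if_neg h2, coeff_zero]
  · by_cases h2 : i ≤ J
    · rw [if_pos h2]
      simp [coeff_X_pow, h1]
    · rw [if_neg h2]
      simp [coeff_X_pow, h1]

lemma lo_derivative (J : ℕ) (p : ℝ[X]) : derivative (lo (J + 1) p) = lo J (derivative p) := by
  ext m
  rw [coeff_derivative, coeff_lo, coeff_lo, coeff_derivative]
  by_cases h : m ≤ J
  · rw [if_pos h, if_pos (by omega)]
  · rw [if_neg h, if_neg (by omega), zero_mul]

/-- The identity for one factor; both sides are linear in `Q`. -/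
lemma factor_identity (u : ℝ) (J : ℕ) (Q : ℝ[X]) :
    lo (J + 1) ((X ^ 2 - C (2 * u) * X + 1) * Q) * (C 2 * X - C (2 * u)) -
      lo J ((C 2 * X - C (2 * u)) * Q) * (X ^ 2 - C (2 * u) * X + 1) =
    X ^ (J + 1) * (C (2 * (Q.coeff (J + 1) - u * Q.coeff J)) * X +
      C (2 * (Q.coeff J - u * Q.coeff (J + 1)))) := by
  induction Q using Polynomial.induction_on' with
  | add p q hp hq =>
    have e1 : (X ^ 2 - C (2 * u) * X + 1) * (p + q) = (X ^ 2 - C (2 * u) * X + 1) * p +
      (X ^ 2 - C (2 * u) * X + 1) * q := by ring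
    have e2 : (C 2 * X - C (2 * u)) * (p + q) = (C 2 * X - C (2 * u)) * p +
      (C 2 * X - C (2 * u)) * q := by ring
    rw [e1, e2, lo_add, lo_add]
    have e3 : (C (2 * ((p + q).coeff (J + 1) - u * (p + q).coeff J)) : ℝ[X]) =
        C (2 * (p.coeff (J + 1) - u * p.coeff J)) + C (2 * (q.coeff (J + 1) - u * q.coeff J)) := by
      rw [← C_add, coeff_add, coeff_add]
      congr 1
      ring
    have e4 : (C (2 * ((p + q).coeff J - u * (p + q).coeff (J + 1))) : ℝ[X]) =
        C (2 * (p.coeff J - u * p.coeff (J + 1))) + C (2 * (q.coeff J - u * q.coeff (J + 1))) := by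
      rw [← C_add, coeff_add, coeff_add]
      congr 1
      ring
    rw [e3, e4]
    linear_combination hp + hq
  | monomial i c =>
    rw [← C_mul_X_pow_eq_monomial]
    have e1 : (X ^ 2 - C (2 * u) * X + 1) * (C c * X ^ i) = C c * X ^ (i + 2) -
        C (2 * u * c) * X ^ (i + 1) + C c * X ^ i := by
      simp only [C_mul]
      ring
    have e2 : (C 2 * X - C (2 * u)) * (C c * X ^ i) = C (2 * c) * X ^ (i + 1) -
        C (2 * u * c) * X ^ i := by
      simp only [C_mul]
      ring
    rw [e1, e2, lo_add, lo_sub, lo_sub, lo_CX, lo_CX, lo_CX, lo_CX, lo_CX]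
    simp only [coeff_C_mul, coeff_X_pow]
    rcases lt_trichotomy i J with h | h | h
    · rw [if_pos (show i + 2 ≤ J + 1 by omega), if_pos (show i + 1 ≤ J + 1 by omega),
        if_pos (show i ≤ J + 1 by omega), if_pos (show i + 1 ≤ J by omega),
        if_pos (show i ≤ J by omega), if_neg (show ¬ (J + 1 = i) by omega),
        if_neg (show ¬ (J = i) by omega)]
      simp only [C_mul, mul_zero, sub_zero, C_0, zero_mul, add_zero]
      ring
    · subst h
      rw [if_neg (show ¬ (i + 2 ≤ i + 1) by omega), if_pos (show i + 1 ≤ i + 1 by omega),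
        if_pos (show i ≤ i + 1 by omega), if_neg (show ¬ (i + 1 ≤ i) by omega),
        if_pos (le_refl i), if_neg (show ¬ (i + 1 = i) by omega), if_pos rfl]
      simp only [C_mul, mul_zero, sub_zero, zero_sub, mul_one, C_neg, map_ofNat]
      ring
    · rcases Nat.lt_or_ge (J + 1) i with h1 | h1
      · rw [if_neg (show ¬ (i + 2 ≤ J + 1) by omega), if_neg (show ¬ (i + 1 ≤ J + 1) by omega),
          if_neg (show ¬ (i ≤ J + 1) by omega), if_neg (show ¬ (i + 1 ≤ J) by omega),
          if_neg (show ¬ (i ≤ J) by omega), if_neg (show ¬ (J + 1 = i) by omega),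
          if_neg (show ¬ (J = i) by omega)]
        simp
      · have h2 : i = J + 1 := by omega
        subst h2
        rw [if_neg (show ¬ (J + 1 + 2 ≤ J + 1) by omega),
          if_neg (show ¬ (J + 1 + 1 ≤ J + 1) by omega), if_pos (le_refl (J + 1)),
          if_neg (show ¬ (J + 1 + 1 ≤ J) by omega), if_neg (show ¬ (J + 1 ≤ J) by omega),
          if_pos rfl, if_neg (show ¬ (J = J + 1) by omega)]
        simp only [C_mul, mul_zero, sub_zero, zero_mul, zero_sub, mul_one, C_neg, map_ofNat]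
        ring

variable {ι : Type*} [DecidableEq ι]

/-- The product of the factors `X^2 - 2 u_k X + 1`. -/
noncomputable def QP (u : ι → ℝ) (A : Finset ι) : ℝ[X] := ∏ k ∈ A, (X ^ 2 - C (2 * u k) * X + 1)

lemma QP_erase (u : ι → ℝ) {A : Finset ι} {k : ι} (hk : k ∈ A) :
    (X ^ 2 - C (2 * u k) * X + 1) * QP u (A.erase k) = QP u A := by
  unfold QP
  exact Finset.mul_prod_erase A (fun k => (X ^ 2 - C (2 * u k) * X + 1 : ℝ[X])) hk

lemma QP_derivative (u : ι → ℝ) (A : Finset ι) :
    derivative (QP u A) = ∑ k ∈ A, (C 2 * X - C (2 * u k)) * QP u (A.erase k) := by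
  unfold QP
  rw [derivative_prod_finset]
  apply Finset.sum_congr rfl
  intro k _
  rw [mul_comm]
  congr 1
  simp only [derivative_add, derivative_sub, derivative_X_pow, derivative_C_mul, derivative_X,
    derivative_one]
  simp

/-- The numerator of the kernel. -/
noncomputable def num (u : ι → ℝ) (A : Finset ι) (J : ℕ) (k : ι) : ℝ[X] :=
  C (2 * ((QP u (A.erase k)).coeff (J + 1) - u k * (QP u (A.erase k)).coeff J)) * X +
    C (2 * ((QP u (A.erase k)).coeff J - u k * (QP u (A.erase k)).coeff (J + 1)))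

lemma wronskian_identity (u : ι → ℝ) (A : Finset ι) (J : ℕ) :
    lo (J + 1) (QP u A) * derivative (QP u A) - derivative (lo (J + 1) (QP u A)) * QP u A =
      X ^ (J + 1) * ∑ k ∈ A, num u A J k * QP u (A.erase k) := by
  rw [lo_derivative]
  have e1 : lo J (derivative (QP u A)) =
      ∑ k ∈ A, lo J ((C 2 * X - C (2 * u k)) * QP u (A.erase k)) := by
    rw [QP_derivative, lo_sum]
  rw [e1, QP_derivative, Finset.mul_sum, Finset.sum_mul, ← Finset.sum_sub_distrib,
    Finset.mul_sum]
  apply Finset.sum_congr rfl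
  intro k hk
  have h := factor_identity (u k) J (QP u (A.erase k))
  rw [QP_erase u hk] at h
  unfold num
  have h2 := QP_erase u hk
  linear_combination QP u (A.erase k) * h +
    (lo J ((C 2 * X - C (2 * u k)) * QP u (A.erase k))) * h2

end Pool.Agent.MP_fe2d2a_anR
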