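import Mathlib
import Pool.Agent.Lib.MP_fe2d2a_anR.Contour

/-!
The symmetric antiderivative of the kernel and its limits at `0` and at infinity.
-/

set_option autoImplicit false

open Finset Polynomial Filter Topology

namespace Pool.Agent.MP_fe2d2a_anR

lemma quad_pos {u v : ℝ} (hv : 0 < v) (huv : u ^ 2 + v ^ 2 = 1) (x : ℝ) :
    0 < x ^ 2 - 2 * u * x + 1 := by
  have e : x ^ 2 - 2 * u * x + 1 = (x - u) ^ 2 + v ^ 2 := by
    linear_combination (-1 : ℝ) * huv
  rw [e]
  positivity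

/-- The antiderivative for one factor. -/
noncomputable def phiK (u v c d R : ℝ) : ℝ :=
  (c - u * d) * (Real.log (R ^ 2 - 2 * u * R + 1) - Real.log (R ^ 2 + 2 * u * R + 1)) +
    2 * v * d * (Real.arctan ((R - u) / v) + Real.arctan ((R + u) / v))

lemma phiK_hasDerivAt {u v : ℝ} (hv : 0 < v) (huv : u ^ 2 + v ^ 2 = 1) (c d x : ℝ) :
    HasDerivAt (phiK u v c d)
      ((2 * x * (c - u * d) + 2 * (d - u * c)) / (x ^ 2 - 2 * u * x + 1) +
        (-(2 * x * (c - u * d)) + 2 * (d - u * c)) / (x ^ 2 + 2 * u * x + 1)) x := by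
  have p1 : 0 < x ^ 2 - 2 * u * x + 1 := quad_pos hv huv x
  have p2 : 0 < x ^ 2 + 2 * u * x + 1 := by
    have := quad_pos (u := -u) hv (by rw [neg_sq]; exact huv) x
    linarith
  have d1 : HasDerivAt (fun R : ℝ => R ^ 2 - 2 * u * R + 1) (2 * x - 2 * u) x := by
    have h := (((hasDerivAt_id' x).pow 2).sub ((hasDerivAt_id' x).const_mul (2 * u))).add_const 1
    exact h.congr_deriv (by push_cast; ring)
  have d2 : HasDerivAt (fun R : ℝ => R ^ 2 + 2 * u * R + 1) (2 * x + 2 * u) x := by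
    have h := (((hasDerivAt_id' x).pow 2).add ((hasDerivAt_id' x).const_mul (2 * u))).add_const 1
    exact h.congr_deriv (by push_cast; ring)
  have l1 := d1.log p1.ne'
  have l2 := d2.log p2.ne'
  have a1 : HasDerivAt (fun R : ℝ => Real.arctan ((R - u) / v))
      (1 / (1 + ((x - u) / v) ^ 2) * (1 / v)) x :=
    (((hasDerivAt_id x).sub_const u).div_const v).arctan
  have a2 : HasDerivAt (fun R : ℝ => Real.arctan ((R + u) / v))
      (1 / (1 + ((x + u) / v) ^ 2) * (1 / v)) x :=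
    (((hasDerivAt_id x).add_const u).div_const v).arctan
  have h := ((l1.sub l2).const_mul (c - u * d)).add ((a1.add a2).const_mul (2 * v * d))
  have e1 : 1 / (1 + ((x - u) / v) ^ 2) * (1 / v) = v / (x ^ 2 - 2 * u * x + 1) := by
    have e : x ^ 2 - 2 * u * x + 1 = (x - u) ^ 2 + v ^ 2 := by
      linear_combination (-1 : ℝ) * huv
    rw [e]
    have hv' := hv.ne'
    have h3 : (x - u) ^ 2 + v ^ 2 ≠ 0 := by positivity
    have h4 : 1 + ((x - u) / v) ^ 2 = ((x - u) ^ 2 + v ^ 2) / v ^ 2 := by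
      field_simp
      ring
    rw [h4]
    field_simp
  have e2 : 1 / (1 + ((x + u) / v) ^ 2) * (1 / v) = v / (x ^ 2 + 2 * u * x + 1) := by
    have e : x ^ 2 + 2 * u * x + 1 = (x + u) ^ 2 + v ^ 2 := by
      linear_combination (-1 : ℝ) * huv
    rw [e]
    have hv' := hv.ne'
    have h3 : (x + u) ^ 2 + v ^ 2 ≠ 0 := by positivity
    have h4 : 1 + ((x + u) / v) ^ 2 = ((x + u) ^ 2 + v ^ 2) / v ^ 2 := by
      field_simp
      ring
    rw [h4]
    field_simp
  rw [e1, e2] at h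
  refine HasDerivAt.congr_deriv h ?_
  have k1 : 2 * x * (c - u * d) + 2 * (d - u * c) =
      (c - u * d) * (2 * x - 2 * u) + 2 * v * d * v := by
    linear_combination (-2 * d) * huv
  have k2 : -(2 * x * (c - u * d)) + 2 * (d - u * c) =
      -((c - u * d) * (2 * x + 2 * u)) + 2 * v * d * v := by
    linear_combination (-2 * d) * huv
  rw [k1, k2]
  ring

lemma phiK_zero (u v c d : ℝ) : phiK u v c d 0 = 0 := by
  unfold phiK
  have e1 : (0 - u) / v = -(u / v) := by ring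
  have e2 : (0 + u) / v = u / v := by ring
  rw [e1, e2, Real.arctan_neg]
  simp

lemma arctan_shift_tendsto {v : ℝ} (hv : 0 < v) (u : ℝ) :
    Tendsto (fun R : ℝ => Real.arctan ((R - u) / v)) atTop (𝓝 (Real.pi / 2)) := by
  have h1 : Tendsto (fun R : ℝ => (R - u) / v) atTop atTop := by
    apply Tendsto.atTop_div_const hv
    exact tendsto_atTop_add_const_right _ _ tendsto_id
  exact (Real.tendsto_arctan_atTop.mono_right nhdsWithin_le_nhds).comp h1

lemma log_ratio_tendsto {u : ℝ} (hp : ∀ x : ℝ, 0 < x ^ 2 - 2 * u * x + 1)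
    (hm : ∀ x : ℝ, 0 < x ^ 2 + 2 * u * x + 1) :
    Tendsto (fun R : ℝ => Real.log (R ^ 2 - 2 * u * R + 1) - Real.log (R ^ 2 + 2 * u * R + 1))
      atTop (𝓝 0) := by
  have e : ∀ᶠ R : ℝ in atTop,
      Real.log (1 - 2 * u * R⁻¹ + (R⁻¹) ^ 2) - Real.log (1 + 2 * u * R⁻¹ + (R⁻¹) ^ 2) =
      Real.log (R ^ 2 - 2 * u * R + 1) - Real.log (R ^ 2 + 2 * u * R + 1) := by
    filter_upwards [eventually_gt_atTop 0] with R hR
    have h1 : 1 - 2 * u * R⁻¹ + (R⁻¹) ^ 2 = (R ^ 2 - 2 * u * R + 1) / R ^ 2 := by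
      field_simp
    have h2 : 1 + 2 * u * R⁻¹ + (R⁻¹) ^ 2 = (R ^ 2 + 2 * u * R + 1) / R ^ 2 := by
      field_simp
    rw [h1, h2, Real.log_div (hp R).ne' (by positivity), Real.log_div (hm R).ne' (by positivity)]
    ring
  refine Tendsto.congr' e ?_
  have hi : Tendsto (fun R : ℝ => R⁻¹) atTop (𝓝 0) := tendsto_inv_atTop_zero
  have h1 : Tendsto (fun R : ℝ => 1 - 2 * u * R⁻¹ + (R⁻¹) ^ 2) atTop (𝓝 1) := by
    have := ((tendsto_const_nhds (x := (1 : ℝ))).sub (hi.const_mul (2 * u))).add (hi.pow 2)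
    simpa using this
  have h2 : Tendsto (fun R : ℝ => 1 + 2 * u * R⁻¹ + (R⁻¹) ^ 2) atTop (𝓝 1) := by
    have := ((tendsto_const_nhds (x := (1 : ℝ))).add (hi.const_mul (2 * u))).add (hi.pow 2)
    simpa using this
  have l1 := h1.log one_ne_zero
  have l2 := h2.log one_ne_zero
  have := l1.sub l2
  simpa using this

lemma phiK_tendsto {u v : ℝ} (hv : 0 < v) (huv : u ^ 2 + v ^ 2 = 1) (c d : ℝ) :
    Tendsto (phiK u v c d) atTop (𝓝 (2 * v * d * Real.pi)) := by
  have h1 := log_ratio_tendsto (u := u) (fun x => quad_pos hv huv x) (fun x => by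
    have := quad_pos (u := -u) hv (by rw [neg_sq]; exact huv) x
    linarith)
  have h2 := arctan_shift_tendsto hv u
  have h3 := arctan_shift_tendsto hv (-u)
  have e3 : (fun R : ℝ => Real.arctan ((R - -u) / v)) = fun R : ℝ =>
      Real.arctan ((R + u) / v) := by
    funext R
    rw [sub_neg_eq_add]
  rw [e3] at h3
  have h := (h1.const_mul (c - u * d)).add ((h2.add h3).const_mul (2 * v * d))
  have e : (c - u * d) * 0 + 2 * v * d * (Real.pi / 2 + Real.pi / 2) = 2 * v * d * Real.pi := by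
    ring
  rw [e] at h
  exact h

variable {ι : Type*} [DecidableEq ι]

/-- The kernel at `x`. -/
noncomputable def ker (u : ι → ℝ) (A : Finset ι) (J : ℕ) (x : ℝ) : ℝ :=
  ∑ k ∈ A, (num u A J k).eval x / (x ^ 2 - 2 * u k * x + 1)

/-- The symmetric antiderivative. -/
noncomputable def Phi (u v : ι → ℝ) (A : Finset ι) (J : ℕ) (x : ℝ) : ℝ :=
  ∑ k ∈ A, phiK (u k) (v k) ((QP u (A.erase k)).coeff (J + 1)) ((QP u (A.erase k)).coeff J) x

lemma Phi_hasDerivAt {u v : ι → ℝ} {A : Finset ι} (hv : ∀ k ∈ A, 0 < v k)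
    (huv : ∀ k ∈ A, u k ^ 2 + v k ^ 2 = 1) (J : ℕ) (x : ℝ) :
    HasDerivAt (Phi u v A J) (ker u A J x + ker u A J (-x)) x := by
  unfold Phi ker
  rw [← Finset.sum_add_distrib]
  have h := HasDerivAt.fun_sum (u := A) (fun k hk => phiK_hasDerivAt (hv k hk) (huv k hk)
    ((QP u (A.erase k)).coeff (J + 1)) ((QP u (A.erase k)).coeff J) x)
  refine HasDerivAt.congr_deriv h ?_
  apply Finset.sum_congr rfl
  intro k _
  unfold num
  simp only [eval_add, eval_mul, eval_C, eval_X]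
  congr 1
  · congr 1
    ring
  · congr 1
    · ring
    · ring

lemma Phi_zero (u v : ι → ℝ) (A : Finset ι) (J : ℕ) : Phi u v A J 0 = 0 := by
  unfold Phi
  apply Finset.sum_eq_zero
  intro k _
  exact phiK_zero _ _ _ _

lemma Phi_tendsto {u v : ι → ℝ} {A : Finset ι} (hv : ∀ k ∈ A, 0 < v k)
    (huv : ∀ k ∈ A, u k ^ 2 + v k ^ 2 = 1) (J : ℕ) :
    Tendsto (Phi u v A J) atTop
      (𝓝 (Real.pi * ∑ k ∈ A, 2 * v k * (QP u (A.erase k)).coeff J)) := by
  have h := tendsto_finsetSum A (fun k hk => phiK_tendsto (hv k hk) (huv k hk)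
    ((QP u (A.erase k)).coeff (J + 1)) ((QP u (A.erase k)).coeff J))
  rw [Finset.mul_sum]
  have e : ∑ k ∈ A, Real.pi * (2 * v k * (QP u (A.erase k)).coeff J) =
      ∑ k ∈ A, 2 * v k * (QP u (A.erase k)).coeff J * Real.pi := by
    apply Finset.sum_congr rfl
    intro k _
    ring
  rw [e]
  exact h

omit [DecidableEq ι] in
lemma QP_pos {u v : ι → ℝ} {A : Finset ι} (hv : ∀ k ∈ A, 0 < v k)
    (huv : ∀ k ∈ A, u k ^ 2 + v k ^ 2 = 1) (x : ℝ) : 0 < (QP u A).eval x := by
  unfold QP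
  rw [eval_prod]
  apply Finset.prod_pos
  intro k hk
  simp only [eval_add, eval_sub, eval_pow, eval_mul, eval_C, eval_X, eval_one]
  exact quad_pos (hv k hk) (huv k hk) x

/-- The kernel in terms of `P` and its truncation. -/
lemma ker_eq {u v : ι → ℝ} {A : Finset ι} (hv : ∀ k ∈ A, 0 < v k)
    (huv : ∀ k ∈ A, u k ^ 2 + v k ^ 2 = 1) (J : ℕ) {x : ℝ} (hx : x ≠ 0) :
    ker u A J x = ((lo (J + 1) (QP u A)).eval x * (derivative (QP u A)).eval x /
      (QP u A).eval x - (derivative (lo (J + 1) (QP u A))).eval x) / x ^ (J + 1) := by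
  have hP := (QP_pos hv huv x).ne'
  have h := congrArg (eval x) (wronskian_identity u A J)
  rw [eval_sub, eval_mul, eval_mul, eval_mul, eval_pow, eval_X, eval_finsetSum] at h
  have e : ker u A J x = (∑ k ∈ A, (num u A J k * QP u (A.erase k)).eval x) /
      (QP u A).eval x := by
    unfold ker
    rw [Finset.sum_div]
    apply Finset.sum_congr rfl
    intro k hk
    have hq := (quad_pos (hv k hk) (huv k hk) x).ne'
    have h1 : (QP u A).eval x = (x ^ 2 - 2 * u k * x + 1) * (QP u (A.erase k)).eval x := by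
      rw [← QP_erase u hk]
      simp only [eval_add, eval_sub, eval_pow, eval_mul, eval_C, eval_X, eval_one]
    have h2 : (QP u (A.erase k)).eval x ≠ 0 := by
      intro h3
      rw [h3, mul_zero] at h1
      exact hP h1
    rw [h1, eval_mul]
    field_simp
  rw [e]
  have hx' : x ^ (J + 1) ≠ 0 := pow_ne_zero _ hx
  rw [div_eq_div_iff hP hx']
  have h3 : ((lo (J + 1) (QP u A)).eval x * (derivative (QP u A)).eval x /
      (QP u A).eval x - (derivative (lo (J + 1) (QP u A))).eval x) * (QP u A).eval x =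
      (lo (J + 1) (QP u A)).eval x * (derivative (QP u A)).eval x -
        (derivative (lo (J + 1) (QP u A))).eval x * (QP u A).eval x := by
    field_simp
  rw [h3, h]
  ring

end Pool.Agent.MP_fe2d2a_anR
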