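import Mathlib
import Pool.Agent.Lib.MP_fe2d2a_anR.Phi

/-!
Even and odd parts of a polynomial with nonnegative coefficients, split at a degree.
-/

set_option autoImplicit false

open Finset Polynomial Filter Topology

namespace Pool.Agent.MP_fe2d2a_anR

lemma even_nonneg {r : ℝ[X]} (hr : ∀ i, 0 ≤ r.coeff i) {x : ℝ} (hx : 0 ≤ x) :
    0 ≤ r.eval x + r.eval (-x) := by
  rw [eval_eq_sum_range, eval_eq_sum_range, ← Finset.sum_add_distrib]
  apply Finset.sum_nonneg
  intro i _
  rw [← mul_add]
  apply mul_nonneg (hr i)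
  have h : |(-x) ^ i| ≤ x ^ i := by
    rw [abs_pow, abs_neg, abs_of_nonneg hx]
  have := neg_le_of_abs_le h
  linarith

lemma odd_nonneg {r : ℝ[X]} (hr : ∀ i, 0 ≤ r.coeff i) {x : ℝ} (hx : 0 ≤ x) :
    0 ≤ r.eval x - r.eval (-x) := by
  rw [eval_eq_sum_range, eval_eq_sum_range, ← Finset.sum_sub_distrib]
  apply Finset.sum_nonneg
  intro i _
  rw [← mul_sub]
  apply mul_nonneg (hr i)
  have h : |(-x) ^ i| ≤ x ^ i := by
    rw [abs_pow, abs_neg, abs_of_nonneg hx]
  have := le_of_abs_le h
  linarith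

lemma coeff_euler (r : ℝ[X]) (i : ℕ) : (X * derivative r).coeff i = (i : ℝ) * r.coeff i := by
  cases i with
  | zero => simp
  | succ i =>
    rw [coeff_X_mul, coeff_derivative]
    push_cast
    ring

/-- The inequalities for the low part. -/
lemma lo_euler {r : ℝ[X]} (hr : ∀ i, 0 ≤ r.coeff i) {n : ℕ} (hd : ∀ i, n < i → r.coeff i = 0)
    {x : ℝ} (hx : 0 ≤ x) :
    0 ≤ n * (r.eval x + r.eval (-x)) -
      x * ((derivative r).eval x - (derivative r).eval (-x)) ∧
    0 ≤ n * (r.eval x - r.eval (-x)) -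
      x * ((derivative r).eval x + (derivative r).eval (-x)) := by
  have hs : ∀ i, 0 ≤ (C (n : ℝ) * r - X * derivative r).coeff i := by
    intro i
    rw [coeff_sub, coeff_C_mul, coeff_euler, ← sub_mul]
    rcases Nat.lt_or_ge n i with h | h
    · rw [hd i h, mul_zero]
    · apply mul_nonneg _ (hr i)
      have : (i : ℝ) ≤ n := by exact_mod_cast h
      linarith
  have h1 := even_nonneg hs hx
  have h2 := odd_nonneg hs hx
  simp only [eval_sub, eval_mul, eval_C, eval_X] at h1 h2
  constructor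
  · linarith
  · linarith

/-- The inequalities for the high part. -/
lemma hi_euler {r : ℝ[X]} (hr : ∀ i, 0 ≤ r.coeff i) {n : ℕ} (hd : ∀ i, i ≤ n → r.coeff i = 0)
    {x : ℝ} (hx : 0 ≤ x) :
    0 ≤ x * ((derivative r).eval x - (derivative r).eval (-x)) -
      (n + 1) * (r.eval x + r.eval (-x)) ∧
    0 ≤ x * ((derivative r).eval x + (derivative r).eval (-x)) -
      (n + 1) * (r.eval x - r.eval (-x)) := by
  have hs : ∀ i, 0 ≤ (X * derivative r - C ((n : ℝ) + 1) * r).coeff i := by
    intro i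
    rw [coeff_sub, coeff_C_mul, coeff_euler, ← sub_mul]
    rcases Nat.lt_or_ge n i with h | h
    · apply mul_nonneg _ (hr i)
      have : (n : ℝ) + 1 ≤ i := by exact_mod_cast h
      linarith
    · rw [hd i h, mul_zero]
  have h1 := even_nonneg hs hx
  have h2 := odd_nonneg hs hx
  simp only [eval_sub, eval_mul, eval_C, eval_X] at h1 h2
  constructor
  · linarith
  · linarith

/-- `11 ≤ exp (12/5)`. -/
lemma log_eleven : Real.log 11 < 12 / 5 := by
  have h1 : (11 : ℝ) ^ 5 < Real.exp 12 := by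
    have h2 : Real.exp 12 = Real.exp 1 ^ 12 := by
      rw [← Real.exp_nat_mul]
      norm_num
    rw [h2]
    have h3 : (2.7182818283 : ℝ) ^ 12 < Real.exp 1 ^ 12 :=
      pow_lt_pow_left₀ Real.exp_one_gt_d9 (by norm_num) (by norm_num)
    refine lt_trans ?_ h3
    norm_num
  have h4 : Real.log ((11 : ℝ) ^ 5) < 12 := by
    rw [Real.log_lt_iff_lt_exp (by positivity)]
    exact h1
  rw [Real.log_pow] at h4
  push_cast at h4
  linarith

/-- The condition `θ artanh θ < 1`. -/
lemma log_cond {p m : ℝ} (hm : 0 < m) (h1 : m ≤ p) (h2 : p ≤ 11 * m) :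
    (p - m) * (Real.log p - Real.log m) < 2 * (p + m) := by
  have hp : 0 < p := lt_of_lt_of_le hm h1
  have e : Real.log p - Real.log m = Real.log (p / m) := (Real.log_div hp.ne' hm.ne').symm
  rw [e]
  set s := p / m with hs
  have hs1 : 1 ≤ s := (one_le_div hm).2 h1
  have hs2 : s ≤ 11 := (div_le_iff₀ hm).2 h2
  have hps : p = s * m := by rw [hs]; field_simp
  have hsp : 0 < s := by linarith
  have hl : Real.log s ≤ Real.log 11 + (s / 11 - 1) := by
    have h := Real.log_le_sub_one_of_pos (show 0 < s / 11 by positivity)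
    rw [Real.log_div hsp.ne' (by norm_num)] at h
    linarith
  have hl2 : Real.log s < 12 / 5 + (s / 11 - 1) := by
    have := log_eleven
    linarith
  have key : (s - 1) * Real.log s < 2 * (s + 1) := by
    rcases eq_or_lt_of_le hs1 with h | h
    · rw [← h]
      norm_num
    · have h3 : (s - 1) * Real.log s < (s - 1) * (12 / 5 + (s / 11 - 1)) :=
        mul_lt_mul_of_pos_left hl2 (by linarith)
      nlinarith [mul_nonneg (show 0 ≤ 11 - s by linarith) (show 0 ≤ s + 17 / 5 by linarith)]
  rw [hps]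
  have e2 : (s * m - m) * Real.log s = m * ((s - 1) * Real.log s) := by ring
  have e3 : 2 * (s * m + m) = m * (2 * (s + 1)) := by ring
  rw [e2, e3]
  exact mul_lt_mul_of_pos_left key hm

end Pool.Agent.MP_fe2d2a_anR
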