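import Mathlib
import Pool.Agent.Lib.MP_fe2d2a_anR.Parts
import Pool.Agent.Lib.MP_fe2d2a_anR.OddIneq

/-!
Odd indices: if `P = ∏ (X^2 - 2 u_k X + 1)` has nonnegative coefficients and
`P(x) ≤ 11 P(-x)` for `x > 0` then `∑ 2 v_k Q_J > 0` for even `J`, `Q = P / q_k`.
-/

set_option autoImplicit false

open Finset Polynomial Filter Topology

namespace Pool.Agent.MP_fe2d2a_anR

variable {ι : Type*} [DecidableEq ι]

omit [DecidableEq ι] in
lemma QP_monic (u : ι → ℝ) (A : Finset ι) : (QP u A).Monic := by
  apply monic_prod_of_monic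
  intro k _
  have e : (X ^ 2 - C (2 * u k) * X + 1 : ℝ[X]) = X ^ 2 + (C (-(2 * u k)) * X + C 1) := by
    rw [C_neg, C_1]
    ring
  rw [e]
  apply monic_X_pow_add
  exact lt_of_le_of_lt degree_linear_le (by norm_num)

omit [DecidableEq ι] in
lemma QP_natDegree (u : ι → ℝ) (A : Finset ι) : (QP u A).natDegree = 2 * A.card := by
  unfold QP
  rw [natDegree_prod_of_monic]
  · have e : ∀ k ∈ A, (X ^ 2 - C (2 * u k) * X + 1 : ℝ[X]).natDegree = 2 := by
      intro k _
      have e : (X ^ 2 - C (2 * u k) * X + 1 : ℝ[X]) = X ^ 2 + (C (-(2 * u k)) * X + C 1) := by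
        rw [C_neg, C_1]
        ring
      rw [e, natDegree_add_eq_left_of_natDegree_lt]
      · exact natDegree_X_pow 2
      · rw [natDegree_X_pow]
        exact lt_of_le_of_lt natDegree_linear_le (by norm_num)
    rw [Finset.sum_congr rfl e]
    simp [mul_comm]
  · intro k _
    have e : (X ^ 2 - C (2 * u k) * X + 1 : ℝ[X]) = X ^ 2 + (C (-(2 * u k)) * X + C 1) := by
      rw [C_neg, C_1]
      ring
    rw [e]
    apply monic_X_pow_add
    exact lt_of_le_of_lt degree_linear_le (by norm_num)

omit [DecidableEq ι] in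
lemma QP_coeff_zero (u : ι → ℝ) (A : Finset ι) : (QP u A).coeff 0 = 1 := by
  rw [coeff_zero_eq_eval_zero]
  unfold QP
  rw [eval_prod]
  apply Finset.prod_eq_one
  intro k _
  simp

lemma even_pos {r : ℝ[X]} (hr : ∀ i, 0 ≤ r.coeff i) {i : ℕ} (hi : Even i) (h : 0 < r.coeff i)
    {x : ℝ} (hx : 0 < x) : 0 < r.eval x + r.eval (-x) := by
  have h1 : ∀ m, 0 ≤ (r - monomial i (r.coeff i)).coeff m := by
    intro m
    rw [coeff_sub, coeff_monomial]
    split_ifs with h2
    · rw [h2, sub_self]
    · rw [sub_zero]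
      exact hr m
  have h2 := even_nonneg h1 hx.le
  simp only [eval_sub, eval_monomial] at h2
  rw [hi.neg_pow] at h2
  have : 0 < r.coeff i * x ^ i := by positivity
  linarith

/-- The logarithm of `P(x) / P(-x)`. -/
noncomputable def Lam (u : ι → ℝ) (A : Finset ι) (x : ℝ) : ℝ :=
  Real.log ((QP u A).eval x) - Real.log ((QP u A).eval (-x))

omit [DecidableEq ι] in
lemma Lam_tendsto {u v : ι → ℝ} {A : Finset ι} (hv : ∀ k ∈ A, 0 < v k)
    (huv : ∀ k ∈ A, u k ^ 2 + v k ^ 2 = 1) : Tendsto (Lam u A) atTop (𝓝 0) := by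
  have e : Lam u A = fun R : ℝ => ∑ k ∈ A, (Real.log (R ^ 2 - 2 * u k * R + 1) -
      Real.log (R ^ 2 + 2 * u k * R + 1)) := by
    funext R
    unfold Lam QP
    rw [eval_prod, eval_prod, Real.log_prod, Real.log_prod, ← Finset.sum_sub_distrib]
    · apply Finset.sum_congr rfl
      intro k _
      simp only [eval_add, eval_sub, eval_pow, eval_mul, eval_C, eval_X, eval_one]
      congr 2
      ring
    · intro k hk
      simp only [eval_add, eval_sub, eval_pow, eval_mul, eval_C, eval_X, eval_one]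
      exact (quad_pos (hv k hk) (huv k hk) (-R)).ne'
    · intro k hk
      simp only [eval_add, eval_sub, eval_pow, eval_mul, eval_C, eval_X, eval_one]
      exact (quad_pos (hv k hk) (huv k hk) R).ne'
  rw [e]
  have h := tendsto_finsetSum A (fun k hk => log_ratio_tendsto (u := u k)
    (fun x => quad_pos (hv k hk) (huv k hk) x) (fun x => by
      have := quad_pos (u := -u k) (hv k hk) (by rw [neg_sq]; exact huv k hk) x
      linarith))
  simpa using h

/-- The function `K`. -/
noncomputable def Kf (u : ι → ℝ) (A : Finset ι) (n : ℕ) (x : ℝ) : ℝ :=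
  ((lo n (QP u A)).eval x * (QP u A).eval (-x) - (lo n (QP u A)).eval (-x) * (QP u A).eval x) /
    (x ^ n * ((QP u A).eval x + (QP u A).eval (-x)))

omit [DecidableEq ι] in
lemma Lam_hasDerivAt {u v : ι → ℝ} {A : Finset ι} (hv : ∀ k ∈ A, 0 < v k)
    (huv : ∀ k ∈ A, u k ^ 2 + v k ^ 2 = 1) (x : ℝ) :
    HasDerivAt (Lam u A) ((derivative (QP u A)).eval x / (QP u A).eval x -
      -(derivative (QP u A)).eval (-x) / (QP u A).eval (-x)) x := by
  have d1 := (QP u A).hasDerivAt x
  have d2 : HasDerivAt (fun y : ℝ => (QP u A).eval (-y)) (-(derivative (QP u A)).eval (-x)) x := by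
    have h := ((QP u A).hasDerivAt (-x)).comp x (hasDerivAt_neg x)
    exact h.congr_deriv (by ring)
  exact (d1.log (QP_pos hv huv x).ne').sub (d2.log (QP_pos hv huv (-x)).ne')

omit [DecidableEq ι] in
lemma Kf_hasDerivAt {u v : ι → ℝ} {A : Finset ι} (hv : ∀ k ∈ A, 0 < v k)
    (huv : ∀ k ∈ A, u k ^ 2 + v k ^ 2 = 1) {n : ℕ} (hn : 0 < n) {x : ℝ} (hx : 0 < x) :
    HasDerivAt (Kf u A n)
      ((((derivative (lo n (QP u A))).eval x * (QP u A).eval (-x) +
          (lo n (QP u A)).eval x * -(derivative (QP u A)).eval (-x) -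
          (-(derivative (lo n (QP u A))).eval (-x) * (QP u A).eval x +
            (lo n (QP u A)).eval (-x) * (derivative (QP u A)).eval x)) *
          (x ^ n * ((QP u A).eval x + (QP u A).eval (-x))) -
        ((lo n (QP u A)).eval x * (QP u A).eval (-x) -
          (lo n (QP u A)).eval (-x) * (QP u A).eval x) *
          (n * (x ^ n / x) * ((QP u A).eval x + (QP u A).eval (-x)) +
            x ^ n * ((derivative (QP u A)).eval x + -(derivative (QP u A)).eval (-x)))) /
        (x ^ n * ((QP u A).eval x + (QP u A).eval (-x))) ^ 2) x := by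
  have d1 := (QP u A).hasDerivAt x
  have d2 : HasDerivAt (fun y : ℝ => (QP u A).eval (-y)) (-(derivative (QP u A)).eval (-x)) x := by
    have h := ((QP u A).hasDerivAt (-x)).comp x (hasDerivAt_neg x)
    exact h.congr_deriv (by ring)
  have d3 := (lo n (QP u A)).hasDerivAt x
  have d4 : HasDerivAt (fun y : ℝ => (lo n (QP u A)).eval (-y))
      (-(derivative (lo n (QP u A))).eval (-x)) x := by
    have h := ((lo n (QP u A)).hasDerivAt (-x)).comp x (hasDerivAt_neg x)
    exact h.congr_deriv (by ring)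
  have d5 := hasDerivAt_pow n x
  have hden : x ^ n * ((QP u A).eval x + (QP u A).eval (-x)) ≠ 0 := by
    have h1 := QP_pos hv huv x
    have h2 := QP_pos hv huv (-x)
    positivity
  have h := ((d3.mul d2).sub (d4.mul d1)).div (d5.mul (d1.add d2)) hden
  refine HasDerivAt.congr_deriv h ?_
  have e : x ^ (n - 1) = x ^ n / x := by
    rw [eq_div_iff hx.ne', ← pow_succ, Nat.sub_add_cancel hn]
  rw [e]
  rfl

/-- The odd theorem. -/
theorem odd_pos {u v : ι → ℝ} {A : Finset ι} (hv : ∀ k ∈ A, 0 < v k)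
    (huv : ∀ k ∈ A, u k ^ 2 + v k ^ 2 = 1) (hpos : ∀ i, 0 ≤ (QP u A).coeff i)
    (hk : ∀ x : ℝ, 0 < x → (QP u A).eval x ≤ 11 * (QP u A).eval (-x)) {J : ℕ} (hJ : Even J)
    (hJ2 : J + 1 < 2 * A.card) : 0 < ∑ k ∈ A, 2 * v k * (QP u (A.erase k)).coeff J := by
  set P := QP u A with hP
  set n := J + 1 with hn
  set A0 := lo n P with hA0
  set B0 := P - A0 with hB0
  have hPAB : P = A0 + B0 := by rw [hB0]; ring
  have hA0c : ∀ i, A0.coeff i = if i ≤ n then P.coeff i else 0 := fun i => coeff_lo n P i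
  have hB0c : ∀ i, B0.coeff i = if i ≤ n then 0 else P.coeff i := by
    intro i
    rw [hB0, coeff_sub, hA0c]
    split_ifs <;> simp
  have hA0pos : ∀ i, 0 ≤ A0.coeff i := by
    intro i
    rw [hA0c]
    split_ifs
    · exact hpos i
    · exact le_rfl
  have hB0pos : ∀ i, 0 ≤ B0.coeff i := by
    intro i
    rw [hB0c]
    split_ifs
    · exact le_rfl
    · exact hpos i
  have hA0d : ∀ i, n < i → A0.coeff i = 0 := by
    intro i hi
    rw [hA0c, if_neg (by omega)]
  have hB0d : ∀ i, i ≤ n → B0.coeff i = 0 := by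
    intro i hi
    rw [hB0c, if_pos hi]
  have hPp : ∀ x, 0 < P.eval x := QP_pos hv huv
  have hab : ∀ x : ℝ, 0 < x → 0 < A0.eval x + A0.eval (-x) := by
    intro x hx
    apply even_pos hA0pos (i := 0) (by simp) _ hx
    rw [hA0c, if_pos (by omega), hP, QP_coeff_zero]
    exact one_pos
  have hhg : ∀ x : ℝ, 0 < x → 0 < B0.eval x + B0.eval (-x) := by
    intro x hx
    apply even_pos hB0pos (i := 2 * A.card) (by simp) _ hx
    rw [hB0c, if_neg (by omega)]
    have h1 := QP_monic u A
    have h2 : (QP u A).coeff (2 * A.card) = 1 := by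
      rw [← QP_natDegree u A]
      exact h1
    rw [hP, h2]
    exact one_pos
  have hle : ∀ x : ℝ, 0 < x → P.eval (-x) ≤ P.eval x := by
    intro x hx
    have := odd_nonneg hpos hx.le
    linarith
  -- the function
  set F : ℝ → ℝ := fun x => Phi u v A J x - Lam u A x * Kf u A n x with hF
  have hderiv : ∀ x : ℝ, 0 < x → ∃ d : ℝ, 0 < d ∧ HasDerivAt F d x := by
    intro x hx
    have h1 := Phi_hasDerivAt hv huv J x
    have h2 := (Lam_hasDerivAt hv huv x).mul (Kf_hasDerivAt hv huv (n := n) (by omega) hx)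
    refine ⟨_, ?_, h1.sub h2⟩
    rw [ker_eq hv huv J hx.ne', ker_eq hv huv J (neg_ne_zero.2 hx.ne')]
    have hodd : Odd n := by
      rw [hn]
      exact hJ.add_one
    rw [← hn, hodd.neg_pow]
    have hD : derivative P = derivative A0 + derivative B0 := by
      rw [hPAB, derivative_add]
    have r12 := lo_euler hA0pos hA0d hx.le
    have r34 := hi_euler hB0pos hB0d hx.le
    have q1 : P.eval x = A0.eval x + B0.eval x := by rw [← eval_add, ← hPAB]
    have q2 : P.eval (-x) = A0.eval (-x) + B0.eval (-x) := by rw [← eval_add, ← hPAB]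
    have q3 : (derivative P).eval x = (derivative A0).eval x + (derivative B0).eval x := by
      rw [hD, eval_add]
    have q4 : (derivative P).eval (-x) = (derivative A0).eval (-x) + (derivative B0).eval (-x) := by
      rw [hD, eval_add]
    have hLam : Lam u A x = Real.log (P.eval x) - Real.log (P.eval (-x)) := rfl
    have hLam0 : 0 ≤ Lam u A x := by
      rw [hLam, sub_nonneg]
      exact Real.log_le_log (hPp (-x)) (hle x hx)
    have hcond := log_cond (hPp (-x)) (hle x hx) (hk x hx)
    rw [← hLam, q1, q2] at hcond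
    have key := odd_ineq (x := x) (Y := x ^ n) (N := (n : ℝ)) (a := A0.eval x)
      (b := A0.eval (-x)) (h := B0.eval x) (g := B0.eval (-x)) (a1 := (derivative A0).eval x)
      (b1 := (derivative A0).eval (-x)) (h1 := (derivative B0).eval x)
      (g1 := (derivative B0).eval (-x)) (L := Lam u A x) hx (by positivity)
      (by rw [← q1]; exact hPp x) (by rw [← q2]; exact hPp (-x)) (hab x hx) (hhg x hx)
      (odd_nonneg hB0pos hx.le) hLam0 hcond r12.1 r12.2 r34.1 r34.2
    rw [← q1, ← q2, ← q3, ← q4] at key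
    refine lt_of_lt_of_eq key ?_
    rw [← hP, ← hA0]
    unfold Kf
    rw [← hP, ← hA0]
  have hmono : StrictMonoOn F (Set.Ioi 0) := by
    apply strictMonoOn_of_deriv_pos (convex_Ioi 0)
    · intro x hx
      obtain ⟨d, _, hd⟩ := hderiv x hx
      exact hd.continuousAt.continuousWithinAt
    · intro x hx
      rw [interior_Ioi] at hx
      obtain ⟨d, hd0, hd⟩ := hderiv x hx
      rw [hd.deriv]
      exact hd0
  -- bound for K at infinity
  have habs : ∀ x : ℝ, 0 < x → |A0.eval (-x)| ≤ A0.eval x := by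
    intro x hx
    rw [abs_le]
    constructor
    · linarith [even_nonneg hA0pos hx.le]
    · linarith [odd_nonneg hA0pos hx.le]
  have hKinf : ∀ x : ℝ, 1 ≤ x → |Kf u A n x| ≤ A0.eval 1 := by
    intro x hx
    have hx0 : 0 < x := by linarith
    have h1 : A0.eval x ≤ A0.eval 1 * x ^ n := by
      rw [hA0]
      unfold lo
      rw [eval_finsetSum, eval_finsetSum, Finset.sum_mul]
      apply Finset.sum_le_sum
      intro i hi
      rw [eval_monomial, eval_monomial, one_pow, mul_one]
      apply mul_le_mul_of_nonneg_left _ (hpos i)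
      exact pow_le_pow_right₀ hx (by rw [Finset.mem_range] at hi; omega)
    unfold Kf
    rw [← hP, ← hA0, abs_div, abs_of_pos (a := x ^ n * (P.eval x + P.eval (-x)))
      (mul_pos (by positivity) (add_pos (hPp x) (hPp (-x))))]
    rw [div_le_iff₀ (mul_pos (by positivity) (add_pos (hPp x) (hPp (-x))))]
    have h2 : |A0.eval x * P.eval (-x) - A0.eval (-x) * P.eval x| ≤
        A0.eval x * P.eval (-x) + A0.eval x * P.eval x := by
      have h3 : |A0.eval x * P.eval (-x)| ≤ A0.eval x * P.eval (-x) := by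
        rw [abs_mul, abs_of_pos (hPp (-x))]
        apply mul_le_mul_of_nonneg_right _ (hPp (-x)).le
        rw [abs_of_nonneg]
        exact le_trans (abs_nonneg _) (habs x hx0)
      have h4 : |A0.eval (-x) * P.eval x| ≤ A0.eval x * P.eval x := by
        rw [abs_mul, abs_of_pos (hPp x)]
        exact mul_le_mul_of_nonneg_right (habs x hx0) (hPp x).le
      calc |A0.eval x * P.eval (-x) - A0.eval (-x) * P.eval x|
          ≤ |A0.eval x * P.eval (-x)| + |A0.eval (-x) * P.eval x| := abs_sub _ _
        _ ≤ _ := add_le_add h3 h4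
    refine h2.trans ?_
    have e : A0.eval x * P.eval (-x) + A0.eval x * P.eval x =
        A0.eval x * (P.eval x + P.eval (-x)) := by ring
    rw [e, ← mul_assoc]
    exact mul_le_mul_of_nonneg_right h1 (add_pos (hPp x) (hPp (-x))).le
  have hHinf : Tendsto (fun x => Lam u A x * Kf u A n x) atTop (𝓝 0) := by
    have h1 := Lam_tendsto hv huv
    have h2 : Tendsto (fun x => |Lam u A x| * A0.eval 1) atTop (𝓝 0) := by
      have := h1.abs.mul_const (A0.eval 1)
      simpa using this
    apply squeeze_zero_norm' _ h2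
    filter_upwards [eventually_ge_atTop 1] with x hx
    rw [Real.norm_eq_abs, abs_mul]
    exact mul_le_mul_of_nonneg_left (hKinf x hx) (abs_nonneg _)
  have hFinf : Tendsto F atTop (𝓝 (Real.pi * ∑ k ∈ A, 2 * v k * (QP u (A.erase k)).coeff J)) := by
    have := (Phi_tendsto hv huv J).sub hHinf
    rw [sub_zero] at this
    exact this
  -- the limit at zero
  obtain ⟨ρ, hρ⟩ : X ^ (n + 1) ∣ B0 := by
    rw [X_pow_dvd_iff]
    intro d hd
    exact hB0d d (by omega)
  have hF0 : Tendsto F (𝓝[>] 0) (𝓝 0) := by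
    have hev : Even (n + 1) := by
      rw [hn]
      have := hJ.add (show Even 2 by decide)
      exact this
    have e : ∀ᶠ x in 𝓝[>] (0 : ℝ), Phi u v A J x - Lam u A x *
        (x * (A0.eval x * ρ.eval (-x) - A0.eval (-x) * ρ.eval x) /
          (P.eval x + P.eval (-x))) = F x := by
      filter_upwards [self_mem_nhdsWithin] with x hx
      have hx0 : (0 : ℝ) < x := hx
      rw [hF]
      simp only
      congr 2
      unfold Kf
      rw [← hP, ← hA0]
      have q1 : P.eval x = A0.eval x + x ^ (n + 1) * ρ.eval x := by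
        rw [hPAB, eval_add, hρ, eval_mul, eval_pow, eval_X]
      have q2 : P.eval (-x) = A0.eval (-x) + x ^ (n + 1) * ρ.eval (-x) := by
        rw [hPAB, eval_add, hρ, eval_mul, eval_pow, eval_X, hev.neg_pow]
      have hs : P.eval x + P.eval (-x) ≠ 0 := (add_pos (hPp x) (hPp (-x))).ne'
      have hxn : x ^ n ≠ 0 := by positivity
      rw [div_eq_div_iff hs (mul_ne_zero hxn hs)]
      have q3 : A0.eval x * P.eval (-x) - A0.eval (-x) * P.eval x =
          x ^ n * (x * (A0.eval x * ρ.eval (-x) - A0.eval (-x) * ρ.eval x)) := by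
        rw [q1, q2]
        ring
      rw [q3]
      ring
    refine Tendsto.congr' e ?_
    have hc : ContinuousAt (fun x : ℝ => Phi u v A J x - Lam u A x *
        (x * (A0.eval x * ρ.eval (-x) - A0.eval (-x) * ρ.eval x) /
          (P.eval x + P.eval (-x)))) 0 := by
      apply ContinuousAt.sub
      · exact (Phi_hasDerivAt hv huv J 0).continuousAt
      · apply ContinuousAt.mul
        · exact (Lam_hasDerivAt hv huv 0).continuousAt
        · apply ContinuousAt.div
          · fun_prop
          · fun_prop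
          · exact (add_pos (hPp 0) (hPp (-0))).ne'
    have h0 := hc.tendsto
    simp only [Phi_zero, zero_mul, zero_div, mul_zero, sub_zero] at h0
    exact h0.mono_left nhdsWithin_le_nhds
  -- conclusion
  have h1 : F (1 / 2) < F 1 := hmono (by norm_num) (by norm_num) (by norm_num)
  have h2 : F 1 ≤ Real.pi * ∑ k ∈ A, 2 * v k * (QP u (A.erase k)).coeff J := by
    apply ge_of_tendsto hFinf
    filter_upwards [eventually_ge_atTop 1] with x hx
    rcases eq_or_lt_of_le hx with h | h
    · rw [h]
    · exact (hmono (by norm_num) (show (0 : ℝ) < x by linarith) h).le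
  have h3 : 0 ≤ F (1 / 2) := by
    apply le_of_tendsto hF0
    have : Set.Ioo (0 : ℝ) (1 / 2) ∈ 𝓝[>] (0 : ℝ) := Ioo_mem_nhdsGT (by norm_num)
    filter_upwards [this] with x hx
    exact (hmono hx.1 (by norm_num) hx.2).le
  have h4 : 0 < Real.pi * ∑ k ∈ A, 2 * v k * (QP u (A.erase k)).coeff J := by linarith
  exact (mul_pos_iff_of_pos_left Real.pi_pos).1 h4

end Pool.Agent.MP_fe2d2a_anR
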