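import Mathlib

/-!
The final one-variable inequality
`artanh θ ≤ √(1-μ²) artanh √((θ²-μ²)/(1-μ²)) + μ arcsin (μ/θ)` when `θ artanh θ ≤ 1`.
-/

set_option autoImplicit false

open Set

namespace Pool.Agent.MP_fe2d2a_anR

/-- The inverse hyperbolic tangent. -/
noncomputable def at' (x : ℝ) : ℝ := (Real.log (1 + x) - Real.log (1 - x)) / 2

lemma at_zero : at' 0 = 0 := by simp [at']

lemma at_hasDerivAt {x : ℝ} (h1 : -1 < x) (h2 : x < 1) :
    HasDerivAt at' (1 / (1 - x ^ 2)) x := by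
  have e1 : (1 : ℝ) + x ≠ 0 := by linarith
  have e2 : (1 : ℝ) - x ≠ 0 := by linarith
  have d1 : HasDerivAt (fun y : ℝ => 1 + y) 1 x := (hasDerivAt_id' x).const_add 1
  have d2 : HasDerivAt (fun y : ℝ => 1 - y) (-1) x := (hasDerivAt_id' x).const_sub 1
  have h := ((d1.log e1).sub (d2.log e2)).div_const 2
  refine HasDerivAt.congr_deriv h ?_
  have e3 : (1 : ℝ) - x ^ 2 ≠ 0 := by
    have : (1 : ℝ) - x ^ 2 = (1 + x) * (1 - x) := by ring
    rw [this]
    exact mul_ne_zero e1 e2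
  rw [div_sub_div _ _ e1 e2, div_div, div_eq_div_iff (mul_ne_zero (mul_ne_zero e1 e2) two_ne_zero) e3]
  ring

lemma at_mono {x y : ℝ} (h1 : -1 < x) (h2 : x ≤ y) (h3 : y < 1) : at' x ≤ at' y := by
  unfold at'
  have k1 : Real.log (1 + x) ≤ Real.log (1 + y) := Real.log_le_log (by linarith) (by linarith)
  have k2 : Real.log (1 - y) ≤ Real.log (1 - x) := Real.log_le_log (by linarith) (by linarith)
  linarith

lemma at_nonneg {x : ℝ} (h1 : 0 ≤ x) (h2 : x < 1) : 0 ≤ at' x := by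
  rw [← at_zero]
  exact at_mono (by norm_num) h1 h2

/-- `artanh z √(1-z²)` is nondecreasing as long as `z artanh z ≤ 1`. -/
lemma at_sqrt_mono {z θ : ℝ} (h0 : 0 ≤ z) (h1 : z ≤ θ) (h2 : θ < 1) (h3 : θ * at' θ ≤ 1) :
    at' z * Real.sqrt (1 - z ^ 2) ≤ at' θ * Real.sqrt (1 - θ ^ 2) := by
  have hd : ∀ x ∈ Icc (0 : ℝ) θ, HasDerivAt (fun x : ℝ => at' x * Real.sqrt (1 - x ^ 2))
      (1 / (1 - x ^ 2) * Real.sqrt (1 - x ^ 2) +
        at' x * (-(2 * x) / (2 * Real.sqrt (1 - x ^ 2)))) x := by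
    intro x hx
    have k1 : 0 < 1 - x ^ 2 := by nlinarith [hx.1, hx.2]
    have d1 : HasDerivAt (fun y : ℝ => 1 - y ^ 2) (-(2 * x)) x := by
      have h := (hasDerivAt_pow 2 x).const_sub 1
      refine HasDerivAt.congr_deriv h ?_
      push_cast
      ring
    exact (at_hasDerivAt (by linarith [hx.1]) (by linarith [hx.2])).mul (d1.sqrt k1.ne')
  have hm : MonotoneOn (fun x : ℝ => at' x * Real.sqrt (1 - x ^ 2)) (Icc 0 θ) := by
    apply monotoneOn_of_deriv_nonneg (convex_Icc 0 θ)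
    · exact fun x hx => (hd x hx).continuousAt.continuousWithinAt
    · intro x hx
      rw [interior_Icc] at hx
      exact (hd x (Ioo_subset_Icc_self hx)).differentiableAt.differentiableWithinAt
    · intro x hx
      rw [interior_Icc] at hx
      rw [(hd x (Ioo_subset_Icc_self hx)).deriv]
      have k1 : 0 < 1 - x ^ 2 := by nlinarith [hx.1, hx.2]
      have k2 : x * at' x ≤ 1 := by
        refine le_trans ?_ h3
        exact mul_le_mul hx.2.le (at_mono (by linarith [hx.1]) hx.2.le h2)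
          (at_nonneg hx.1.le (by linarith [hx.2])) (by linarith [hx.1, hx.2])
      have k3 : 0 < Real.sqrt (1 - x ^ 2) := Real.sqrt_pos.2 k1
      have k4 : Real.sqrt (1 - x ^ 2) * Real.sqrt (1 - x ^ 2) = 1 - x ^ 2 :=
        Real.mul_self_sqrt k1.le
      have e : 1 / (1 - x ^ 2) * Real.sqrt (1 - x ^ 2) +
        at' x * (-(2 * x) / (2 * Real.sqrt (1 - x ^ 2))) =
        (1 - x * at' x) / Real.sqrt (1 - x ^ 2) := by
        have k5 : 1 / (1 - x ^ 2) * Real.sqrt (1 - x ^ 2) = 1 / Real.sqrt (1 - x ^ 2) := by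
          rw [div_mul_eq_mul_div, one_mul, div_eq_div_iff k1.ne' k3.ne', k4, one_mul]
        rw [k5]
        field_simp
        ring
      rw [e]
      apply div_nonneg _ k3.le
      linarith
  exact hm ⟨h0, h1⟩ ⟨h0.trans h1, le_refl θ⟩ h1

/-- `x ≤ arcsin x` for `0 ≤ x ≤ 1`. -/
lemma le_arcsin' {x : ℝ} (h0 : 0 ≤ x) (h1 : x ≤ 1) : x ≤ Real.arcsin x := by
  rw [Real.le_arcsin_iff_sin_le]
  · exact Real.sin_le h0
  · constructor
    · linarith [Real.pi_pos]
    · have := Real.pi_gt_three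
      linarith
  · constructor <;> linarith

/-- The function of `μ`. -/
noncomputable def hyp (θ μ : ℝ) : ℝ :=
  Real.sqrt (1 - μ ^ 2) * at' (Real.sqrt ((θ ^ 2 - μ ^ 2) / (1 - μ ^ 2))) +
    μ * Real.arcsin (μ / θ)

lemma hyp_hasDerivAt {θ μ : ℝ} (h0 : 0 < μ) (h1 : μ < θ) (h2 : θ < 1) :
    HasDerivAt (hyp θ) (Real.arcsin (μ / θ) - μ *
      at' (Real.sqrt ((θ ^ 2 - μ ^ 2) / (1 - μ ^ 2))) / Real.sqrt (1 - μ ^ 2)) μ := by
  have hθ : 0 < θ := h0.trans h1
  have k1 : 0 < 1 - μ ^ 2 := by nlinarith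
  have k2 : 0 < θ ^ 2 - μ ^ 2 := by nlinarith
  have k3 : 0 < 1 - θ ^ 2 := by nlinarith
  have d1 : HasDerivAt (fun y : ℝ => 1 - y ^ 2) (-(2 * μ)) μ := by
    have h := (hasDerivAt_pow 2 μ).const_sub 1
    refine HasDerivAt.congr_deriv h ?_
    push_cast
    ring
  have d2 : HasDerivAt (fun y : ℝ => θ ^ 2 - y ^ 2) (-(2 * μ)) μ := by
    have h := (hasDerivAt_pow 2 μ).const_sub (θ ^ 2)
    refine HasDerivAt.congr_deriv h ?_
    push_cast
    ring
  have kz : 0 < (θ ^ 2 - μ ^ 2) / (1 - μ ^ 2) := by positivity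
  set z := Real.sqrt ((θ ^ 2 - μ ^ 2) / (1 - μ ^ 2)) with hz
  set q := Real.sqrt (1 - μ ^ 2) with hq
  have hz0 : 0 < z := Real.sqrt_pos.2 kz
  have hq0 : 0 < q := Real.sqrt_pos.2 k1
  have hzz : z ^ 2 = (θ ^ 2 - μ ^ 2) / (1 - μ ^ 2) := Real.sq_sqrt kz.le
  have hqq : q ^ 2 = 1 - μ ^ 2 := Real.sq_sqrt k1.le
  have hz1 : 1 - z ^ 2 = (1 - θ ^ 2) / (1 - μ ^ 2) := by
    rw [hzz]
    field_simp
    ring
  have hzlt : z < 1 := by
    have h3 : 0 < 1 - z ^ 2 := by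
      rw [hz1]
      positivity
    nlinarith
  have d3 := (d2.div d1 k1.ne').sqrt kz.ne'
  have d4 := (at_hasDerivAt (x := z) (by linarith) hzlt).comp μ d3
  have d5 : HasDerivAt (fun y : ℝ => y / θ) (1 / θ) μ := (hasDerivAt_id' μ).div_const θ
  have h3 : μ / θ < 1 := (div_lt_one hθ).2 h1
  have h4 : 0 < μ / θ := by positivity
  have d6 := (Real.hasDerivAt_arcsin (x := μ / θ) (by linarith) (by linarith)).comp μ d5
  have d7 := ((d1.sqrt k1.ne').mul d4).add ((hasDerivAt_id' μ).mul d6)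
  refine HasDerivAt.congr_deriv d7 ?_
  have hr : Real.sqrt (1 - (μ / θ) ^ 2) = z * q / θ := by
    rw [hz, hq, ← Real.sqrt_mul kz.le]
    have e1 : (θ ^ 2 - μ ^ 2) / (1 - μ ^ 2) * (1 - μ ^ 2) = θ ^ 2 - μ ^ 2 := by
      field_simp
    rw [e1]
    have e2 : 1 - (μ / θ) ^ 2 = (θ ^ 2 - μ ^ 2) / θ ^ 2 := by
      field_simp
    rw [e2, Real.sqrt_div k2.le, Real.sqrt_sq hθ.le]
  rw [hr]
  simp only [Function.comp_apply, Pi.div_apply]
  rw [← hz, ← hq, hz1]
  have e3 : (-(2 * μ) * (1 - μ ^ 2) - (θ ^ 2 - μ ^ 2) * -(2 * μ)) / (1 - μ ^ 2) ^ 2 =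
      -(2 * μ * (1 - θ ^ 2)) / (1 - μ ^ 2) ^ 2 := by
    congr 1
    ring
  rw [e3, ← hqq]
  have hq0' := hq0.ne'
  have hz0' := hz0.ne'
  have hθ' := hθ.ne'
  have k3' := k3.ne'
  field_simp
  ring

lemma one_var {θ μ : ℝ} (hθ : 0 < θ) (h0 : 0 ≤ μ) (h1 : μ ≤ θ) (h2 : θ < 1)
    (h3 : θ * at' θ ≤ 1) : at' θ ≤ hyp θ μ := by
  have hc : ContinuousOn (hyp θ) (Icc 0 θ) := by
    unfold hyp
    have hz : ContinuousOn (fun μ : ℝ => (θ ^ 2 - μ ^ 2) / (1 - μ ^ 2)) (Icc 0 θ) := by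
      apply ContinuousOn.div (by fun_prop) (by fun_prop)
      intro x hx
      nlinarith [hx.1, hx.2]
    have hs : ContinuousOn (fun μ : ℝ => Real.sqrt ((θ ^ 2 - μ ^ 2) / (1 - μ ^ 2)))
        (Icc 0 θ) := Real.continuous_sqrt.comp_continuousOn hz
    apply ContinuousOn.add
    · apply ContinuousOn.mul
      · fun_prop
      · have hat : ContinuousOn at' (Ioo (-1) 1) := fun x hx =>
          (at_hasDerivAt hx.1 hx.2).continuousAt.continuousWithinAt
        apply hat.comp hs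
        intro x hx
        have k1 : 0 < 1 - x ^ 2 := by nlinarith [hx.1, hx.2]
        refine ⟨by linarith [Real.sqrt_nonneg ((θ ^ 2 - x ^ 2) / (1 - x ^ 2))], ?_⟩
        rw [Real.sqrt_lt' one_pos, one_pow, div_lt_one k1]
        nlinarith
    · apply ContinuousOn.mul continuousOn_id
      exact Real.continuous_arcsin.comp_continuousOn (by fun_prop)
  have hm : MonotoneOn (hyp θ) (Icc 0 θ) := by
    apply monotoneOn_of_deriv_nonneg (convex_Icc 0 θ) hc
    · intro x hx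
      rw [interior_Icc] at hx
      exact (hyp_hasDerivAt hx.1 hx.2 h2).differentiableAt.differentiableWithinAt
    · intro x hx
      rw [interior_Icc] at hx
      rw [(hyp_hasDerivAt hx.1 hx.2 h2).deriv]
      have hx0 := hx.1
      have hx1 := hx.2
      have k1 : 0 < 1 - x ^ 2 := by nlinarith
      have k2 : 0 < θ ^ 2 - x ^ 2 := by nlinarith
      have k3 : 0 < 1 - θ ^ 2 := by nlinarith
      have kz : 0 < (θ ^ 2 - x ^ 2) / (1 - x ^ 2) := by positivity
      set z := Real.sqrt ((θ ^ 2 - x ^ 2) / (1 - x ^ 2)) with hz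
      set q := Real.sqrt (1 - x ^ 2) with hq
      have hq0 : 0 < q := Real.sqrt_pos.2 k1
      have hzz : z ^ 2 = (θ ^ 2 - x ^ 2) / (1 - x ^ 2) := Real.sq_sqrt kz.le
      have hz0 : 0 ≤ z := Real.sqrt_nonneg _
      have hz1 : 1 - z ^ 2 = (1 - θ ^ 2) / (1 - x ^ 2) := by
        rw [hzz]
        field_simp
        ring
      have hzθ : z ≤ θ := by
        rw [hz, Real.sqrt_le_left hθ.le, div_le_iff₀ k1]
        nlinarith [mul_nonneg (sq_nonneg x) k3.le]
      have h5 := at_sqrt_mono hz0 hzθ h2 h3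
      rw [hz1, Real.sqrt_div k3.le, ← hq] at h5
      have h6 : 0 < Real.sqrt (1 - θ ^ 2) := Real.sqrt_pos.2 k3
      have h7 : at' z / q ≤ at' θ := by
        have e : at' z * (Real.sqrt (1 - θ ^ 2) / q) = at' z / q * Real.sqrt (1 - θ ^ 2) := by
          ring
        rw [e] at h5
        exact le_of_mul_le_mul_right h5 h6
      have h8 : at' θ ≤ 1 / θ := by
        rw [le_div_iff₀ hθ]
        linarith
      have h9 : x / θ ≤ Real.arcsin (x / θ) :=
        le_arcsin' (by positivity) ((div_le_one hθ).2 hx1.le)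
      have e : x * at' z / q = x * (at' z / q) := by ring
      rw [e]
      have h10 : x * (at' z / q) ≤ x * (1 / θ) :=
        mul_le_mul_of_nonneg_left (h7.trans h8) hx0.le
      have e2 : x * (1 / θ) = x / θ := by ring
      linarith
  have h := hm ⟨le_refl 0, hθ.le⟩ ⟨h0, h1⟩ h0
  have e : hyp θ 0 = at' θ := by
    unfold hyp
    have e1 : (θ ^ 2 - 0 ^ 2) / (1 - 0 ^ 2) = θ ^ 2 := by ring
    rw [e1, Real.sqrt_sq hθ.le]
    simp
  rw [e] at h
  exact h

end Pool.Agent.MP_fe2d2a_anR
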