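import Mathlib
import Pool.Agent.Lib.MP_fe2d2a_anR.OneVar

/-!
The two comparison functions.
-/

set_option autoImplicit false

open Set

namespace Pool.Agent.MP_fe2d2a_anR

/-- The inner comparison function. -/
noncomputable def uf (D : ℝ → ℝ) (s : ℝ) : ℝ :=
  Real.sqrt (1 - s ^ 2 + D s ^ 2) * at' (D s / Real.sqrt (1 - s ^ 2 + D s ^ 2))

/-- The outer comparison function. -/
noncomputable def vf (D : ℝ → ℝ) (s : ℝ) : ℝ :=
  Real.sqrt (s ^ 2 - D s ^ 2) * Real.arcsin (Real.sqrt (s ^ 2 - D s ^ 2) / s)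

lemma uf_hasDerivAt {D : ℝ → ℝ} {s d : ℝ} (hs0 : 0 < s) (hs1 : s < 1) (hD : 0 ≤ D s)
    (hd : HasDerivAt D d s) (hk : D s * d ≤ s) :
    ∃ e, HasDerivAt (uf D) e s ∧ e ≤ d + s / (1 - s ^ 2) * D s := by
  have k1 : 0 < 1 - s ^ 2 := by nlinarith
  have k2 : 0 < 1 - s ^ 2 + D s ^ 2 := by positivity
  set q := Real.sqrt (1 - s ^ 2 + D s ^ 2) with hq
  have hq0 : 0 < q := Real.sqrt_pos.2 k2
  have hqq : q ^ 2 = 1 - s ^ 2 + D s ^ 2 := Real.sq_sqrt k2.le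
  have d1 : HasDerivAt (fun y : ℝ => 1 - y ^ 2 + D y ^ 2) (-(2 * s) + 2 * D s * d) s := by
    have h := ((hasDerivAt_pow 2 s).const_sub 1).add (hd.pow 2)
    refine HasDerivAt.congr_deriv h ?_
    push_cast
    ring
  have d2 := d1.sqrt k2.ne'
  have d3 := hd.div d2 hq0.ne'
  have hz0 : 0 ≤ D s / q := by positivity
  have hz1 : D s / q < 1 := by
    rw [div_lt_one hq0]
    nlinarith
  have d4 := (at_hasDerivAt (x := D s / q) (by linarith) hz1).comp s d3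
  have d5 := d2.mul d4
  refine ⟨_, d5, ?_⟩
  simp only [Function.comp_apply, Pi.div_apply]
  rw [← hq]
  have e1 : 1 - (D s / q) ^ 2 = (1 - s ^ 2) / q ^ 2 := by
    rw [hqq]
    have : 1 - s ^ 2 + D s ^ 2 ≠ 0 := k2.ne'
    rw [div_pow, hqq]
    field_simp
    ring
  rw [e1]
  have hat : 0 ≤ at' (D s / q) := at_nonneg hz0 hz1
  have e2 : (-(2 * s) + 2 * D s * d) / (2 * q) * at' (D s / q) +
      q * (1 / ((1 - s ^ 2) / q ^ 2) * ((d * q - D s * ((-(2 * s) + 2 * D s * d) / (2 * q))) /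
        q ^ 2)) = d + s / (1 - s ^ 2) * D s - (s - D s * d) / q * at' (D s / q) := by
    have hq0' := hq0.ne'
    have k1' := k1.ne'
    have e3 : q * (1 / ((1 - s ^ 2) / q ^ 2) *
        ((d * q - D s * ((-(2 * s) + 2 * D s * d) / (2 * q))) / q ^ 2)) =
        (d * q ^ 2 + D s * s - D s ^ 2 * d) / (1 - s ^ 2) := by
      field_simp
      ring
    rw [e3, hqq]
    field_simp
    ring
  rw [e2]
  have : 0 ≤ (s - D s * d) / q * at' (D s / q) := by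
    apply mul_nonneg _ hat
    apply div_nonneg _ hq0.le
    linarith
  linarith

lemma vf_hasDerivAt {D : ℝ → ℝ} {s d : ℝ} (hs0 : 0 < s) (hD : 0 < D s) (hDs : D s < s)
    (hd : HasDerivAt D d s) (hk : D s * d ≤ s) :
    ∃ e, HasDerivAt (vf D) e s ∧ -(d - 1 / s * D s) ≤ e := by
  have k2 : 0 < s ^ 2 - D s ^ 2 := by nlinarith
  set κ := Real.sqrt (s ^ 2 - D s ^ 2) with hκ
  have hκ0 : 0 < κ := Real.sqrt_pos.2 k2
  have hκκ : κ ^ 2 = s ^ 2 - D s ^ 2 := Real.sq_sqrt k2.le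
  have d1 : HasDerivAt (fun y : ℝ => y ^ 2 - D y ^ 2) (2 * s - 2 * D s * d) s := by
    have h := (hasDerivAt_pow 2 s).sub (hd.pow 2)
    refine HasDerivAt.congr_deriv h ?_
    push_cast
    ring
  have d2 := d1.sqrt k2.ne'
  have d3 := d2.div (hasDerivAt_id' s) hs0.ne'
  have hz0 : 0 < κ / s := by positivity
  have hz1 : κ / s < 1 := by
    rw [div_lt_one hs0]
    nlinarith
  have d4' : HasDerivAt Real.arcsin (1 / Real.sqrt (1 - (κ / s) ^ 2))
      (((fun y : ℝ => Real.sqrt (y ^ 2 - D y ^ 2)) / fun x : ℝ => x) s) :=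
    Real.hasDerivAt_arcsin (x := κ / s) (by linarith) (by linarith)
  have d4 := HasDerivAt.comp s d4' d3
  have d5 := d2.mul d4
  refine ⟨_, d5, ?_⟩
  simp only [Function.comp_apply, Pi.div_apply]
  rw [← hκ]
  have hr : Real.sqrt (1 - (κ / s) ^ 2) = D s / s := by
    have e1 : 1 - (κ / s) ^ 2 = (D s / s) ^ 2 := by
      rw [div_pow, hκκ]
      field_simp
      ring
    rw [e1, Real.sqrt_sq (by positivity)]
  rw [hr]
  have hasn : 0 ≤ Real.arcsin (κ / s) := Real.arcsin_nonneg.2 hz0.le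
  have e2 : (2 * s - 2 * D s * d) / (2 * κ) * Real.arcsin (κ / s) +
      κ * (1 / (D s / s) * (((2 * s - 2 * D s * d) / (2 * κ) * s - κ * 1) / s ^ 2)) =
      (s - D s * d) / κ * Real.arcsin (κ / s) + (-(d - 1 / s * D s)) := by
    have hκ0' := hκ0.ne'
    have hD' := hD.ne'
    have hs' := hs0.ne'
    have e3 : κ * (1 / (D s / s) * (((2 * s - 2 * D s * d) / (2 * κ) * s - κ * 1) / s ^ 2)) =
        ((s - D s * d) * s - κ ^ 2) / (D s * s) := by
      field_simp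
    rw [e3, hκκ]
    field_simp
    ring
  rw [e2]
  have : 0 ≤ (s - D s * d) / κ * Real.arcsin (κ / s) := by
    apply mul_nonneg _ hasn
    apply div_nonneg _ hκ0.le
    linarith
  linarith

/-- The value at `θ`. -/
lemma uf_add_vf {D : ℝ → ℝ} {θ : ℝ} (h0 : 0 < θ) (h1 : θ < 1) (hD : 0 ≤ D θ) (hDθ : D θ ≤ θ)
    (h3 : θ * at' θ ≤ 1) : at' θ ≤ uf D θ + vf D θ := by
  have k2 : 0 ≤ θ ^ 2 - D θ ^ 2 := by nlinarith
  set κ := Real.sqrt (θ ^ 2 - D θ ^ 2) with hκ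
  have hκκ : κ ^ 2 = θ ^ 2 - D θ ^ 2 := Real.sq_sqrt k2
  have hκ0 : 0 ≤ κ := Real.sqrt_nonneg _
  have hκθ : κ ≤ θ := by nlinarith [sq_nonneg (D θ)]
  have h := one_var h0 hκ0 hκθ h1 h3
  refine h.trans (le_of_eq ?_)
  unfold hyp uf vf
  rw [← hκ]
  congr 1
  have e1 : 1 - κ ^ 2 = 1 - θ ^ 2 + D θ ^ 2 := by
    rw [hκκ]
    ring
  have e2 : θ ^ 2 - κ ^ 2 = D θ ^ 2 := by
    rw [hκκ]
    ring
  rw [e1, e2, Real.sqrt_div (sq_nonneg _), Real.sqrt_sq hD]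

end Pool.Agent.MP_fe2d2a_anR
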