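import Mathlib

/-!
Inverse functions on the two monotone branches of a function.
-/

set_option autoImplicit false

open Set Filter Topology

namespace Pool.Agent.MP_fe2d2a_anR

/-- The right branch. -/
lemma right_branch {S S' : ℝ → ℝ} {c : ℝ} (hS : ∀ t, HasDerivAt S (S' t) t)
    (hpos : ∀ t, c < t → 0 < S' t) (htop : Tendsto S atTop atTop) :
    ∃ p : ℝ → ℝ, ContinuousOn p (Ici (S c)) ∧ p (S c) = c ∧
      (∀ s, S c ≤ s → c ≤ p s ∧ S (p s) = s) ∧
      (∀ s, S c < s → c < p s ∧ HasDerivAt p (S' (p s))⁻¹ s) ∧ Tendsto p atTop atTop ∧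
      StrictMonoOn S (Ici c) := by
  have hcont : Continuous S := continuous_iff_continuousAt.2 fun t => (hS t).continuousAt
  have hmono : StrictMonoOn S (Ici c) := by
    apply strictMonoOn_of_deriv_pos (convex_Ici c) hcont.continuousOn
    intro t ht
    rw [interior_Ici] at ht
    rw [(hS t).deriv]
    exact hpos t ht
  have hex : ∀ s, S c ≤ s → ∃ t, c ≤ t ∧ S t = s := by
    intro s hs
    obtain ⟨T, hT1, hT2⟩ := ((tendsto_atTop.1 htop s).and (eventually_ge_atTop c)).exists
    have h := intermediate_value_Icc hT2 hcont.continuousOn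
    obtain ⟨t, ht1, ht2⟩ := h ⟨hs, hT1⟩
    exact ⟨t, ht1.1, ht2⟩
  choose! p hp using hex
  have hlt : ∀ s t, S c ≤ s → c ≤ t → s < S t → p s < t := by
    intro s t hs ht h
    rw [← (hp s hs).2] at h
    exact (hmono.lt_iff_lt (hp s hs).1 ht).1 h
  have hgt : ∀ s t, S c ≤ s → c ≤ t → S t < s → t < p s := by
    intro s t hs ht h
    rw [← (hp s hs).2] at h
    exact (hmono.lt_iff_lt ht (hp s hs).1).1 h
  have hcp : ContinuousOn p (Ici (S c)) := by
    intro s hs
    rw [mem_Ici] at hs
    rw [Metric.continuousWithinAt_iff]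
    intro ε hε
    have h1 : s < S (p s + ε) := by
      have := hmono (hp s hs).1 (show p s + ε ∈ Ici c by
        rw [mem_Ici]; linarith [(hp s hs).1]) (by linarith : p s < p s + ε)
      rwa [(hp s hs).2] at this
    by_cases h2 : c ≤ p s - ε
    · have h3 : S (p s - ε) < s := by
        have := hmono (show p s - ε ∈ Ici c from h2) (hp s hs).1 (by linarith : p s - ε < p s)
        rwa [(hp s hs).2] at this
      refine ⟨min (S (p s + ε) - s) (s - S (p s - ε)), lt_min (by linarith) (by linarith), ?_⟩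
      intro y hy hd
      rw [mem_Ici] at hy
      rw [Real.dist_eq, abs_lt] at hd
      rw [Real.dist_eq, abs_lt]
      have k1 := min_le_left (S (p s + ε) - s) (s - S (p s - ε))
      have k2 := min_le_right (S (p s + ε) - s) (s - S (p s - ε))
      constructor
      · have := hgt y (p s - ε) hy h2 (by linarith)
        linarith
      · have := hlt y (p s + ε) hy (by linarith [(hp s hs).1]) (by linarith)
        linarith
    · refine ⟨S (p s + ε) - s, by linarith, ?_⟩
      intro y hy hd
      rw [mem_Ici] at hy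
      rw [Real.dist_eq, abs_lt] at hd
      rw [Real.dist_eq, abs_lt]
      constructor
      · have := (hp y hy).1
        push_neg at h2
        linarith
      · have := hlt y (p s + ε) hy (by linarith [(hp s hs).1]) (by linarith)
        linarith
  have hpc : p (S c) = c := by
    have h := hp (S c) le_rfl
    exact hmono.injOn h.1 (self_mem_Ici) h.2
  refine ⟨p, hcp, hpc, hp, ?_, ?_, hmono⟩
  · intro s hs
    have h1 : c < p s := hgt s c hs.le le_rfl hs
    refine ⟨h1, ?_⟩
    apply HasDerivAt.of_local_left_inverse _ (hS (p s)) (hpos _ h1).ne'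
    · filter_upwards [lt_mem_nhds hs] with y hy
      exact (hp y hy.le).2
    · exact (hcp s hs.le).continuousAt (Ici_mem_nhds hs)
  · rw [tendsto_atTop]
    intro b
    filter_upwards [eventually_gt_atTop (max (S c) (S (max b c)))] with s hs
    have h1 : S c < s := lt_of_le_of_lt (le_max_left _ _) hs
    have h2 : S (max b c) < s := lt_of_le_of_lt (le_max_right _ _) hs
    have := hgt s (max b c) h1.le (le_max_right _ _) h2
    exact (le_max_left b c).trans this.le

/-- The left branch. -/
lemma left_branch {S S' : ℝ → ℝ} {c : ℝ} (hS : ∀ t, HasDerivAt S (S' t) t)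
    (hneg : ∀ t, t < c → S' t < 0) (hbot : Tendsto S atBot atTop) :
    ∃ m : ℝ → ℝ, ContinuousOn m (Ici (S c)) ∧ m (S c) = c ∧
      (∀ s, S c ≤ s → m s ≤ c ∧ S (m s) = s) ∧
      (∀ s, S c < s → m s < c ∧ HasDerivAt m (S' (m s))⁻¹ s) ∧ Tendsto m atTop atBot ∧
      StrictAntiOn S (Iic c) := by
  have hS2 : ∀ t, HasDerivAt (fun t => S (-t)) (-S' (-t)) t := by
    intro t
    have h := (hS (-t)).comp t (hasDerivAt_neg t)
    exact h.congr_deriv (by ring)
  obtain ⟨p, h1, h2, h3, h4, h5, h6⟩ := right_branch (S := fun t => S (-t))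
    (S' := fun t => -S' (-t)) (c := -c) hS2 (fun t ht => by
      have := hneg (-t) (by linarith)
      linarith) (hbot.comp tendsto_neg_atTop_atBot)
  simp only [neg_neg] at h1 h2 h3 h4
  refine ⟨fun s => -p s, h1.neg, ?_, ?_, ?_, ?_, ?_⟩
  · simp only [h2, neg_neg]
  · intro s hs
    exact ⟨by linarith [(h3 s hs).1], (h3 s hs).2⟩
  · intro s hs
    refine ⟨by linarith [(h4 s hs).1], ?_⟩
    have h := (h4 s hs).2.neg
    refine h.congr_deriv ?_
    rw [inv_neg, neg_neg]
  · exact tendsto_neg_atTop_atBot.comp h5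
  · intro x hx y hy hxy
    rw [mem_Iic] at hx hy
    have h := h6 (show -y ∈ Ici (-c) by rw [mem_Ici]; linarith)
      (show -x ∈ Ici (-c) by rw [mem_Ici]; linarith) (by linarith)
    simpa using h

/-- A continuous function with nonnegative derivative except at one point. -/
lemma mono_except {f : ℝ → ℝ} {α β c : ℝ} (hab : α ≤ β) (hf : ContinuousOn f (Icc α β))
    (hd : ∀ x ∈ Ioo α β, x ≠ c → ∃ d, 0 ≤ d ∧ HasDerivAt f d x) : f α ≤ f β := by
  have key : ∀ a b, a ≤ b → α ≤ a → b ≤ β → c ∉ Ioo a b → f a ≤ f b := by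
    intro a b h1 h2 h3 h4
    have hm : MonotoneOn f (Icc a b) := by
      apply monotoneOn_of_deriv_nonneg (convex_Icc a b)
      · exact hf.mono (Icc_subset_Icc h2 h3)
      · intro x hx
        rw [interior_Icc] at hx
        obtain ⟨d, _, hd2⟩ := hd x ⟨by linarith [hx.1], by linarith [hx.2]⟩
          (fun h => h4 (h ▸ hx))
        exact hd2.differentiableAt.differentiableWithinAt
      · intro x hx
        rw [interior_Icc] at hx
        obtain ⟨d, hd1, hd2⟩ := hd x ⟨by linarith [hx.1], by linarith [hx.2]⟩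
          (fun h => h4 (h ▸ hx))
        rw [hd2.deriv]
        exact hd1
    exact hm ⟨le_rfl, h1⟩ ⟨h1, le_rfl⟩ h1
  by_cases hc : c ∈ Ioo α β
  · have h1 := key α c hc.1.le le_rfl hc.2.le (fun h => lt_irrefl _ h.2)
    have h2 := key c β hc.2.le hc.1.le le_rfl (fun h => lt_irrefl _ h.1)
    linarith
  · exact key α β hab le_rfl le_rfl hc

end Pool.Agent.MP_fe2d2a_anR
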