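import Mathlib

/-!
The key inequality for the pairing of two log-convex functions.
-/

set_option autoImplicit false

open Set

namespace Pool.Agent.MP_fe2d2a_anR

/-- `x log (1 + D / x) ≤ D`. -/
lemma key_le {x D : ℝ} (hx : 0 < x) (hD : 0 < D) : x * Real.log (1 + D / x) < D := by
  have h : Real.log (1 + D / x) < D / x := by
    have h1 : (1 : ℝ) + D / x ≠ 1 := by
      have : 0 < D / x := by positivity
      linarith
    have := Real.log_lt_sub_one_of_pos (show 0 < 1 + D / x by positivity) h1
    linarith
  calc x * Real.log (1 + D / x) < x * (D / x) := mul_lt_mul_of_pos_left h hx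
    _ = D := by field_simp

/-- `D < (x + D) log (1 + D / x)`. -/
lemma key_ge {x D : ℝ} (hx : 0 < x) (hD : 0 < D) : D < (x + D) * Real.log (1 + D / x) := by
  have h2 : 0 < x / (x + D) := by positivity
  have h1 : x / (x + D) ≠ 1 := by
    rw [ne_eq, div_eq_one_iff_eq (by positivity)]
    linarith
  have h := Real.log_lt_sub_one_of_pos h2 h1
  have e : Real.log (x / (x + D)) = -Real.log (1 + D / x) := by
    rw [← Real.log_inv]
    congr 1
    field_simp
  rw [e] at h
  have h3 : D / (x + D) < Real.log (1 + D / x) := by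
    have e2 : x / (x + D) - 1 = -(D / (x + D)) := by
      field_simp
      ring
    linarith
  rw [div_lt_iff₀ (by positivity)] at h3
  linarith

lemma hasDerivAt_ll {x D : ℝ} (hx : 0 < x) (hD : 0 < D) :
    HasDerivAt (fun z : ℝ => Real.log (1 + D / z)) (-(D / (x * (x + D)))) x := by
  have h1 : HasDerivAt (fun z : ℝ => 1 + D / z) (-(D / x ^ 2)) x := by
    have h := ((hasDerivAt_inv hx.ne').const_mul D).const_add 1
    refine (h.congr_deriv ?_).congr_of_eventuallyEq ?_
    · ring
    · exact Filter.Eventually.of_forall fun z => by simp [div_eq_mul_inv]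
  have h2 := h1.log (by positivity)
  refine h2.congr_deriv ?_
  field_simp

/-- `x log (1 + D / x)` is nondecreasing in `x`. -/
lemma key_mono {x y D : ℝ} (hx : 0 < x) (hxy : x ≤ y) (hD : 0 < D) :
    x * Real.log (1 + D / x) ≤ y * Real.log (1 + D / y) := by
  have hm : MonotoneOn (fun z : ℝ => z * Real.log (1 + D / z)) (Ioi 0) := by
    have hd : ∀ z ∈ Ioi (0 : ℝ), HasDerivAt (fun z : ℝ => z * Real.log (1 + D / z))
        (1 * Real.log (1 + D / z) + z * -(D / (z * (z + D)))) z := by
      intro z hz
      exact (hasDerivAt_id' z).mul (hasDerivAt_ll hz hD)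
    apply monotoneOn_of_deriv_nonneg (convex_Ioi 0)
    · exact fun z hz => (hd z hz).continuousAt.continuousWithinAt
    · intro z hz
      rw [interior_Ioi] at hz
      exact (hd z hz).differentiableAt.differentiableWithinAt
    · intro z hz
      rw [interior_Ioi] at hz
      rw [(hd z hz).deriv]
      have hz0 : (0 : ℝ) < z := hz
      have h := key_ge hz0 hD
      have e : 1 * Real.log (1 + D / z) + z * -(D / (z * (z + D))) =
          ((z + D) * Real.log (1 + D / z) - D) / (z + D) := by
        field_simp
        ring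
      rw [e]
      apply div_nonneg <;> linarith
  exact hm hx (lt_of_lt_of_le hx hxy) hxy

/-- `(x + D) log (1 + D / x)` is nonincreasing in `x`. -/
lemma key_anti {x y D : ℝ} (hx : 0 < x) (hxy : x ≤ y) (hD : 0 < D) :
    (y + D) * Real.log (1 + D / y) ≤ (x + D) * Real.log (1 + D / x) := by
  have hm : AntitoneOn (fun z : ℝ => (z + D) * Real.log (1 + D / z)) (Ioi 0) := by
    have hd : ∀ z ∈ Ioi (0 : ℝ), HasDerivAt (fun z : ℝ => (z + D) * Real.log (1 + D / z))
        (1 * Real.log (1 + D / z) + (z + D) * -(D / (z * (z + D)))) z := by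
      intro z hz
      exact ((hasDerivAt_id' z).add_const D).mul (hasDerivAt_ll hz hD)
    apply antitoneOn_of_deriv_nonpos (convex_Ioi 0)
    · exact fun z hz => (hd z hz).continuousAt.continuousWithinAt
    · intro z hz
      rw [interior_Ioi] at hz
      exact (hd z hz).differentiableAt.differentiableWithinAt
    · intro z hz
      rw [interior_Ioi] at hz
      rw [(hd z hz).deriv]
      have hz0 : (0 : ℝ) < z := hz
      have h := key_le hz0 hD
      have e : 1 * Real.log (1 + D / z) + (z + D) * -(D / (z * (z + D))) =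
          (z * Real.log (1 + D / z) - D) / z := by
        field_simp
        ring
      rw [e]
      apply div_nonpos_of_nonpos_of_nonneg <;> linarith
  exact hm hx (lt_of_lt_of_le hx hxy) hxy

/-- The key inequality in the logarithms. -/
lemma key_log {x y D : ℝ} (hx : 0 < x) (hy : 0 < y) (hD : 0 < D) :
    0 < (y + D) * Real.log (1 + D / y) - x * Real.log (1 + D / x) ∧
    0 < (x + D) * Real.log (1 + D / x) - y * Real.log (1 + D / y) ∧
    x * Real.log (1 + D / x) / ((y + D) * Real.log (1 + D / y) - x * Real.log (1 + D / x)) +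
      y * Real.log (1 + D / y) / ((x + D) * Real.log (1 + D / x) - y * Real.log (1 + D / y)) ≤
      (x + y) / D := by
  have h1 := key_le hx hD
  have h2 := key_ge hx hD
  have h3 := key_le hy hD
  have h4 := key_ge hy hD
  have hUV : 0 ≤ (x * Real.log (1 + D / x) - y * Real.log (1 + D / y)) *
      ((y + D) * Real.log (1 + D / y) - (x + D) * Real.log (1 + D / x)) := by
    rcases le_total x y with h | h
    · have k1 := key_mono hx h hD
      have k2 := key_anti hx h hD
      nlinarith
    · have k1 := key_mono hy h hD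
      have k2 := key_anti hy h hD
      nlinarith
  set la := Real.log (1 + D / x)
  set lb := Real.log (1 + D / y)
  have hA : 0 < (y + D) * lb - x * la := by linarith
  have hB : 0 < (x + D) * la - y * lb := by linarith
  refine ⟨hA, hB, ?_⟩
  have e : (x + y) / D - (x * la / ((y + D) * lb - x * la) + y * lb / ((x + D) * la - y * lb)) =
      (x + y + D) * ((x * la - y * lb) * ((y + D) * lb - (x + D) * la)) /
        (D * ((y + D) * lb - x * la) * ((x + D) * la - y * lb)) := by
    have hA' := hA.ne'
    have hB' := hB.ne'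
    have hD' := hD.ne'
    rw [div_add_div _ _ hA' hB', div_sub_div _ _ hD' (mul_ne_zero hA' hB'),
      div_eq_div_iff (mul_ne_zero hD' (mul_ne_zero hA' hB'))
        (mul_ne_zero (mul_ne_zero hD' hA') hB')]
    ring
  have h5 : 0 ≤ (x + y + D) * ((x * la - y * lb) * ((y + D) * lb - (x + D) * la)) /
        (D * ((y + D) * lb - x * la) * ((x + D) * la - y * lb)) := by
    apply div_nonneg
    · apply mul_nonneg (by positivity) hUV
    · positivity
  linarith

/-- The key inequality with slopes. -/
lemma key_slope {x y D τ αp αm βp βm : ℝ} (hx : 0 < x) (hy : 0 < y) (hD : 0 < D) (hτ : 0 < τ)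
    (h1 : αp ≤ x * Real.log (1 + D / x) / τ) (h2 : (x + D) * Real.log (1 + D / x) / τ ≤ αm)
    (h3 : βm ≤ y * Real.log (1 + D / y) / τ) (h4 : (y + D) * Real.log (1 + D / y) / τ ≤ βp)
    (h5 : 0 ≤ αp) (h6 : 0 ≤ βm) :
    0 < βp - αp ∧ 0 < αm - βm ∧ αp / (βp - αp) + βm / (αm - βm) ≤ (x + y) / D := by
  obtain ⟨hA, hB, hk⟩ := key_log hx hy hD
  set la := Real.log (1 + D / x)
  set lb := Real.log (1 + D / y)
  have k1 : ((y + D) * lb - x * la) / τ ≤ βp - αp := by
    have e : ((y + D) * lb - x * la) / τ = (y + D) * lb / τ - x * la / τ := by ring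
    linarith
  have k2 : ((x + D) * la - y * lb) / τ ≤ αm - βm := by
    have e : ((x + D) * la - y * lb) / τ = (x + D) * la / τ - y * lb / τ := by ring
    linarith
  have k3 : 0 < ((y + D) * lb - x * la) / τ := by positivity
  have k4 : 0 < ((x + D) * la - y * lb) / τ := by positivity
  have k5 : αp / (βp - αp) ≤ x * la / ((y + D) * lb - x * la) := by
    have e : x * la / ((y + D) * lb - x * la) = (x * la / τ) / (((y + D) * lb - x * la) / τ) := by
      field_simp
    rw [e]
    exact div_le_div₀ (h5.trans h1) h1 k3 k1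
  have k6 : βm / (αm - βm) ≤ y * lb / ((x + D) * la - y * lb) := by
    have e : y * lb / ((x + D) * la - y * lb) = (y * lb / τ) / (((x + D) * la - y * lb) / τ) := by
      field_simp
    rw [e]
    exact div_le_div₀ (h6.trans h3) h3 k4 k2
  exact ⟨lt_of_lt_of_le k3 k1, lt_of_lt_of_le k4 k2, by linarith⟩

end Pool.Agent.MP_fe2d2a_anR
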