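import Mathlib
import Pool.Agent.Lib.MP_fe2d2a_anR.Branch
import Pool.Agent.Lib.MP_fe2d2a_anR.Key

/-!
The pairing of the two branches of `S = a + b`, `a` decreasing and `b` increasing, both
log-convex.
-/

set_option autoImplicit false

open Set Filter Topology

namespace Pool.Agent.MP_fe2d2a_anR

/-- A decreasing and an increasing log-convex function. -/
structure LC (a b a' b' : ℝ → ℝ) : Prop where
  ha : ∀ t, HasDerivAt a (a' t) t
  hb : ∀ t, HasDerivAt b (b' t) t
  ha0 : ∀ t, 0 < a t
  hb0 : ∀ t, 0 < b t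
  ha1 : ∀ t, a' t < 0
  hb1 : ∀ t, 0 < b' t
  hla : ∀ s t, Real.log (a t) + (s - t) * (a' t / a t) ≤ Real.log (a s)
  hlb : ∀ s t, Real.log (b t) + (s - t) * (b' t / b t) ≤ Real.log (b s)
  hmono : StrictMono (fun t => a' t + b' t)
  hatop : Tendsto a atTop (𝓝 0)
  habot : Tendsto a atBot atTop
  hbtop : Tendsto b atTop atTop
  hbbot : Tendsto b atBot (𝓝 0)

variable {a b a' b' : ℝ → ℝ}

lemma LC.hS (h : LC a b a' b') (t : ℝ) : HasDerivAt (fun t => a t + b t) (a' t + b' t) t :=
  (h.ha t).add (h.hb t)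

lemma LC.top (h : LC a b a' b') : Tendsto (fun t => a t + b t) atTop atTop :=
  tendsto_atTop_mono (fun t => by linarith [h.ha0 t]) h.hbtop

lemma LC.bot (h : LC a b a' b') : Tendsto (fun t => a t + b t) atBot atTop :=
  tendsto_atTop_mono (fun t => by linarith [h.hb0 t]) h.habot

lemma LC.exists_min (h : LC a b a' b') : ∃ c, (∀ t, a c + b c ≤ a t + b t) ∧
    (∀ t, c < t → 0 < a' t + b' t) ∧ (∀ t, t < c → a' t + b' t < 0) := by
  have hcont : Continuous (fun t => a t + b t) :=
    continuous_iff_continuousAt.2 fun t => (h.hS t).continuousAt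
  obtain ⟨c, hc⟩ := hcont.exists_forall_le' 0 (by
    rw [cocompact_eq_atBot_atTop, eventually_sup]
    exact ⟨h.bot.eventually_ge_atTop _, h.top.eventually_ge_atTop _⟩)
  have h0 : a' c + b' c = 0 := by
    apply IsLocalMin.hasDerivAt_eq_zero _ (h.hS c)
    exact Eventually.of_forall hc
  refine ⟨c, hc, ?_, ?_⟩
  · intro t ht
    have := h.hmono ht
    simp only at this
    linarith
  · intro t ht
    have := h.hmono ht
    simp only at this
    linarith

/-- The data of the pairing. -/
structure Paired (a b a' b' : ℝ → ℝ) (c : ℝ) (p m : ℝ → ℝ) : Prop where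
  hmin : ∀ t, a c + b c ≤ a t + b t
  hpc : ContinuousOn p (Ici (a c + b c))
  hmc : ContinuousOn m (Ici (a c + b c))
  hp0 : p (a c + b c) = c
  hm0 : m (a c + b c) = c
  hps : ∀ s, a c + b c ≤ s → c ≤ p s ∧ a (p s) + b (p s) = s
  hms : ∀ s, a c + b c ≤ s → m s ≤ c ∧ a (m s) + b (m s) = s
  hpd : ∀ s, a c + b c < s → c < p s ∧ HasDerivAt p (a' (p s) + b' (p s))⁻¹ s
  hmd : ∀ s, a c + b c < s → m s < c ∧ HasDerivAt m (a' (m s) + b' (m s))⁻¹ s
  hptop : Tendsto p atTop atTop
  hmbot : Tendsto m atTop atBot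
  hSp : StrictMonoOn (fun t => a t + b t) (Ici c)
  hSm : StrictAntiOn (fun t => a t + b t) (Iic c)

lemma LC.exists_pair (h : LC a b a' b') : ∃ c p m, Paired a b a' b' c p m := by
  obtain ⟨c, h1, h2, h3⟩ := h.exists_min
  obtain ⟨p, p1, p2, p3, p4, p5, p6⟩ := right_branch h.hS h2 h.top
  obtain ⟨m, m1, m2, m3, m4, m5, m6⟩ := left_branch h.hS h3 h.bot
  exact ⟨c, p, m, h1, p1, m1, p2, m2, p3, m3, p4, m4, p5, m5, p6, m6⟩

variable {c : ℝ} {p m : ℝ → ℝ}

/-- The difference. -/
lemma Paired.diff_eq (P : Paired a b a' b' c p m) {s : ℝ} (hs : a c + b c ≤ s) :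
    a (m s) - a (p s) = b (p s) - b (m s) := by
  have h1 := (P.hps s hs).2
  have h2 := (P.hms s hs).2
  linarith

lemma Paired.diff_nonneg (h : LC a b a' b') (P : Paired a b a' b' c p m) {s : ℝ}
    (hs : a c + b c ≤ s) : 0 ≤ b (p s) - b (m s) := by
  have hm : Monotone b := monotone_of_deriv_nonneg (fun t => (h.hb t).differentiableAt)
    (fun t => by rw [(h.hb t).deriv]; exact (h.hb1 t).le)
  have := hm ((P.hms s hs).1.trans (P.hps s hs).1)
  linarith

lemma Paired.diff_pos (h : LC a b a' b') (P : Paired a b a' b' c p m) {s : ℝ}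
    (hs : a c + b c < s) : 0 < b (p s) - b (m s) := by
  have hm : StrictMono b := strictMono_of_deriv_pos
    (fun t => by rw [(h.hb t).deriv]; exact h.hb1 t)
  have := hm ((P.hmd s hs).1.trans (P.hpd s hs).1)
  linarith

/-- The derivative of the difference and the key inequality. -/
lemma Paired.diff_deriv (h : LC a b a' b') (P : Paired a b a' b' c p m) {s : ℝ}
    (hs : a c + b c < s) : ∃ d : ℝ, HasDerivAt (fun s => b (p s) - b (m s)) d s ∧ 0 ≤ d ∧
      (b (p s) - b (m s)) * d ≤ s ∧ 0 < a' (p s) + b' (p s) ∧ a' (m s) + b' (m s) < 0 ∧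
      d = -a' (p s) / (a' (p s) + b' (p s)) + a' (m s) / (a' (m s) + b' (m s)) := by
  have hp := P.hpd s hs
  have hm := P.hmd s hs
  have hps := (P.hps s hs.le).2
  have hms := (P.hms s hs.le).2
  have hD := P.diff_pos h hs
  have hDa := P.diff_eq hs.le
  have hx := h.ha0 (p s)
  have hy := h.hb0 (m s)
  have hτ : 0 < p s - m s := by linarith [hp.1, hm.1]
  have e1 : a (m s) = a (p s) + (b (p s) - b (m s)) := by linarith
  have e2 : b (p s) = b (m s) + (b (p s) - b (m s)) := by ring
  have l1 : Real.log (1 + (b (p s) - b (m s)) / a (p s)) =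
      Real.log (a (m s)) - Real.log (a (p s)) := by
    rw [← Real.log_div (h.ha0 _).ne' hx.ne']
    congr 1
    rw [e1]
    field_simp
  have l2 : Real.log (1 + (b (p s) - b (m s)) / b (m s)) =
      Real.log (b (p s)) - Real.log (b (m s)) := by
    rw [← Real.log_div (h.hb0 _).ne' hy.ne']
    congr 1
    field_simp
    ring
  have t1 := h.hla (m s) (p s)
  have t2 := h.hla (p s) (m s)
  have t3 := h.hlb (p s) (m s)
  have t4 := h.hlb (m s) (p s)
  have k := key_slope (x := a (p s)) (y := b (m s)) (D := b (p s) - b (m s))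
    (τ := p s - m s) (αp := -a' (p s)) (αm := -a' (m s)) (βp := b' (p s)) (βm := b' (m s))
    hx hy hD hτ
    (by
      rw [l1, le_div_iff₀ hτ]
      have e : (m s - p s) * (a' (p s) / a (p s)) * a (p s) = -a' (p s) * (p s - m s) := by
        field_simp
        ring
      have := mul_le_mul_of_nonneg_right t1 hx.le
      nlinarith)
    (by
      rw [l1, div_le_iff₀ hτ, ← e1]
      have hxm := h.ha0 (m s)
      have e : (p s - m s) * (a' (m s) / a (m s)) * a (m s) = a' (m s) * (p s - m s) := by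
        field_simp
      have := mul_le_mul_of_nonneg_right t2 hxm.le
      nlinarith)
    (by
      rw [l2, le_div_iff₀ hτ]
      have e : (p s - m s) * (b' (m s) / b (m s)) * b (m s) = b' (m s) * (p s - m s) := by
        field_simp
      have := mul_le_mul_of_nonneg_right t3 hy.le
      nlinarith)
    (by
      rw [l2, div_le_iff₀ hτ, ← e2]
      have hyp' := h.hb0 (p s)
      have e : (m s - p s) * (b' (p s) / b (p s)) * b (p s) = -b' (p s) * (p s - m s) := by
        field_simp
        ring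
      have := mul_le_mul_of_nonneg_right t4 hyp'.le
      nlinarith)
    (by linarith [h.ha1 (p s)]) (h.hb1 (m s)).le
  obtain ⟨k1, k2, k3⟩ := k
  have q1 : 0 < a' (p s) + b' (p s) := by linarith
  have q2 : a' (m s) + b' (m s) < 0 := by linarith
  have d1 := ((h.hb (p s)).comp s hp.2).sub ((h.hb (m s)).comp s hm.2)
  have hd : b' (p s) * (a' (p s) + b' (p s))⁻¹ - b' (m s) * (a' (m s) + b' (m s))⁻¹ =
      -a' (p s) / (a' (p s) + b' (p s)) + a' (m s) / (a' (m s) + b' (m s)) := by
    have r1 := q1.ne'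
    have r2 := q2.ne
    have f1 : b' (p s) * (a' (p s) + b' (p s))⁻¹ =
        1 - a' (p s) / (a' (p s) + b' (p s)) := by
      field_simp
      ring
    have f2 : b' (m s) * (a' (m s) + b' (m s))⁻¹ =
        1 - a' (m s) / (a' (m s) + b' (m s)) := by
      field_simp
      ring
    rw [f1, f2]
    ring
  have hd2 : -a' (p s) / (a' (p s) + b' (p s)) + a' (m s) / (a' (m s) + b' (m s)) =
      1 + (-a' (p s) / (b' (p s) - -a' (p s)) + b' (m s) / (-a' (m s) - b' (m s))) := by
    have g1 : b' (p s) - -a' (p s) = a' (p s) + b' (p s) := by ring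
    have g2 : -a' (m s) - b' (m s) = -(a' (m s) + b' (m s)) := by ring
    rw [g1, g2]
    have r2 := q2.ne
    have f2 : a' (m s) / (a' (m s) + b' (m s)) =
        1 + b' (m s) / -(a' (m s) + b' (m s)) := by
      field_simp
      ring
    rw [f2]
    ring
  refine ⟨_, d1.congr_deriv hd, ?_, ?_, q1, q2, rfl⟩
  · apply add_nonneg
    · apply div_nonneg _ q1.le
      linarith [h.ha1 (p s)]
    · exact div_nonneg_of_nonpos (h.ha1 (m s)).le q2.le
  · rw [hd2]
    have h5 : 1 + (-a' (p s) / (b' (p s) - -a' (p s)) + b' (m s) / (-a' (m s) - b' (m s))) ≤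
        1 + (a (p s) + b (m s)) / (b (p s) - b (m s)) := by linarith
    have h6 := mul_le_mul_of_nonneg_left h5 hD.le
    refine h6.trans (le_of_eq ?_)
    field_simp
    linarith

end Pool.Agent.MP_fe2d2a_anR
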