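import Mathlib
import Pool.Agent.Lib.MP_fe2d2a_anR.Comp
import Pool.Agent.Lib.MP_fe2d2a_anR.Pair

/-!
The function `T`.
-/

set_option autoImplicit false

open Set Filter Topology

namespace Pool.Agent.MP_fe2d2a_anR

/-- Half the logarithm of the quotient. -/
noncomputable def LL (G S : ℝ) : ℝ := (Real.log (G + S) - Real.log (G - S)) / 2

/-- Half the logarithm of the product. -/
noncomputable def MM (G S : ℝ) : ℝ := (Real.log (G + S) + Real.log (G - S)) / 2

/-- The lower bound for `MM`. -/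
noncomputable def NN (θ s : ℝ) : ℝ :=
  Real.log (max (1 - s ^ 2) ((1 / θ ^ 2 - 1) * s ^ 2)) / 2

/-- The boundary term. -/
noncomputable def XX (θ s : ℝ) : ℝ := -at' (min s θ)

/-- The derivative of `NN`. -/
noncomputable def nu (θ s : ℝ) : ℝ := if s < θ then -(s / (1 - s ^ 2)) else 1 / s

lemma max_pos' {θ s : ℝ} (h0 : 0 < θ) (h1 : θ < 1) (hs : 0 ≤ s) :
    0 < max (1 - s ^ 2) ((1 / θ ^ 2 - 1) * s ^ 2) := by
  have hθ : 0 < 1 / θ ^ 2 - 1 := by
    have : 1 < 1 / θ ^ 2 := by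
      rw [one_lt_div (by positivity)]
      nlinarith
    linarith
  rcases eq_or_lt_of_le hs with h | h
  · rw [← h]
    apply lt_max_of_lt_left
    norm_num
  · apply lt_max_of_lt_right
    positivity

lemma NN_inner {θ s : ℝ} (h0 : 0 < θ) (hs : 0 ≤ s) (hsθ : s ≤ θ) :
    NN θ s = Real.log (1 - s ^ 2) / 2 := by
  unfold NN
  rw [max_eq_left]
  have e : (1 / θ ^ 2 - 1) * s ^ 2 = s ^ 2 / θ ^ 2 - s ^ 2 := by ring
  rw [e]
  have : s ^ 2 / θ ^ 2 ≤ 1 := by
    rw [div_le_one (by positivity)]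
    nlinarith
  linarith

lemma NN_outer {θ s : ℝ} (h0 : 0 < θ) (hsθ : θ ≤ s) :
    NN θ s = Real.log ((1 / θ ^ 2 - 1) * s ^ 2) / 2 := by
  unfold NN
  rw [max_eq_right]
  have e : (1 / θ ^ 2 - 1) * s ^ 2 = s ^ 2 / θ ^ 2 - s ^ 2 := by ring
  rw [e]
  have : 1 ≤ s ^ 2 / θ ^ 2 := by
    rw [one_le_div (by positivity)]
    nlinarith
  linarith

lemma NN_hasDerivAt {θ s : ℝ} (h0 : 0 < θ) (h1 : θ < 1) (hs : 0 < s) (hsθ : s ≠ θ) :
    HasDerivAt (NN θ) (nu θ s) s := by
  unfold nu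
  split_ifs with h
  · have k : 0 < 1 - s ^ 2 := by nlinarith
    have d1 : HasDerivAt (fun y : ℝ => 1 - y ^ 2) (-(2 * s)) s := by
      have h := (hasDerivAt_pow 2 s).const_sub 1
      refine HasDerivAt.congr_deriv h ?_
      push_cast
      ring
    have d2 := (d1.log k.ne').div_const 2
    refine (d2.congr_deriv (by ring)).congr_of_eventuallyEq ?_
    filter_upwards [Ioo_mem_nhds hs h] with y hy
    exact NN_inner h0 hy.1.le hy.2.le
  · have h' : θ < s := lt_of_le_of_ne (not_lt.1 h) (Ne.symm hsθ)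
    have hθ : 0 < 1 / θ ^ 2 - 1 := by
      have : 1 < 1 / θ ^ 2 := by
        rw [one_lt_div (by positivity)]
        nlinarith
      linarith
    have k : 0 < (1 / θ ^ 2 - 1) * s ^ 2 := by positivity
    have d1 : HasDerivAt (fun y : ℝ => (1 / θ ^ 2 - 1) * y ^ 2) ((1 / θ ^ 2 - 1) * (2 * s)) s := by
      have h := (hasDerivAt_pow 2 s).const_mul (1 / θ ^ 2 - 1)
      refine HasDerivAt.congr_deriv h ?_
      push_cast
      ring
    have d2 := (d1.log k.ne').div_const 2
    refine (d2.congr_deriv ?_).congr_of_eventuallyEq ?_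
    · have hθ' := hθ.ne'
      rw [mul_div_mul_left _ _ hθ']
      field_simp
    · filter_upwards [lt_mem_nhds h'] with y hy
      exact NN_outer h0 hy.le

lemma XX_hasDerivAt {θ s : ℝ} (h1 : θ < 1) (hs : 0 < s) (hsθ : s ≠ θ) :
    HasDerivAt (XX θ) (s * nu θ s - 1) s := by
  unfold nu
  split_ifs with h
  · have k : 0 < 1 - s ^ 2 := by nlinarith
    have d2 := (at_hasDerivAt (x := s) (by linarith) (by linarith)).neg
    refine (d2.congr_deriv ?_).congr_of_eventuallyEq ?_
    · field_simp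
      ring
    · filter_upwards [Iio_mem_nhds h] with y hy
      unfold XX
      rw [min_eq_left (le_of_lt hy)]
      rfl
  · have h' : θ < s := lt_of_le_of_ne (not_lt.1 h) (Ne.symm hsθ)
    have d2 := hasDerivAt_const s (-at' θ)
    refine (d2.congr_deriv ?_).congr_of_eventuallyEq ?_
    · field_simp
      ring
    · filter_upwards [lt_mem_nhds h'] with y hy
      unfold XX
      rw [min_eq_right hy.le]

lemma NN_continuousOn {θ : ℝ} (h0 : 0 < θ) (h1 : θ < 1) : ContinuousOn (NN θ) (Ici 0) := by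
  unfold NN
  apply ContinuousOn.div_const
  apply ContinuousOn.log
  · fun_prop
  · intro s hs
    exact (max_pos' h0 h1 hs).ne'

lemma XX_continuousOn {θ : ℝ} (h0 : 0 < θ) (h1 : θ < 1) : ContinuousOn (XX θ) (Ici 0) := by
  unfold XX
  apply ContinuousOn.neg
  have hat : ContinuousOn at' (Ioo (-1) 1) := fun x hx =>
    (at_hasDerivAt hx.1 hx.2).continuousAt.continuousWithinAt
  apply hat.comp (by fun_prop)
  intro s hs
  rw [mem_Ici] at hs
  constructor
  · have : 0 ≤ min s θ := le_min hs h0.le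
    linarith
  · exact lt_of_le_of_lt (min_le_right _ _) h1

lemma NN_le_MM {θ G S : ℝ} (h0 : 0 < θ) (h1 : θ < 1) (hS : 0 ≤ S) (hG : 1 ≤ G)
    (hSG : S ≤ θ * G) : NN θ S ≤ MM G S := by
  have hlt : S < G := by nlinarith
  unfold NN MM
  rw [← Real.log_mul (by linarith) (by linarith)]
  have k := max_pos' h0 h1 hS
  have : Real.log (max (1 - S ^ 2) ((1 / θ ^ 2 - 1) * S ^ 2)) ≤
      Real.log ((G + S) * (G - S)) := by
    apply Real.log_le_log k
    apply max_le
    · nlinarith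
    · have e : (1 / θ ^ 2 - 1) * S ^ 2 = (S / θ) ^ 2 - S ^ 2 := by
        field_simp
      rw [e]
      have h2 : S / θ ≤ G := by
        rw [div_le_iff₀ h0]
        linarith
      have h3 : 0 ≤ S / θ := by positivity
      nlinarith
  linarith

/-- The hypotheses on the even part. -/
structure GP (Ga Gb a b Ga' Gb' a' b' Q : ℝ → ℝ) (θ tst : ℝ) : Prop where
  lc : LC a b a' b'
  h0 : 0 < θ
  h1 : θ < 1
  hGa : ∀ t, HasDerivAt Ga (Ga' t) t
  hGb : ∀ t, HasDerivAt Gb (Gb' t) t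
  hGa1 : ∀ t, Ga' t < 0
  hGb1 : ∀ t, 0 < Gb' t
  hmin : ∀ t, 1 ≤ Ga t + Gb t
  hst : Ga tst + Gb tst = 1
  hSG : ∀ t, a t + b t ≤ θ * (Ga t + Gb t)
  hQ : ∀ t, HasDerivAt Q
    (Ga t * (((Ga' t + Gb' t + (a' t + b' t)) / (Ga t + Gb t + (a t + b t)) -
        (Ga' t + Gb' t - (a' t + b' t)) / (Ga t + Gb t - (a t + b t))) / 2) +
      a t * (((Ga' t + Gb' t + (a' t + b' t)) / (Ga t + Gb t + (a t + b t)) +
        (Ga' t + Gb' t - (a' t + b' t)) / (Ga t + Gb t - (a t + b t))) / 2) - a' t) t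

variable {Ga Gb a b Ga' Gb' a' b' Q : ℝ → ℝ} {θ tst : ℝ}

/-- The left piece. -/
noncomputable def Tl (Ga Gb a b Q : ℝ → ℝ) (θ : ℝ) (t : ℝ) : ℝ :=
  Q t + (Gb t * LL (Ga t + Gb t) (a t + b t) +
    b t * (MM (Ga t + Gb t) (a t + b t) - NN θ (a t + b t))) + XX θ (a t + b t)

/-- The right piece. -/
noncomputable def Tr (Ga Gb a b Q : ℝ → ℝ) (θ : ℝ) (t : ℝ) : ℝ :=
  Q t - (Ga t * LL (Ga t + Gb t) (a t + b t) +
    a t * (MM (Ga t + Gb t) (a t + b t) - NN θ (a t + b t)))

/-- The function `T`. -/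
noncomputable def TT (Ga Gb a b Q : ℝ → ℝ) (θ tst : ℝ) (t : ℝ) : ℝ :=
  if t ≤ tst then Tl Ga Gb a b Q θ t else Tr Ga Gb a b Q θ t

lemma GP.pos (h : GP Ga Gb a b Ga' Gb' a' b' Q θ tst) (t : ℝ) :
    0 < a t + b t ∧ 0 < Ga t + Gb t ∧ a t + b t < Ga t + Gb t := by
  have h2 := h.lc.ha0 t
  have h3 := h.lc.hb0 t
  have h4 := h.hmin t
  have h5 := h.hSG t
  have h6 := h.h1
  refine ⟨by linarith, by linarith, ?_⟩
  nlinarith

lemma GP.cont (h : GP Ga Gb a b Ga' Gb' a' b' Q θ tst) :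
    Continuous Ga ∧ Continuous Gb ∧ Continuous a ∧ Continuous b ∧ Continuous Q :=
  ⟨continuous_iff_continuousAt.2 fun t => (h.hGa t).continuousAt,
    continuous_iff_continuousAt.2 fun t => (h.hGb t).continuousAt,
    continuous_iff_continuousAt.2 fun t => (h.lc.ha t).continuousAt,
    continuous_iff_continuousAt.2 fun t => (h.lc.hb t).continuousAt,
    continuous_iff_continuousAt.2 fun t => (h.hQ t).continuousAt⟩

lemma GP.cont_LM (h : GP Ga Gb a b Ga' Gb' a' b' Q θ tst) :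
    Continuous (fun t => LL (Ga t + Gb t) (a t + b t)) ∧
    Continuous (fun t => MM (Ga t + Gb t) (a t + b t)) ∧
    Continuous (fun t => NN θ (a t + b t)) ∧ Continuous (fun t => XX θ (a t + b t)) := by
  obtain ⟨c1, c2, c3, c4, _⟩ := h.cont
  have l1 : Continuous (fun t => Real.log (Ga t + Gb t + (a t + b t))) := by
    apply Continuous.log (by fun_prop)
    intro t
    have := h.pos t
    have : 0 < Ga t + Gb t + (a t + b t) := by linarith
    exact this.ne'
  have l2 : Continuous (fun t => Real.log (Ga t + Gb t - (a t + b t))) := by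
    apply Continuous.log (by fun_prop)
    intro t
    have := h.pos t
    have : 0 < Ga t + Gb t - (a t + b t) := by linarith
    exact this.ne'
  refine ⟨(l1.sub l2).div_const 2, (l1.add l2).div_const 2, ?_, ?_⟩
  · exact (NN_continuousOn h.h0 h.h1).comp_continuous (by fun_prop) (fun t => (h.pos t).1.le)
  · exact (XX_continuousOn h.h0 h.h1).comp_continuous (by fun_prop) (fun t => (h.pos t).1.le)

lemma GP.match (h : GP Ga Gb a b Ga' Gb' a' b' Q θ tst) :
    Tl Ga Gb a b Q θ tst = Tr Ga Gb a b Q θ tst := by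
  unfold Tl Tr
  have hs := h.hst
  have hS := (h.pos tst).1
  have hSθ : a tst + b tst ≤ θ := by
    have := h.hSG tst
    rw [hs, mul_one] at this
    exact this
  have h1 := h.h1
  set S := a tst + b tst with hSdef
  have e1 : LL (Ga tst + Gb tst) S = at' S := by
    rw [hs]
    rfl
  have e2 : MM (Ga tst + Gb tst) S = NN θ S := by
    rw [hs, NN_inner h.h0 hS.le hSθ]
    unfold MM
    rw [← Real.log_mul (by linarith) (by linarith)]
    congr 2
    ring
  have e3 : XX θ S = -at' S := by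
    unfold XX
    rw [min_eq_left hSθ]
  rw [e1, e2, e3]
  have e4 : Gb tst = 1 - Ga tst := by linarith
  rw [e4]
  ring

lemma GP.cont_T (h : GP Ga Gb a b Ga' Gb' a' b' Q θ tst) :
    Continuous (TT Ga Gb a b Q θ tst) := by
  obtain ⟨c1, c2, c3, c4, c5⟩ := h.cont
  obtain ⟨c6, c7, c8, c9⟩ := h.cont_LM
  unfold TT
  apply Continuous.if_le _ _ continuous_id continuous_const
  · intro t ht
    rw [id] at ht
    rw [ht]
    exact h.match
  · unfold Tl
    exact (c5.add ((c2.mul c6).add (c4.mul (c7.sub c8)))).add c9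
  · unfold Tr
    exact c5.sub ((c1.mul c6).add (c3.mul (c7.sub c8)))

/-- The lower bound for the derivative. -/
noncomputable def zeta (a b a' b' : ℝ → ℝ) (θ t : ℝ) : ℝ :=
  a t * (nu θ (a t + b t) * (a' t + b' t)) - a' t

lemma GP.deriv_T (h : GP Ga Gb a b Ga' Gb' a' b' Q θ tst) {t : ℝ} (ht : t ≠ tst)
    (hθ : a t + b t ≠ θ) : ∃ e, HasDerivAt (TT Ga Gb a b Q θ tst) e t ∧
      zeta a b a' b' θ t < e := by
  obtain ⟨p1, p2, p3⟩ := h.pos t
  have q1 : 0 < Ga t + Gb t + (a t + b t) := by linarith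
  have q2 : 0 < Ga t + Gb t - (a t + b t) := by linarith
  have dG := (h.hGa t).add (h.hGb t)
  have dS := (h.lc.ha t).add (h.lc.hb t)
  have l1 := (dG.add dS).log q1.ne'
  have l2 := (dG.sub dS).log q2.ne'
  have dL := (l1.sub l2).div_const 2
  have dM := (l1.add l2).div_const 2
  have dN := (NN_hasDerivAt h.h0 h.h1 p1 hθ).comp t dS
  have dX := (XX_hasDerivAt h.h1 p1 hθ).comp t dS
  have hL : 0 < LL (Ga t + Gb t) (a t + b t) := by
    unfold LL
    have : Real.log (Ga t + Gb t - (a t + b t)) < Real.log (Ga t + Gb t + (a t + b t)) :=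
      Real.log_lt_log q2 (by linarith)
    linarith
  have hM : NN θ (a t + b t) ≤ MM (Ga t + Gb t) (a t + b t) :=
    NN_le_MM h.h0 h.h1 p1.le (h.hmin t) (h.hSG t)
  have hid : (Ga t + Gb t) * (((Ga' t + Gb' t + (a' t + b' t)) / (Ga t + Gb t + (a t + b t)) -
        (Ga' t + Gb' t - (a' t + b' t)) / (Ga t + Gb t - (a t + b t))) / 2) +
      (a t + b t) * (((Ga' t + Gb' t + (a' t + b' t)) / (Ga t + Gb t + (a t + b t)) +
        (Ga' t + Gb' t - (a' t + b' t)) / (Ga t + Gb t - (a t + b t))) / 2) = a' t + b' t := by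
    have r1 : (Ga' t + Gb' t + (a' t + b' t)) / (Ga t + Gb t + (a t + b t)) *
        (Ga t + Gb t + (a t + b t)) = Ga' t + Gb' t + (a' t + b' t) := by
      field_simp
    have r2 : (Ga' t + Gb' t - (a' t + b' t)) / (Ga t + Gb t - (a t + b t)) *
        (Ga t + Gb t - (a t + b t)) = Ga' t + Gb' t - (a' t + b' t) := by
      field_simp
    linear_combination (1 / 2) * r1 - (1 / 2) * r2
  rcases lt_or_gt_of_ne ht with h2 | h2
  · have d := ((h.hQ t).add (((h.hGb t).mul dL).add ((h.lc.hb t).mul (dM.sub dN)))).add dX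
    refine ⟨_, d.congr_of_eventuallyEq ?_, ?_⟩
    · filter_upwards [Iio_mem_nhds h2] with y hy
      unfold TT
      rw [if_pos (le_of_lt hy)]
      rfl
    · simp only [Pi.add_apply, Pi.sub_apply, Function.comp_apply]
      have k1 : 0 < Gb' t * LL (Ga t + Gb t) (a t + b t) := mul_pos (h.hGb1 t) hL
      have k2 : 0 ≤ b' t * (MM (Ga t + Gb t) (a t + b t) - NN θ (a t + b t)) :=
        mul_nonneg (h.lc.hb1 t).le (by linarith)
      unfold LL at k1
      unfold MM at k2
      unfold zeta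
      linarith
  · have d := (h.hQ t).sub (((h.hGa t).mul dL).add ((h.lc.ha t).mul (dM.sub dN)))
    refine ⟨_, d.congr_of_eventuallyEq ?_, ?_⟩
    · filter_upwards [Ioi_mem_nhds h2] with y hy
      unfold TT
      rw [if_neg (not_le.2 hy)]
      rfl
    · simp only [Pi.add_apply, Pi.sub_apply, Function.comp_apply]
      have k1 : 0 < -Ga' t * LL (Ga t + Gb t) (a t + b t) :=
        mul_pos (by linarith [h.hGa1 t]) hL
      have k2 : 0 ≤ -a' t * (MM (Ga t + Gb t) (a t + b t) - NN θ (a t + b t)) :=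
        mul_nonneg (by linarith [h.lc.ha1 t]) (by linarith)
      unfold LL at k1
      unfold MM at k2
      unfold zeta
      linarith

end Pool.Agent.MP_fe2d2a_anR
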