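import Mathlib
import Pool.Agent.Lib.MP_fe2d2a_anR.GPart

/-!
The abstract theorem for even indices.
-/

set_option autoImplicit false

open Set Filter Topology

namespace Pool.Agent.MP_fe2d2a_anR

variable {Ga Gb a b Ga' Gb' a' b' Q : ℝ → ℝ} {θ tst : ℝ}

lemma GP.limits (h : GP Ga Gb a b Ga' Gb' a' b' Q θ tst) {Qp Qm : ℝ}
    (hQp : Tendsto Q atTop (𝓝 Qp)) (hQm : Tendsto Q atBot (𝓝 Qm))
    (hr : Tendsto (fun t => Ga t * LL (Ga t + Gb t) (a t + b t) +
      a t * (MM (Ga t + Gb t) (a t + b t) - NN θ (a t + b t))) atTop (𝓝 0))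
    (hl : Tendsto (fun t => Gb t * LL (Ga t + Gb t) (a t + b t) +
      b t * (MM (Ga t + Gb t) (a t + b t) - NN θ (a t + b t))) atBot (𝓝 0)) :
    Tendsto (TT Ga Gb a b Q θ tst) atTop (𝓝 Qp) ∧
    Tendsto (TT Ga Gb a b Q θ tst) atBot (𝓝 (Qm - at' θ)) := by
  constructor
  · have h1 := hQp.sub hr
    rw [sub_zero] at h1
    refine h1.congr' ?_
    filter_upwards [eventually_gt_atTop tst] with t ht
    unfold TT
    rw [if_neg (not_le.2 ht)]
    rfl
  · have h1 := (hQm.add hl).add_const (-at' θ)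
    rw [add_zero, ← sub_eq_add_neg] at h1
    refine h1.congr' ?_
    filter_upwards [eventually_lt_atBot tst, h.lc.bot.eventually_ge_atTop θ] with t ht ht2
    unfold TT
    rw [if_pos ht.le]
    unfold Tl XX
    rw [min_eq_right ht2]

/-- The outer comparison function tends to zero. -/
lemma vf_tendsto (h : LC a b a' b') {c : ℝ} {p m : ℝ → ℝ} (P : Paired a b a' b' c p m) :
    Tendsto (vf (fun s => b (p s) - b (m s))) atTop (𝓝 0) := by
  have h1 : Tendsto (fun s => Real.pi / 2 * (2 * (a (p s) + b (m s)))) atTop (𝓝 0) := by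
    have := (((h.hatop.comp P.hptop).add (h.hbbot.comp P.hmbot)).const_mul 2).const_mul
      (Real.pi / 2)
    simpa using this
  apply squeeze_zero' _ _ h1
  · filter_upwards [eventually_gt_atTop (0 : ℝ)] with s hs
    unfold vf
    apply mul_nonneg (Real.sqrt_nonneg _)
    apply Real.arcsin_nonneg.2
    positivity
  · filter_upwards [eventually_gt_atTop (0 : ℝ), eventually_ge_atTop (a c + b c)] with s hs hs2
    have hp := (P.hps s hs2).2
    have hm := (P.hms s hs2).2
    have hD := P.diff_nonneg h hs2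
    have ha0 := h.ha0 (p s)
    have hb0 := h.hb0 (m s)
    have ha1 := h.ha0 (m s)
    have hb1 := h.hb0 (p s)
    have hDs : b (p s) - b (m s) ≤ s := by linarith
    have k2 : 0 ≤ s ^ 2 - (b (p s) - b (m s)) ^ 2 := by nlinarith
    unfold vf
    simp only
    set κ := Real.sqrt (s ^ 2 - (b (p s) - b (m s)) ^ 2) with hκ
    have hκκ : κ ^ 2 = s ^ 2 - (b (p s) - b (m s)) ^ 2 := Real.sq_sqrt k2
    have hκ0 : 0 ≤ κ := Real.sqrt_nonneg _
    have hκs : κ ≤ s := by nlinarith [sq_nonneg (b (p s) - b (m s))]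
    have hz0 : 0 ≤ κ / s := by positivity
    have hz1 : κ / s ≤ 1 := (div_le_one hs).2 hκs
    have has : Real.arcsin (κ / s) ≤ Real.pi / 2 * (κ / s) := by
      have h2 := Real.mul_le_sin (Real.arcsin_nonneg.2 hz0) (Real.arcsin_le_pi_div_two (κ / s))
      rw [Real.sin_arcsin (by linarith) hz1] at h2
      have hpi := Real.pi_pos
      have h3 := mul_le_mul_of_nonneg_left h2 (show 0 ≤ Real.pi / 2 by positivity)
      have e : Real.pi / 2 * (2 / Real.pi * Real.arcsin (κ / s)) = Real.arcsin (κ / s) := by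
        field_simp
      rw [e] at h3
      exact h3
    calc κ * Real.arcsin (κ / s) ≤ κ * (Real.pi / 2 * (κ / s)) :=
          mul_le_mul_of_nonneg_left has hκ0
      _ = Real.pi / 2 * (κ ^ 2 / s) := by ring
      _ ≤ Real.pi / 2 * (2 * (a (p s) + b (m s))) := by
          apply mul_le_mul_of_nonneg_left _ (by positivity)
          rw [div_le_iff₀ hs, hκκ]
          nlinarith

/-- The abstract theorem. -/
theorem GP.main (h : GP Ga Gb a b Ga' Gb' a' b' Q θ tst) (hθ : θ * at' θ ≤ 1) {Qp Qm : ℝ}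
    (hQp : Tendsto Q atTop (𝓝 Qp)) (hQm : Tendsto Q atBot (𝓝 Qm))
    (hr : Tendsto (fun t => Ga t * LL (Ga t + Gb t) (a t + b t) +
      a t * (MM (Ga t + Gb t) (a t + b t) - NN θ (a t + b t))) atTop (𝓝 0))
    (hl : Tendsto (fun t => Gb t * LL (Ga t + Gb t) (a t + b t) +
      b t * (MM (Ga t + Gb t) (a t + b t) - NN θ (a t + b t))) atBot (𝓝 0)) :
    Qm < Qp := by
  obtain ⟨hT1, hT2⟩ := h.limits hQp hQm hr hl
  obtain ⟨c, p, m, P⟩ := h.lc.exists_pair
  have h0 := h.h0
  have h1 := h.h1
  set T := TT Ga Gb a b Q θ tst with hT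
  set σ := a c + b c with hσ
  set D : ℝ → ℝ := fun s => b (p s) - b (m s) with hD
  have hσ0 : 0 < σ := add_pos (h.lc.ha0 c) (h.lc.hb0 c)
  have hσθ : σ ≤ θ := by
    have k1 := P.hmin tst
    have k2 := h.hSG tst
    rw [h.hst, mul_one] at k2
    exact k1.trans k2
  have hTc : Continuous T := h.cont_T
  have hcTT : ContinuousOn (fun s => T (p s) - T (m s)) (Ici σ) :=
    (hTc.comp_continuousOn P.hpc).sub (hTc.comp_continuousOn P.hmc)
  have hbc : Continuous b := (h.cont).2.2.2.1
  have hcD : ContinuousOn D (Ici σ) :=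
    (hbc.comp_continuousOn P.hpc).sub (hbc.comp_continuousOn P.hmc)
  have hDnn : ∀ s, σ ≤ s → 0 ≤ D s := fun s hs => P.diff_nonneg h.lc hs
  have hDlt : ∀ s, σ ≤ s → D s < s := by
    intro s hs
    have e := (P.hps s hs).2
    have k1 := h.lc.ha0 (p s)
    have k2 := h.lc.hb0 (m s)
    simp only [hD]
    linarith
  -- the derivative of `T (p s) - T (m s)`
  have hder : ∀ s, σ < s → s ≠ a tst + b tst → s ≠ θ → ∃ e d, HasDerivAt
      (fun s => T (p s) - T (m s)) e s ∧ HasDerivAt D d s ∧ 0 ≤ d ∧ D s * d ≤ s ∧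
      d - nu θ s * D s < e := by
    intro s hs hs1 hs2
    obtain ⟨d, hd1, hd2, hd3, hd4, hd5, hd6⟩ := P.diff_deriv h.lc hs
    have hps := (P.hps s hs.le).2
    have hms := (P.hms s hs.le).2
    have np : p s ≠ tst := by
      intro h2
      rw [h2] at hps
      exact hs1 hps.symm
    have nm : m s ≠ tst := by
      intro h2
      rw [h2] at hms
      exact hs1 hms.symm
    obtain ⟨ep, hp1, hp2⟩ := h.deriv_T np (by rw [hps]; exact hs2)
    obtain ⟨em, hm1, hm2⟩ := h.deriv_T nm (by rw [hms]; exact hs2)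
    have dp := hp1.comp s (P.hpd s hs).2
    have dm := hm1.comp s (P.hmd s hs).2
    refine ⟨_, d, dp.sub dm, hd1, hd2, hd3, ?_⟩
    unfold zeta at hp2 hm2
    rw [hps] at hp2
    rw [hms] at hm2
    have k1 : (a (p s) * (nu θ s * (a' (p s) + b' (p s))) - a' (p s)) *
        (a' (p s) + b' (p s))⁻¹ < ep * (a' (p s) + b' (p s))⁻¹ :=
      mul_lt_mul_of_pos_right hp2 (inv_pos.2 hd4)
    have k2 : em * (a' (m s) + b' (m s))⁻¹ <
        (a (m s) * (nu θ s * (a' (m s) + b' (m s))) - a' (m s)) *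
        (a' (m s) + b' (m s))⁻¹ :=
      mul_lt_mul_of_neg_right hm2 (inv_lt_zero.2 hd5)
    have e1 : (a (p s) * (nu θ s * (a' (p s) + b' (p s))) - a' (p s)) *
        (a' (p s) + b' (p s))⁻¹ = a (p s) * nu θ s - a' (p s) / (a' (p s) + b' (p s)) := by
      have := hd4.ne'
      field_simp
    have e2 : (a (m s) * (nu θ s * (a' (m s) + b' (m s))) - a' (m s)) *
        (a' (m s) + b' (m s))⁻¹ = a (m s) * nu θ s - a' (m s) / (a' (m s) + b' (m s)) := by
      have := hd5.ne
      field_simp
    have e3 := P.diff_eq hs.le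
    rw [e1] at k1
    rw [e2] at k2
    have e4 : nu θ s * D s = a (m s) * nu θ s - a (p s) * nu θ s := by
      simp only [hD]
      rw [← e3]
      ring
    rw [e4, hd6, neg_div]
    linarith
  -- inner part
  have hin : uf D θ ≤ T (p θ) - T (m θ) := by
    have hcu : ContinuousOn (uf D) (Icc σ θ) := by
      have hcD' : ContinuousOn D (Icc σ θ) := hcD.mono Icc_subset_Ici_self
      have hq : ContinuousOn (fun s => Real.sqrt (1 - s ^ 2 + D s ^ 2)) (Icc σ θ) := by
        apply Real.continuous_sqrt.comp_continuousOn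
        fun_prop
      have hqpos : ∀ s ∈ Icc σ θ, 0 < Real.sqrt (1 - s ^ 2 + D s ^ 2) := by
        intro s hs
        apply Real.sqrt_pos.2
        have : s ^ 2 < 1 := by nlinarith [hs.1, hs.2]
        nlinarith [sq_nonneg (D s)]
      unfold uf
      apply hq.mul
      have hat : ContinuousOn at' (Ioo (-1) 1) := fun x hx =>
        (at_hasDerivAt hx.1 hx.2).continuousAt.continuousWithinAt
      apply hat.comp (hcD'.div hq (fun s hs => (hqpos s hs).ne'))
      intro s hs
      have k1 := hDnn s hs.1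
      have k2 := hqpos s hs
      show D s / Real.sqrt (1 - s ^ 2 + D s ^ 2) ∈ Ioo (-1 : ℝ) 1
      constructor
      · have : 0 ≤ D s / Real.sqrt (1 - s ^ 2 + D s ^ 2) := by positivity
        linarith
      · rw [div_lt_one k2]
        apply Real.lt_sqrt_of_sq_lt
        nlinarith [hs.1, hs.2]
    have hmn := mono_except (f := fun s => (T (p s) - T (m s)) - uf D s) (c := a tst + b tst)
      hσθ ((hcTT.mono Icc_subset_Ici_self).sub hcu) (by
        intro s hs hs1
        obtain ⟨e, d, g1, g2, g3, g4, g5⟩ := hder s hs.1 hs1 hs.2.ne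
        obtain ⟨e2, u1, u2⟩ := uf_hasDerivAt (D := D) (s := s) (d := d) (by linarith [hs.1])
          (by linarith [hs.2]) (hDnn s hs.1.le) g2 g4
        refine ⟨e - e2, ?_, g1.sub u1⟩
        have : nu θ s = -(s / (1 - s ^ 2)) := by
          unfold nu
          rw [if_pos hs.2]
        rw [this] at g5
        linarith)
    have z1 : D σ = 0 := by
      simp only [hD]
      rw [P.hp0, P.hm0, sub_self]
    have z2 : uf D σ = 0 := by
      unfold uf
      rw [z1, zero_div, at_zero, mul_zero]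
    rw [z2, P.hp0, P.hm0] at hmn
    linarith
  -- outer part
  have hcv : ContinuousOn (vf D) (Ici σ) := by
    have hq : ContinuousOn (fun s => Real.sqrt (s ^ 2 - D s ^ 2)) (Ici σ) := by
      apply Real.continuous_sqrt.comp_continuousOn
      fun_prop
    unfold vf
    apply hq.mul
    apply Real.continuous_arcsin.comp_continuousOn
    apply hq.div continuousOn_id
    intro s hs
    rw [mem_Ici] at hs
    have : 0 < s := by linarith
    exact this.ne'
  set F : ℝ → ℝ := fun s => (T (p s) - T (m s)) + vf D s with hF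
  have hFm : StrictMonoOn F (Ici θ) := by
    apply strictMonoOn_of_deriv_pos (convex_Ici θ)
    · exact (hcTT.add hcv).mono (Ici_subset_Ici.2 hσθ)
    · intro s hs
      rw [interior_Ici] at hs
      have hs' : θ < s := hs
      have hs1 : s ≠ a tst + b tst := by
        intro h2
        have k2 := h.hSG tst
        rw [h.hst, mul_one] at k2
        linarith
      have hσs : σ < s := lt_of_le_of_lt hσθ hs'
      obtain ⟨e, d, g1, g2, g3, g4, g5⟩ := hder s hσs hs1 hs'.ne'
      obtain ⟨e2, u1, u2⟩ := vf_hasDerivAt (D := D) (s := s) (d := d) (by linarith)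
        (P.diff_pos h.lc hσs) (hDlt s hσs.le) g2 g4
      have hd := g1.add u1
      have : deriv F s = e + e2 := hd.deriv
      rw [this]
      have : nu θ s = 1 / s := by
        unfold nu
        rw [if_neg (not_lt.2 hs'.le)]
      rw [this] at g5
      linarith
  have hFlim : Tendsto F atTop (𝓝 (Qp - (Qm - at' θ) + 0)) :=
    ((hT1.comp P.hptop).sub (hT2.comp P.hmbot)).add (vf_tendsto h.lc P)
  have hF1 : at' θ ≤ F θ := by
    have k := uf_add_vf (D := D) h0 h1 (hDnn θ hσθ) (hDlt θ hσθ).le hθ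
    simp only [hF]
    linarith
  have hF2 : F θ < F (θ + 1) := hFm (mem_Ici.2 le_rfl) (mem_Ici.2 (by linarith)) (by linarith)
  have hF3 : F (θ + 1) ≤ Qp - (Qm - at' θ) + 0 := by
    apply ge_of_tendsto hFlim
    filter_upwards [eventually_ge_atTop (θ + 1)] with s hs
    exact hFm.monotoneOn (mem_Ici.2 (by linarith)) (mem_Ici.2 (by linarith)) hs
  linarith

end Pool.Agent.MP_fe2d2a_anR
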