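import Mathlib

/-!
Finite sums of exponentials with nonnegative coefficients.
-/

set_option autoImplicit false

open Finset Filter Topology

namespace Pool.Agent.MP_fe2d2a_anR

/-- A sum of exponentials. -/
noncomputable def ES (I : Finset ℕ) (c k : ℕ → ℝ) (t : ℝ) : ℝ :=
  ∑ i ∈ I, c i * Real.exp (k i * t)

/-- Its derivative. -/
noncomputable def ES' (I : Finset ℕ) (c k : ℕ → ℝ) (t : ℝ) : ℝ :=
  ∑ i ∈ I, c i * (k i * Real.exp (k i * t))

variable {I : Finset ℕ} {c k : ℕ → ℝ}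

lemma ES_hasDerivAt (I : Finset ℕ) (c k : ℕ → ℝ) (t : ℝ) :
    HasDerivAt (ES I c k) (ES' I c k t) t := by
  unfold ES ES'
  apply HasDerivAt.fun_sum
  intro i _
  have h1 : HasDerivAt (fun t : ℝ => k i * t) (k i) t := by
    have := (hasDerivAt_id' t).const_mul (k i)
    simpa using this
  exact (h1.exp.const_mul (c i)).congr_deriv (by ring)

lemma ES_nonneg (hc : ∀ i ∈ I, 0 ≤ c i) (t : ℝ) : 0 ≤ ES I c k t :=
  Finset.sum_nonneg fun i hi => mul_nonneg (hc i hi) (Real.exp_pos _).le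

lemma ES_pos (hc : ∀ i ∈ I, 0 ≤ c i) (h : ∃ i ∈ I, 0 < c i) (t : ℝ) : 0 < ES I c k t := by
  obtain ⟨i, hi, h0⟩ := h
  exact Finset.sum_pos' (fun i hi => mul_nonneg (hc i hi) (Real.exp_pos _).le)
    ⟨i, hi, mul_pos h0 (Real.exp_pos _)⟩

lemma ES'_neg (hc : ∀ i ∈ I, 0 ≤ c i) (hk : ∀ i ∈ I, k i ≤ 0)
    (h : ∃ i ∈ I, 0 < c i ∧ k i < 0) (t : ℝ) : ES' I c k t < 0 := by
  obtain ⟨i, hi, h0, h1⟩ := h
  unfold ES'
  apply Finset.sum_neg'
  · intro i hi
    exact mul_nonpos_of_nonneg_of_nonpos (hc i hi)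
      (mul_nonpos_of_nonpos_of_nonneg (hk i hi) (Real.exp_pos _).le)
  · exact ⟨i, hi, mul_neg_of_pos_of_neg h0 (mul_neg_of_neg_of_pos h1 (Real.exp_pos _))⟩

lemma ES'_pos (hc : ∀ i ∈ I, 0 ≤ c i) (hk : ∀ i ∈ I, 0 ≤ k i)
    (h : ∃ i ∈ I, 0 < c i ∧ 0 < k i) (t : ℝ) : 0 < ES' I c k t := by
  obtain ⟨i, hi, h0, h1⟩ := h
  unfold ES'
  apply Finset.sum_pos'
  · intro i hi
    exact mul_nonneg (hc i hi) (mul_nonneg (hk i hi) (Real.exp_pos _).le)
  · exact ⟨i, hi, mul_pos h0 (mul_pos h1 (Real.exp_pos _))⟩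

/-- The terms of the derivative are nondecreasing. -/
lemma term_mono (k : ℝ) {s t : ℝ} (h : s ≤ t) : k * Real.exp (k * s) ≤ k * Real.exp (k * t) := by
  rcases le_total 0 k with hk | hk
  · apply mul_le_mul_of_nonneg_left _ hk
    apply Real.exp_le_exp.2
    exact mul_le_mul_of_nonneg_left h hk
  · apply mul_le_mul_of_nonpos_left _ hk
    apply Real.exp_le_exp.2
    exact mul_le_mul_of_nonpos_left h hk

lemma term_strictMono {k : ℝ} (hk : k ≠ 0) {s t : ℝ} (h : s < t) :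
    k * Real.exp (k * s) < k * Real.exp (k * t) := by
  rcases lt_or_gt_of_ne hk with hk | hk
  · apply mul_lt_mul_of_neg_left _ hk
    apply Real.exp_lt_exp.2
    exact mul_lt_mul_of_neg_left h hk
  · apply mul_lt_mul_of_pos_left _ hk
    apply Real.exp_lt_exp.2
    exact mul_lt_mul_of_pos_left h hk

lemma ES'_strictMono (hc : ∀ i ∈ I, 0 ≤ c i) (h : ∃ i ∈ I, 0 < c i ∧ k i ≠ 0) :
    StrictMono (ES' I c k) := by
  intro s t hst
  obtain ⟨i, hi, h0, h1⟩ := h
  unfold ES'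
  apply Finset.sum_lt_sum
  · intro i hi
    exact mul_le_mul_of_nonneg_left (term_mono (k i) hst.le) (hc i hi)
  · exact ⟨i, hi, mul_lt_mul_of_pos_left (term_strictMono h1 hst) h0⟩

/-- Log-convexity: the tangent inequality. -/
lemma ES_log (hc : ∀ i ∈ I, 0 ≤ c i) (h : ∃ i ∈ I, 0 < c i) (s t : ℝ) :
    Real.log (ES I c k t) + (s - t) * (ES' I c k t / ES I c k t) ≤ Real.log (ES I c k s) := by
  have ht := ES_pos (k := k) hc h t
  have hs := ES_pos (k := k) hc h s
  set y := (s - t) * (ES' I c k t / ES I c k t) with hy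
  have key : Real.exp y * ES I c k t ≤ ES I c k s := by
    have h1 : ∀ i ∈ I, Real.exp y * (c i * Real.exp (k i * t) * (1 + (k i * (s - t) - y))) ≤
        c i * Real.exp (k i * s) := by
      intro i hi
      have e : Real.exp (k i * s) = Real.exp (k i * t) * (Real.exp y *
          Real.exp (k i * (s - t) - y)) := by
        rw [← Real.exp_add, ← Real.exp_add]
        congr 1
        ring
      rw [e]
      have h2 : 1 + (k i * (s - t) - y) ≤ Real.exp (k i * (s - t) - y) := by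
        have := Real.add_one_le_exp (k i * (s - t) - y)
        linarith
      have h3 : 0 ≤ c i * Real.exp (k i * t) * Real.exp y :=
        mul_nonneg (mul_nonneg (hc i hi) (Real.exp_pos _).le) (Real.exp_pos _).le
      nlinarith [mul_le_mul_of_nonneg_left h2 h3]
    have h2 := Finset.sum_le_sum h1
    have e : ∑ i ∈ I, Real.exp y * (c i * Real.exp (k i * t) * (1 + (k i * (s - t) - y))) =
        Real.exp y * (ES I c k t * (1 - y) + (s - t) * ES' I c k t) := by
      unfold ES ES'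
      rw [← Finset.mul_sum, Finset.sum_mul, Finset.mul_sum (a := s - t),
        ← Finset.sum_add_distrib]
      congr 1
      apply Finset.sum_congr rfl
      intro i _
      ring
    rw [e] at h2
    have e2 : (s - t) * ES' I c k t = y * ES I c k t := by
      rw [hy]
      field_simp
    rw [e2] at h2
    unfold ES at h2 ⊢
    calc Real.exp y * ∑ i ∈ I, c i * Real.exp (k i * t)
        = Real.exp y * ((∑ i ∈ I, c i * Real.exp (k i * t)) * (1 - y) +
          y * ∑ i ∈ I, c i * Real.exp (k i * t)) := by ring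
      _ ≤ _ := h2
  have h3 := Real.log_le_log (by positivity) key
  rw [Real.log_mul (Real.exp_pos _).ne' ht.ne', Real.log_exp] at h3
  linarith

lemma exp_tendsto_zero_top {k : ℝ} (hk : k < 0) :
    Tendsto (fun t : ℝ => Real.exp (k * t)) atTop (𝓝 0) := by
  apply Real.tendsto_exp_atBot.comp
  exact tendsto_id.const_mul_atTop_of_neg hk

lemma exp_tendsto_zero_bot {k : ℝ} (hk : 0 < k) :
    Tendsto (fun t : ℝ => Real.exp (k * t)) atBot (𝓝 0) := by
  apply Real.tendsto_exp_atBot.comp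
  exact tendsto_id.const_mul_atBot hk

lemma exp_tendsto_top_top {k : ℝ} (hk : 0 < k) :
    Tendsto (fun t : ℝ => Real.exp (k * t)) atTop atTop := by
  apply Real.tendsto_exp_atTop.comp
  exact tendsto_id.const_mul_atTop hk

lemma exp_tendsto_top_bot {k : ℝ} (hk : k < 0) :
    Tendsto (fun t : ℝ => Real.exp (k * t)) atBot atTop := by
  apply Real.tendsto_exp_atTop.comp
  exact tendsto_id.const_mul_atBot_of_neg hk

lemma ES_tendsto_zero_top (hk : ∀ i ∈ I, k i < 0) : Tendsto (ES I c k) atTop (𝓝 0) := by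
  have h := tendsto_finsetSum I (fun i hi => (exp_tendsto_zero_top (hk i hi)).const_mul (c i))
  simp only [mul_zero, Finset.sum_const_zero] at h
  exact h

lemma ES_tendsto_zero_bot (hk : ∀ i ∈ I, 0 < k i) : Tendsto (ES I c k) atBot (𝓝 0) := by
  have h := tendsto_finsetSum I (fun i hi => (exp_tendsto_zero_bot (hk i hi)).const_mul (c i))
  simp only [mul_zero, Finset.sum_const_zero] at h
  exact h

lemma ES_ge_term (hc : ∀ i ∈ I, 0 ≤ c i) {i : ℕ} (hi : i ∈ I) (t : ℝ) :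
    c i * Real.exp (k i * t) ≤ ES I c k t :=
  Finset.single_le_sum (f := fun i => c i * Real.exp (k i * t))
    (fun i hi => mul_nonneg (hc i hi) (Real.exp_pos _).le) hi

lemma ES_tendsto_top_top (hc : ∀ i ∈ I, 0 ≤ c i) (h : ∃ i ∈ I, 0 < c i ∧ 0 < k i) :
    Tendsto (ES I c k) atTop atTop := by
  obtain ⟨i, hi, h0, h1⟩ := h
  exact tendsto_atTop_mono (fun t => ES_ge_term hc hi t)
    ((exp_tendsto_top_top h1).const_mul_atTop h0)

lemma ES_tendsto_top_bot (hc : ∀ i ∈ I, 0 ≤ c i) (h : ∃ i ∈ I, 0 < c i ∧ k i < 0) :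
    Tendsto (ES I c k) atBot atTop := by
  obtain ⟨i, hi, h0, h1⟩ := h
  exact tendsto_atTop_mono (fun t => ES_ge_term hc hi t)
    ((exp_tendsto_top_bot h1).const_mul_atTop h0)

/-- Bounds on the half lines. -/
lemma ES_le_top (hc : ∀ i ∈ I, 0 ≤ c i) {K : ℝ} (hk : ∀ i ∈ I, k i ≤ K) {t : ℝ} (ht : 0 ≤ t) :
    ES I c k t ≤ (∑ i ∈ I, c i) * Real.exp (K * t) := by
  unfold ES
  rw [Finset.sum_mul]
  apply Finset.sum_le_sum
  intro i hi
  apply mul_le_mul_of_nonneg_left _ (hc i hi)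
  exact Real.exp_le_exp.2 (mul_le_mul_of_nonneg_right (hk i hi) ht)

lemma ES_le_bot (hc : ∀ i ∈ I, 0 ≤ c i) {K : ℝ} (hk : ∀ i ∈ I, K ≤ k i) {t : ℝ} (ht : t ≤ 0) :
    ES I c k t ≤ (∑ i ∈ I, c i) * Real.exp (K * t) := by
  unfold ES
  rw [Finset.sum_mul]
  apply Finset.sum_le_sum
  intro i hi
  apply mul_le_mul_of_nonneg_left _ (hc i hi)
  exact Real.exp_le_exp.2 (mul_le_mul_of_nonpos_right (hk i hi) ht)

end Pool.Agent.MP_fe2d2a_anR
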