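import Mathlib
import Pool.Agent.Lib.MP_fe2d2a_anR.Odd
import Pool.Agent.Lib.MP_fe2d2a_anR.ES
import Pool.Agent.Lib.MP_fe2d2a_anR.GPart

/-!
The four parts of `P(e^t) e^{-nt}` for even `n`.
-/

set_option autoImplicit false

open Finset Polynomial Filter Topology

namespace Pool.Agent.MP_fe2d2a_anR

/-- The exponents. -/
noncomputable def kk (n i : ℕ) : ℝ := (i : ℝ) - n

/-- Odd indices below `n`. -/
def IA (M n : ℕ) : Finset ℕ := (range M).filter (fun i => Odd i ∧ i < n)

/-- Odd indices above `n`. -/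
def IB (M n : ℕ) : Finset ℕ := (range M).filter (fun i => Odd i ∧ n < i)

/-- Even indices at most `n`. -/
def JA (M n : ℕ) : Finset ℕ := (range M).filter (fun i => Even i ∧ i ≤ n)

/-- Even indices above `n`. -/
def JB (M n : ℕ) : Finset ℕ := (range M).filter (fun i => Even i ∧ n < i)

lemma split4 {M n : ℕ} (hn : Even n) (f : ℕ → ℝ) :
    ∑ i ∈ range M, f i = ∑ i ∈ JA M n, f i + ∑ i ∈ JB M n, f i +
      (∑ i ∈ IA M n, f i + ∑ i ∈ IB M n, f i) := by
  unfold IA IB JA JB
  rw [Finset.sum_filter, Finset.sum_filter, Finset.sum_filter, Finset.sum_filter,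
    ← Finset.sum_add_distrib, ← Finset.sum_add_distrib, ← Finset.sum_add_distrib]
  apply Finset.sum_congr rfl
  intro i _
  rcases Nat.even_or_odd i with h | h
  · have h' : ¬ Odd i := Nat.not_odd_iff_even.2 h
    rcases Nat.lt_or_ge n i with h2 | h2
    · simp [h, h', h2, not_le.2 h2]
    · simp [h, h', h2, not_lt.2 h2]
  · have h' : ¬ Even i := Nat.not_even_iff_odd.2 h
    have hne : i ≠ n := fun e => h' (e ▸ hn)
    rcases Nat.lt_or_ge n i with h2 | h2
    · simp [h, h', h2, not_lt.2 h2.le]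
    · have h3 : i < n := lt_of_le_of_ne h2 hne
      simp [h, h', h3, not_lt.2 h3.le]

lemma exp_pow_eq (n i : ℕ) (t : ℝ) :
    Real.exp t ^ i * Real.exp (-(n * t)) = Real.exp (kk n i * t) := by
  rw [← Real.exp_nat_mul, ← Real.exp_add]
  congr 1
  unfold kk
  ring

/-- Evaluation at `e^t`. -/
lemma eval_exp {M n : ℕ} (hn : Even n) {r : ℝ[X]} (hr : r.natDegree < M) (t : ℝ) :
    r.eval (Real.exp t) * Real.exp (-(n * t)) =
      ES (JA M n) r.coeff (kk n) t + ES (JB M n) r.coeff (kk n) t +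
        (ES (IA M n) r.coeff (kk n) t + ES (IB M n) r.coeff (kk n) t) := by
  rw [eval_eq_sum_range' hr, Finset.sum_mul]
  unfold ES
  rw [← split4 hn]
  apply Finset.sum_congr rfl
  intro i _
  rw [mul_assoc, exp_pow_eq]

/-- Evaluation at `-e^t`. -/
lemma eval_neg_exp {M n : ℕ} (hn : Even n) {r : ℝ[X]} (hr : r.natDegree < M) (t : ℝ) :
    r.eval (-Real.exp t) * Real.exp (-(n * t)) =
      ES (JA M n) r.coeff (kk n) t + ES (JB M n) r.coeff (kk n) t -
        (ES (IA M n) r.coeff (kk n) t + ES (IB M n) r.coeff (kk n) t) := by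
  rw [eval_eq_sum_range' hr, Finset.sum_mul, split4 hn, sub_eq_add_neg, neg_add]
  unfold ES
  rw [← Finset.sum_neg_distrib, ← Finset.sum_neg_distrib]
  congr 1
  · congr 1
    · apply Finset.sum_congr rfl
      intro i hi
      have he : Even i := ((Finset.mem_filter.1 hi).2).1
      rw [mul_assoc, he.neg_pow, exp_pow_eq]
    · apply Finset.sum_congr rfl
      intro i hi
      have he : Even i := ((Finset.mem_filter.1 hi).2).1
      rw [mul_assoc, he.neg_pow, exp_pow_eq]
  · congr 1
    · apply Finset.sum_congr rfl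
      intro i hi
      have he : Odd i := ((Finset.mem_filter.1 hi).2).1
      rw [mul_assoc, he.neg_pow, neg_mul, exp_pow_eq, mul_neg]
    · apply Finset.sum_congr rfl
      intro i hi
      have he : Odd i := ((Finset.mem_filter.1 hi).2).1
      rw [mul_assoc, he.neg_pow, neg_mul, exp_pow_eq, mul_neg]

/-- The derivative at `e^t`. -/
lemma deriv_exp {M n : ℕ} (hn : Even n) {r : ℝ[X]} (hr : r.natDegree < M) (t : ℝ) :
    Real.exp t * (derivative r).eval (Real.exp t) * Real.exp (-(n * t)) =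
      (ES' (JA M n) r.coeff (kk n) t + ES' (JB M n) r.coeff (kk n) t +
        (ES' (IA M n) r.coeff (kk n) t + ES' (IB M n) r.coeff (kk n) t)) +
      n * (ES (JA M n) r.coeff (kk n) t + ES (JB M n) r.coeff (kk n) t +
        (ES (IA M n) r.coeff (kk n) t + ES (IB M n) r.coeff (kk n) t)) := by
  have h1 : HasDerivAt (fun t : ℝ => r.eval (Real.exp t) * Real.exp (-(n * t)))
      ((ES' (JA M n) r.coeff (kk n) t + ES' (JB M n) r.coeff (kk n) t +
        (ES' (IA M n) r.coeff (kk n) t + ES' (IB M n) r.coeff (kk n) t))) t := by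
    have h := ((ES_hasDerivAt (JA M n) r.coeff (kk n) t).add
      (ES_hasDerivAt (JB M n) r.coeff (kk n) t)).add
      ((ES_hasDerivAt (IA M n) r.coeff (kk n) t).add (ES_hasDerivAt (IB M n) r.coeff (kk n) t))
    exact h.congr_of_eventuallyEq (Eventually.of_forall fun s => eval_exp hn hr s)
  have h2 : HasDerivAt (fun t : ℝ => r.eval (Real.exp t) * Real.exp (-(n * t)))
      ((derivative r).eval (Real.exp t) * Real.exp t * Real.exp (-(n * t)) +
        r.eval (Real.exp t) * (Real.exp (-(n * t)) * -n)) t := by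
    have d1 := (r.hasDerivAt (Real.exp t)).comp t (Real.hasDerivAt_exp t)
    have d2 : HasDerivAt (fun t : ℝ => -((n : ℝ) * t)) (-n) t := by
      have := ((hasDerivAt_id' t).const_mul (n : ℝ)).neg
      exact this.congr_deriv (by ring)
    exact d1.mul d2.exp
  have h3 := h1.unique h2
  rw [h3]
  have h4 := eval_exp hn hr t
  rw [← h4]
  ring

/-- The derivative at `-e^t`. -/
lemma deriv_neg_exp {M n : ℕ} (hn : Even n) {r : ℝ[X]} (hr : r.natDegree < M) (t : ℝ) :
    -(Real.exp t * (derivative r).eval (-Real.exp t) * Real.exp (-(n * t))) =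
      (ES' (JA M n) r.coeff (kk n) t + ES' (JB M n) r.coeff (kk n) t -
        (ES' (IA M n) r.coeff (kk n) t + ES' (IB M n) r.coeff (kk n) t)) +
      n * (ES (JA M n) r.coeff (kk n) t + ES (JB M n) r.coeff (kk n) t -
        (ES (IA M n) r.coeff (kk n) t + ES (IB M n) r.coeff (kk n) t)) := by
  have h1 : HasDerivAt (fun t : ℝ => r.eval (-Real.exp t) * Real.exp (-(n * t)))
      ((ES' (JA M n) r.coeff (kk n) t + ES' (JB M n) r.coeff (kk n) t -
        (ES' (IA M n) r.coeff (kk n) t + ES' (IB M n) r.coeff (kk n) t))) t := by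
    have h := ((ES_hasDerivAt (JA M n) r.coeff (kk n) t).add
      (ES_hasDerivAt (JB M n) r.coeff (kk n) t)).sub
      ((ES_hasDerivAt (IA M n) r.coeff (kk n) t).add (ES_hasDerivAt (IB M n) r.coeff (kk n) t))
    exact h.congr_of_eventuallyEq (Eventually.of_forall fun s => eval_neg_exp hn hr s)
  have h2 : HasDerivAt (fun t : ℝ => r.eval (-Real.exp t) * Real.exp (-(n * t)))
      ((derivative r).eval (-Real.exp t) * -Real.exp t * Real.exp (-(n * t)) +
        r.eval (-Real.exp t) * (Real.exp (-(n * t)) * -n)) t := by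
    have d1 := (r.hasDerivAt (-Real.exp t)).comp t (Real.hasDerivAt_exp t).neg
    have d2 : HasDerivAt (fun t : ℝ => -((n : ℝ) * t)) (-n) t := by
      have := ((hasDerivAt_id' t).const_mul (n : ℝ)).neg
      exact this.congr_deriv (by ring)
    exact d1.mul d2.exp
  have h3 := h1.unique h2
  rw [h3]
  have h4 := eval_neg_exp hn hr t
  rw [← h4]
  ring

/-- The parts of the truncation. -/
lemma lo_parts {M n : ℕ} (r : ℝ[X]) :
    (∀ t, ES (JA M n) (lo n r).coeff (kk n) t = ES (JA M n) r.coeff (kk n) t) ∧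
    (∀ t, ES (JB M n) (lo n r).coeff (kk n) t = 0) ∧
    (∀ t, ES (IA M n) (lo n r).coeff (kk n) t = ES (IA M n) r.coeff (kk n) t) ∧
    (∀ t, ES (IB M n) (lo n r).coeff (kk n) t = 0) ∧
    (∀ t, ES' (JA M n) (lo n r).coeff (kk n) t = ES' (JA M n) r.coeff (kk n) t) ∧
    (∀ t, ES' (JB M n) (lo n r).coeff (kk n) t = 0) ∧
    (∀ t, ES' (IA M n) (lo n r).coeff (kk n) t = ES' (IA M n) r.coeff (kk n) t) ∧
    (∀ t, ES' (IB M n) (lo n r).coeff (kk n) t = 0) := by
  unfold ES ES'
  refine ⟨?_, ?_, ?_, ?_, ?_, ?_, ?_, ?_⟩ <;> intro t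
  · apply Finset.sum_congr rfl
    intro i hi
    rw [coeff_lo, if_pos ((Finset.mem_filter.1 hi).2).2]
  · apply Finset.sum_eq_zero
    intro i hi
    rw [coeff_lo, if_neg (not_le.2 ((Finset.mem_filter.1 hi).2).2), zero_mul]
  · apply Finset.sum_congr rfl
    intro i hi
    rw [coeff_lo, if_pos ((Finset.mem_filter.1 hi).2).2.le]
  · apply Finset.sum_eq_zero
    intro i hi
    rw [coeff_lo, if_neg (not_le.2 ((Finset.mem_filter.1 hi).2).2), zero_mul]
  · apply Finset.sum_congr rfl
    intro i hi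
    rw [coeff_lo, if_pos ((Finset.mem_filter.1 hi).2).2]
  · apply Finset.sum_eq_zero
    intro i hi
    rw [coeff_lo, if_neg (not_le.2 ((Finset.mem_filter.1 hi).2).2), zero_mul]
  · apply Finset.sum_congr rfl
    intro i hi
    rw [coeff_lo, if_pos ((Finset.mem_filter.1 hi).2).2.le]
  · apply Finset.sum_eq_zero
    intro i hi
    rw [coeff_lo, if_neg (not_le.2 ((Finset.mem_filter.1 hi).2).2), zero_mul]

lemma lo_natDegree {M n : ℕ} (hM : n < M) (r : ℝ[X]) : (lo n r).natDegree < M := by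
  apply lt_of_le_of_lt _ hM
  rw [natDegree_le_iff_coeff_eq_zero]
  intro i hi
  rw [coeff_lo, if_neg (by omega)]

variable {ι : Type*} [DecidableEq ι]

/-- The derivative of `Phi(e^t)`. -/
lemma Phi_exp {u v : ι → ℝ} {A : Finset ι} (hv : ∀ k ∈ A, 0 < v k)
    (huv : ∀ k ∈ A, u k ^ 2 + v k ^ 2 = 1) {J M : ℕ} (hJ : Even (J + 1))
    (hM : M = 2 * A.card + 1) (hJM : J + 1 < M) (t : ℝ) :
    HasDerivAt (fun t : ℝ => Phi u v A J (Real.exp t))
      (2 * (ES (JA M (J + 1)) (QP u A).coeff (kk (J + 1)) t *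
        (((ES' (JA M (J + 1)) (QP u A).coeff (kk (J + 1)) t +
            ES' (JB M (J + 1)) (QP u A).coeff (kk (J + 1)) t +
          (ES' (IA M (J + 1)) (QP u A).coeff (kk (J + 1)) t +
            ES' (IB M (J + 1)) (QP u A).coeff (kk (J + 1)) t)) /
          (ES (JA M (J + 1)) (QP u A).coeff (kk (J + 1)) t +
            ES (JB M (J + 1)) (QP u A).coeff (kk (J + 1)) t +
          (ES (IA M (J + 1)) (QP u A).coeff (kk (J + 1)) t +
            ES (IB M (J + 1)) (QP u A).coeff (kk (J + 1)) t)) -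
          (ES' (JA M (J + 1)) (QP u A).coeff (kk (J + 1)) t +
            ES' (JB M (J + 1)) (QP u A).coeff (kk (J + 1)) t -
          (ES' (IA M (J + 1)) (QP u A).coeff (kk (J + 1)) t +
            ES' (IB M (J + 1)) (QP u A).coeff (kk (J + 1)) t)) /
          (ES (JA M (J + 1)) (QP u A).coeff (kk (J + 1)) t +
            ES (JB M (J + 1)) (QP u A).coeff (kk (J + 1)) t -
          (ES (IA M (J + 1)) (QP u A).coeff (kk (J + 1)) t +
            ES (IB M (J + 1)) (QP u A).coeff (kk (J + 1)) t))) / 2) +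
        ES (IA M (J + 1)) (QP u A).coeff (kk (J + 1)) t *
        (((ES' (JA M (J + 1)) (QP u A).coeff (kk (J + 1)) t +
            ES' (JB M (J + 1)) (QP u A).coeff (kk (J + 1)) t +
          (ES' (IA M (J + 1)) (QP u A).coeff (kk (J + 1)) t +
            ES' (IB M (J + 1)) (QP u A).coeff (kk (J + 1)) t)) /
          (ES (JA M (J + 1)) (QP u A).coeff (kk (J + 1)) t +
            ES (JB M (J + 1)) (QP u A).coeff (kk (J + 1)) t +
          (ES (IA M (J + 1)) (QP u A).coeff (kk (J + 1)) t +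
            ES (IB M (J + 1)) (QP u A).coeff (kk (J + 1)) t)) +
          (ES' (JA M (J + 1)) (QP u A).coeff (kk (J + 1)) t +
            ES' (JB M (J + 1)) (QP u A).coeff (kk (J + 1)) t -
          (ES' (IA M (J + 1)) (QP u A).coeff (kk (J + 1)) t +
            ES' (IB M (J + 1)) (QP u A).coeff (kk (J + 1)) t)) /
          (ES (JA M (J + 1)) (QP u A).coeff (kk (J + 1)) t +
            ES (JB M (J + 1)) (QP u A).coeff (kk (J + 1)) t -
          (ES (IA M (J + 1)) (QP u A).coeff (kk (J + 1)) t +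
            ES (IB M (J + 1)) (QP u A).coeff (kk (J + 1)) t))) / 2) -
        ES' (IA M (J + 1)) (QP u A).coeff (kk (J + 1)) t)) t := by
  have hd := (Phi_hasDerivAt hv huv J (Real.exp t)).comp t (Real.hasDerivAt_exp t)
  refine HasDerivAt.congr_deriv hd ?_
  have hx := Real.exp_pos t
  rw [ker_eq hv huv J hx.ne', ker_eq hv huv J (neg_ne_zero.2 hx.ne'), hJ.neg_pow]
  set n := J + 1 with hn
  set P := QP u A with hP
  have hdeg : P.natDegree < M := by
    rw [hP, QP_natDegree, hM]
    omega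
  have e1 := eval_exp hJ hdeg t
  have e2 := eval_neg_exp hJ hdeg t
  have e3 := deriv_exp hJ hdeg t
  have e4 := deriv_neg_exp hJ hdeg t
  have f1 := eval_exp hJ (lo_natDegree hJM P) t
  have f2 := eval_neg_exp hJ (lo_natDegree hJM P) t
  have f3 := deriv_exp hJ (lo_natDegree hJM P) t
  have f4 := deriv_neg_exp hJ (lo_natDegree hJM P) t
  obtain ⟨g1, g2, g3, g4, g5, g6, g7, g8⟩ := lo_parts (M := M) (n := n) P
  rw [g1, g2, g3, g4] at f1 f2
  rw [g1, g2, g3, g4, g5, g6, g7, g8] at f3 f4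
  have hp1 := QP_pos hv huv (Real.exp t)
  have hp2 := QP_pos hv huv (-Real.exp t)
  rw [← hP] at hp1 hp2
  have hE := Real.exp_pos (-(n * t))
  have hxn : Real.exp t ^ n = (Real.exp (-(n * t)))⁻¹ := by
    rw [← Real.exp_nat_mul, Real.exp_neg, inv_inv]
  set x := Real.exp t with hxdef
  set E := Real.exp (-(n * t)) with hEdef
  have k1 : 0 < P.eval x * E := mul_pos hp1 hE
  have k2 : 0 < P.eval (-x) * E := mul_pos hp2 hE
  rw [e1] at k1
  rw [e2] at k2
  set ga := ES (JA M n) P.coeff (kk n) t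
  set gb := ES (JB M n) P.coeff (kk n) t
  set aa := ES (IA M n) P.coeff (kk n) t
  set bb := ES (IB M n) P.coeff (kk n) t
  set ga' := ES' (JA M n) P.coeff (kk n) t
  set gb' := ES' (JB M n) P.coeff (kk n) t
  set aa' := ES' (IA M n) P.coeff (kk n) t
  set bb' := ES' (IB M n) P.coeff (kk n) t
  have hE' := hE.ne'
  have r1 : ((lo n P).eval x * (derivative P).eval x / P.eval x -
      (derivative (lo n P)).eval x) / x ^ n * x =
      (ga + aa) * (ga' + gb' + (aa' + bb') + n * (ga + gb + (aa + bb))) /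
        (ga + gb + (aa + bb)) - (ga' + aa' + n * (ga + aa)) := by
    rw [hxn, ← e1]
    have e3' : ga' + gb' + (aa' + bb') + n * (ga + gb + (aa + bb)) =
        x * (derivative P).eval x * E := e3.symm
    rw [← e1] at e3'
    have f3' : ga' + aa' + n * (ga + aa) = x * (derivative (lo n P)).eval x * E := by
      rw [f3]
      ring
    have f1' : ga + aa = (lo n P).eval x * E := by
      rw [f1]
      ring
    rw [e3', f3', f1']
    have := hp1.ne'
    field_simp
  have r2 : ((lo n P).eval (-x) * (derivative P).eval (-x) / P.eval (-x) -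
      (derivative (lo n P)).eval (-x)) / x ^ n * x =
      -((ga - aa) * (ga' + gb' - (aa' + bb') + n * (ga + gb - (aa + bb))) /
        (ga + gb - (aa + bb)) - (ga' - aa' + n * (ga - aa))) := by
    rw [hxn, ← e2]
    have e4' : ga' + gb' - (aa' + bb') + n * (ga + gb - (aa + bb)) =
        -(x * (derivative P).eval (-x) * E) := e4.symm
    rw [← e2] at e4'
    have f4' : ga' - aa' + n * (ga - aa) = -(x * (derivative (lo n P)).eval (-x) * E) := by
      rw [f4]
      ring
    have f2' : ga - aa = (lo n P).eval (-x) * E := by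
      rw [f2]
      ring
    rw [e4', f4', f2']
    have := hp2.ne'
    field_simp
    ring
  rw [add_mul, r1, r2]
  have k1' := k1.ne'
  have k2' := k2.ne'
  have q1 : (ga + aa) * (ga' + gb' + (aa' + bb') + n * (ga + gb + (aa + bb))) /
        (ga + gb + (aa + bb)) = (ga + aa) * ((ga' + gb' + (aa' + bb')) /
        (ga + gb + (aa + bb))) + (ga + aa) * n := by
    field_simp
  have q2 : (ga - aa) * (ga' + gb' - (aa' + bb') + n * (ga + gb - (aa + bb))) /
        (ga + gb - (aa + bb)) = (ga - aa) * ((ga' + gb' - (aa' + bb')) /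
        (ga + gb - (aa + bb))) + (ga - aa) * n := by
    field_simp
  rw [q1, q2]
  ring

end Pool.Agent.MP_fe2d2a_anR
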