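import Mathlib
import Pool.Agent.Lib.MP_fe2d2a_anR.Inst
import Pool.Agent.Lib.MP_fe2d2a_anR.Abs

/-!
Limits needed for the even indices.
-/

set_option autoImplicit false

open Finset Polynomial Filter Topology

namespace Pool.Agent.MP_fe2d2a_anR

lemma lim_aux_top (C1 C2 K : ℝ) :
    Tendsto (fun t : ℝ => C1 * Real.exp (-1 * t) * (C2 + K * t)) atTop (𝓝 0) := by
  have h1 : Tendsto (fun t : ℝ => Real.exp (-t)) atTop (𝓝 0) :=
    Real.tendsto_exp_neg_atTop_nhds_zero
  have h2 : Tendsto (fun t : ℝ => t * Real.exp (-t)) atTop (𝓝 0) := by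
    have := Real.tendsto_pow_mul_exp_neg_atTop_nhds_zero 1
    simpa using this
  have h := (h1.const_mul (C1 * C2)).add (h2.const_mul (C1 * K))
  rw [mul_zero, mul_zero, add_zero] at h
  refine h.congr ?_
  intro t
  rw [neg_one_mul]
  ring

lemma lim_aux_bot (C1 C2 K : ℝ) :
    Tendsto (fun t : ℝ => C1 * Real.exp (1 * t) * (C2 + K * -t)) atBot (𝓝 0) := by
  have h := (lim_aux_top C1 C2 K).comp tendsto_neg_atBot_atTop
  refine h.congr ?_
  intro t
  simp only [Function.comp_apply]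
  congr 2
  ring_nf

lemma NN_ge {θ s : ℝ} (h0 : 0 < θ) (h1 : θ < 1) (hs : 0 ≤ s) :
    Real.log (1 - θ ^ 2) / 2 ≤ NN θ s := by
  have k : 0 < 1 - θ ^ 2 := by nlinarith
  unfold NN
  have : Real.log (1 - θ ^ 2) ≤ Real.log (max (1 - s ^ 2) ((1 / θ ^ 2 - 1) * s ^ 2)) := by
    apply Real.log_le_log k
    rcases le_total s θ with h | h
    · apply le_max_of_le_left
      nlinarith
    · apply le_max_of_le_right
      have e : (1 / θ ^ 2 - 1) * s ^ 2 = (1 - θ ^ 2) * (s ^ 2 / θ ^ 2) := by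
        field_simp
      rw [e]
      have h2 : 1 ≤ s ^ 2 / θ ^ 2 := by
        rw [one_le_div (by positivity)]
        nlinarith
      nlinarith
  linarith

lemma MM_le {G S : ℝ} (hS : 0 ≤ S) (hSG : S < G) : MM G S ≤ Real.log (G + S) := by
  unfold MM
  have : Real.log (G - S) ≤ Real.log (G + S) := Real.log_le_log (by linarith) (by linarith)
  linarith

lemma LL_le {G S : ℝ} (hS : 0 ≤ S) (hSG : 6 * S ≤ 5 * G) (hG : 0 < G) :
    G * LL G S ≤ 6 * S := by
  have hlt : 0 < G - S := by linarith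
  have e : Real.log (G + S) - Real.log (G - S) = Real.log ((G + S) / (G - S)) :=
    (Real.log_div (by linarith) hlt.ne').symm
  have h1 : Real.log ((G + S) / (G - S)) ≤ (G + S) / (G - S) - 1 :=
    Real.log_le_sub_one_of_pos (by positivity)
  have h2 : (G + S) / (G - S) - 1 ≤ 12 * S / G := by
    have e2 : (G + S) / (G - S) - 1 = 2 * S / (G - S) := by
      field_simp
      ring
    rw [e2, div_le_div_iff₀ hlt hG]
    nlinarith
  unfold LL
  rw [e]
  have h3 : G * (Real.log ((G + S) / (G - S)) / 2) ≤ G * ((12 * S / G) / 2) := by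
    apply mul_le_mul_of_nonneg_left _ hG.le
    linarith
  refine h3.trans (le_of_eq ?_)
  field_simp
  ring

lemma LL_nonneg {G S : ℝ} (hS : 0 ≤ S) (hSG : S < G) : 0 ≤ LL G S := by
  unfold LL
  have : Real.log (G - S) ≤ Real.log (G + S) := Real.log_le_log (by linarith) (by linarith)
  linarith

lemma LL_pos {G S : ℝ} (hS : 0 < S) (hSG : S < G) : 0 < LL G S := by
  unfold LL
  have : Real.log (G - S) < Real.log (G + S) := Real.log_lt_log (by linarith) (by linarith)
  linarith

lemma ES_scale (I : Finset ℕ) (c k : ℕ → ℝ) (γ t : ℝ) :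
    ES I (fun i => c i / γ) k t = ES I c k t / γ := by
  unfold ES
  rw [Finset.sum_div]
  apply Finset.sum_congr rfl
  intro i _
  ring

lemma ES'_scale (I : Finset ℕ) (c k : ℕ → ℝ) (γ t : ℝ) :
    ES' I (fun i => c i / γ) k t = ES' I c k t / γ := by
  unfold ES'
  rw [Finset.sum_div]
  apply Finset.sum_congr rfl
  intro i _
  ring

lemma kk_neg {n i : ℕ} (h : i < n) : kk n i < 0 := by
  unfold kk
  have : (i : ℝ) < n := by exact_mod_cast h
  linarith

lemma kk_nonpos {n i : ℕ} (h : i ≤ n) : kk n i ≤ 0 := by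
  unfold kk
  have : (i : ℝ) ≤ n := by exact_mod_cast h
  linarith

lemma kk_pos {n i : ℕ} (h : n < i) : 0 < kk n i := by
  unfold kk
  have : (n : ℝ) < i := by exact_mod_cast h
  linarith

lemma kk_le_neg_one {n i : ℕ} (h : i < n) : kk n i ≤ -1 := by
  unfold kk
  have : (i : ℝ) + 1 ≤ n := by exact_mod_cast h
  linarith

lemma kk_ge_one {n i : ℕ} (h : n < i) : 1 ≤ kk n i := by
  unfold kk
  have : (n : ℝ) + 1 ≤ i := by exact_mod_cast h
  linarith

lemma kk_ge (n i : ℕ) : -(n : ℝ) ≤ kk n i := by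
  unfold kk
  have : (0 : ℝ) ≤ i := Nat.cast_nonneg i
  linarith

lemma kk_le {n i M : ℕ} (h : i < M) : kk n i ≤ M := by
  unfold kk
  have h1 : (i : ℝ) < M := by exact_mod_cast h
  have h2 : (0 : ℝ) ≤ n := Nat.cast_nonneg n
  linarith

end Pool.Agent.MP_fe2d2a_anR
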