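import Mathlib
import Pool.Agent.Lib.MP_fe2d2a_anR.Lim

/-!
Even indices: if `P = ∏ (X^2 - 2 u_k X + 1)` has nonnegative coefficients, is not even and
`P(x) ≤ 11 P(-x)` for `x > 0` then `∑ 2 v_k Q_J > 0` for odd `J`, `Q = P / q_k`.
-/

set_option autoImplicit false

open Finset Polynomial Filter Topology

namespace Pool.Agent.MP_fe2d2a_anR

variable {ι : Type*} [DecidableEq ι]

/-- The low even part. -/
noncomputable def gA (u : ι → ℝ) (A : Finset ι) (n : ℕ) (γ t : ℝ) : ℝ :=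
  ES (JA (2 * A.card + 1) n) (fun i => (QP u A).coeff i / γ) (kk n) t

/-- The high even part. -/
noncomputable def gB (u : ι → ℝ) (A : Finset ι) (n : ℕ) (γ t : ℝ) : ℝ :=
  ES (JB (2 * A.card + 1) n) (fun i => (QP u A).coeff i / γ) (kk n) t

/-- The low odd part. -/
noncomputable def sA (u : ι → ℝ) (A : Finset ι) (n : ℕ) (γ t : ℝ) : ℝ :=
  ES (IA (2 * A.card + 1) n) (fun i => (QP u A).coeff i / γ) (kk n) t

/-- The high odd part. -/
noncomputable def sB (u : ι → ℝ) (A : Finset ι) (n : ℕ) (γ t : ℝ) : ℝ :=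
  ES (IB (2 * A.card + 1) n) (fun i => (QP u A).coeff i / γ) (kk n) t

/-- The derivative of the low even part. -/
noncomputable def gA' (u : ι → ℝ) (A : Finset ι) (n : ℕ) (γ t : ℝ) : ℝ :=
  ES' (JA (2 * A.card + 1) n) (fun i => (QP u A).coeff i / γ) (kk n) t

/-- The derivative of the high even part. -/
noncomputable def gB' (u : ι → ℝ) (A : Finset ι) (n : ℕ) (γ t : ℝ) : ℝ :=
  ES' (JB (2 * A.card + 1) n) (fun i => (QP u A).coeff i / γ) (kk n) t

/-- The derivative of the low odd part. -/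
noncomputable def sA' (u : ι → ℝ) (A : Finset ι) (n : ℕ) (γ t : ℝ) : ℝ :=
  ES' (IA (2 * A.card + 1) n) (fun i => (QP u A).coeff i / γ) (kk n) t

/-- The derivative of the high odd part. -/
noncomputable def sB' (u : ι → ℝ) (A : Finset ι) (n : ℕ) (γ t : ℝ) : ℝ :=
  ES' (IB (2 * A.card + 1) n) (fun i => (QP u A).coeff i / γ) (kk n) t

omit [DecidableEq ι] in
lemma sum_exp (u : ι → ℝ) (A : Finset ι) {n : ℕ} (hn : Even n) (γ t : ℝ) :
    gA u A n γ t + gB u A n γ t + (sA u A n γ t + sB u A n γ t) =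
      (QP u A).eval (Real.exp t) * Real.exp (-(n * t)) / γ := by
  unfold gA gB sA sB
  rw [ES_scale, ES_scale, ES_scale, ES_scale, ← add_div, ← add_div, ← add_div]
  congr 1
  exact (eval_exp hn (by rw [QP_natDegree]; omega) t).symm

omit [DecidableEq ι] in
lemma diff_exp (u : ι → ℝ) (A : Finset ι) {n : ℕ} (hn : Even n) (γ t : ℝ) :
    gA u A n γ t + gB u A n γ t - (sA u A n γ t + sB u A n γ t) =
      (QP u A).eval (-Real.exp t) * Real.exp (-(n * t)) / γ := by
  unfold gA gB sA sB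
  rw [ES_scale, ES_scale, ES_scale, ES_scale, ← add_div, ← add_div, ← sub_div]
  congr 1
  exact (eval_neg_exp hn (by rw [QP_natDegree]; omega) t).symm

/-- The derivative of `Q`. -/
lemma Q_deriv {u v : ι → ℝ} {A : Finset ι} (hv : ∀ k ∈ A, 0 < v k)
    (huv : ∀ k ∈ A, u k ^ 2 + v k ^ 2 = 1) {J n : ℕ} (hn : n = J + 1) (hJ : Even n)
    (hJM : n < 2 * A.card + 1) {γ : ℝ} (hγ : 0 < γ) (t : ℝ) :
    HasDerivAt (fun t : ℝ => Phi u v A J (Real.exp t) / (2 * γ))
      (gA u A n γ t * (((gA' u A n γ t + gB' u A n γ t + (sA' u A n γ t + sB' u A n γ t)) /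
          (gA u A n γ t + gB u A n γ t + (sA u A n γ t + sB u A n γ t)) -
        (gA' u A n γ t + gB' u A n γ t - (sA' u A n γ t + sB' u A n γ t)) /
          (gA u A n γ t + gB u A n γ t - (sA u A n γ t + sB u A n γ t))) / 2) +
      sA u A n γ t * (((gA' u A n γ t + gB' u A n γ t + (sA' u A n γ t + sB' u A n γ t)) /
          (gA u A n γ t + gB u A n γ t + (sA u A n γ t + sB u A n γ t)) +
        (gA' u A n γ t + gB' u A n γ t - (sA' u A n γ t + sB' u A n γ t)) /
          (gA u A n γ t + gB u A n γ t - (sA u A n γ t + sB u A n γ t))) / 2) -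
      sA' u A n γ t) t := by
  subst hn
  have h := (Phi_exp hv huv hJ rfl hJM t).div_const (2 * γ)
  refine h.congr_deriv ?_
  unfold gA gB sA sB gA' gB' sA' sB'
  simp only [ES_scale, ES'_scale]
  simp only [← add_div, ← sub_div]
  rw [div_div_div_cancel_right₀ hγ.ne', div_div_div_cancel_right₀ hγ.ne']
  field_simp

/-- The hypotheses of the theorem. -/
structure NE (u v : ι → ℝ) (A : Finset ι) (n : ℕ) : Prop where
  hv : ∀ k ∈ A, 0 < v k
  huv : ∀ k ∈ A, u k ^ 2 + v k ^ 2 = 1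
  hpos : ∀ i, 0 ≤ (QP u A).coeff i
  hk : ∀ x : ℝ, 0 < x → (QP u A).eval x ≤ 11 * (QP u A).eval (-x)
  hn : Even n
  hn0 : 0 < n
  hnM : n < 2 * A.card

variable {u v : ι → ℝ} {A : Finset ι} {n : ℕ}

omit [DecidableEq ι] in
lemma NE.coeff_nonneg (h : NE u v A n) {γ : ℝ} (hγ : 0 < γ) (i : ℕ) :
    0 ≤ (QP u A).coeff i / γ := div_nonneg (h.hpos i) hγ.le

omit [DecidableEq ι] in
lemma NE.ga_pos (h : NE u v A n) {γ : ℝ} (hγ : 0 < γ) (t : ℝ) :
    0 < gA u A n γ t ∧ gA' u A n γ t < 0 := by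
  have h0 : 0 ∈ JA (2 * A.card + 1) n :=
    Finset.mem_filter.2 ⟨Finset.mem_range.2 (by omega), by simp, by omega⟩
  have h1 : 0 < (QP u A).coeff 0 / γ := by
    rw [QP_coeff_zero]
    positivity
  constructor
  · exact ES_pos (fun i _ => h.coeff_nonneg hγ i) ⟨0, h0, h1⟩ t
  · exact ES'_neg (k := kk n) (fun i _ => h.coeff_nonneg hγ i)
      (fun i hi => kk_nonpos ((Finset.mem_filter.1 hi).2).2) ⟨0, h0, h1, kk_neg h.hn0⟩ t

omit [DecidableEq ι] in
lemma NE.gb_pos (h : NE u v A n) {γ : ℝ} (hγ : 0 < γ) (t : ℝ) :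
    0 < gB u A n γ t ∧ 0 < gB' u A n γ t := by
  have h0 : 2 * A.card ∈ JB (2 * A.card + 1) n :=
    Finset.mem_filter.2 ⟨Finset.mem_range.2 (by omega), by simp, h.hnM⟩
  have h1 : 0 < (QP u A).coeff (2 * A.card) / γ := by
    have h2 : (QP u A).coeff (2 * A.card) = 1 := by
      rw [← QP_natDegree u A]
      exact QP_monic u A
    rw [h2]
    positivity
  constructor
  · exact ES_pos (fun i _ => h.coeff_nonneg hγ i) ⟨_, h0, h1⟩ t
  · exact ES'_pos (k := kk n) (fun i _ => h.coeff_nonneg hγ i)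
      (fun i hi => (kk_pos ((Finset.mem_filter.1 hi).2).2).le) ⟨_, h0, h1, kk_pos h.hnM⟩ t

omit [DecidableEq ι] in
lemma NE.s_nonneg (h : NE u v A n) {γ : ℝ} (hγ : 0 < γ) (t : ℝ) :
    0 ≤ sA u A n γ t ∧ 0 ≤ sB u A n γ t :=
  ⟨ES_nonneg (fun i _ => h.coeff_nonneg hγ i) t, ES_nonneg (fun i _ => h.coeff_nonneg hγ i) t⟩

omit [DecidableEq ι] in
/-- The ratio bound. -/
lemma NE.ratio (h : NE u v A n) {γ : ℝ} (hγ : 0 < γ) (t : ℝ) :
    6 * (sA u A n γ t + sB u A n γ t) ≤ 5 * (gA u A n γ t + gB u A n γ t) ∧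
    sA u A n γ t + sB u A n γ t < gA u A n γ t + gB u A n γ t := by
  have e1 := sum_exp u A h.hn γ t
  have e2 := diff_exp u A h.hn γ t
  have h1 := h.hk (Real.exp t) (Real.exp_pos t)
  have hE := Real.exp_pos (-(n * t))
  have h2 : (QP u A).eval (Real.exp t) * Real.exp (-(n * t)) / γ ≤
      11 * ((QP u A).eval (-Real.exp t) * Real.exp (-(n * t)) / γ) := by
    rw [← mul_div_assoc, ← mul_assoc]
    apply div_le_div_of_nonneg_right _ hγ.le
    exact mul_le_mul_of_nonneg_right h1 hE.le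
  rw [← e1, ← e2] at h2
  have h3 : 0 < (QP u A).eval (-Real.exp t) * Real.exp (-(n * t)) / γ := by
    have := QP_pos h.hv h.huv (-Real.exp t)
    positivity
  rw [← e2] at h3
  constructor <;> linarith

omit [DecidableEq ι] in
lemma NE.LL_eq (h : NE u v A n) {γ : ℝ} (hγ : 0 < γ) (t : ℝ) :
    LL (gA u A n γ t + gB u A n γ t) (sA u A n γ t + sB u A n γ t) =
      Lam u A (Real.exp t) / 2 := by
  unfold LL Lam
  rw [sum_exp u A h.hn, diff_exp u A h.hn]
  have h1 := QP_pos h.hv h.huv (Real.exp t)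
  have h2 := QP_pos h.hv h.huv (-Real.exp t)
  have hE := Real.exp_pos (-(n * t))
  rw [Real.log_div (by positivity) hγ.ne', Real.log_div (by positivity) hγ.ne',
    Real.log_mul h1.ne' hE.ne', Real.log_mul h2.ne' hE.ne']
  ring

omit [DecidableEq ι] in
lemma NE.LL_top (h : NE u v A n) {γ : ℝ} (hγ : 0 < γ) :
    Tendsto (fun t => LL (gA u A n γ t + gB u A n γ t) (sA u A n γ t + sB u A n γ t))
      atTop (𝓝 0) := by
  have h1 := ((Lam_tendsto h.hv h.huv).comp Real.tendsto_exp_atTop).div_const 2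
  rw [zero_div] at h1
  exact h1.congr fun t => (h.LL_eq hγ t).symm

omit [DecidableEq ι] in
lemma NE.LL_bot (h : NE u v A n) {γ : ℝ} (hγ : 0 < γ) :
    Tendsto (fun t => LL (gA u A n γ t + gB u A n γ t) (sA u A n γ t + sB u A n γ t))
      atBot (𝓝 0) := by
  have h0 : Lam u A 0 = 0 := by
    unfold Lam
    rw [neg_zero, sub_self]
  have hc := (Lam_hasDerivAt h.hv h.huv 0).continuousAt.tendsto
  rw [h0] at hc
  have h1 := (hc.comp Real.tendsto_exp_atBot).div_const 2
  rw [zero_div] at h1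
  exact h1.congr fun t => (h.LL_eq hγ t).symm

omit [DecidableEq ι] in
/-- `Ga L → 0` at `+∞`. -/
lemma NE.gaL (h : NE u v A n) {γ : ℝ} (hγ : 0 < γ) :
    Tendsto (fun t => gA u A n γ t *
      LL (gA u A n γ t + gB u A n γ t) (sA u A n γ t + sB u A n γ t)) atTop (𝓝 0) := by
  have h1 := (h.LL_top hγ).const_mul (∑ i ∈ JA (2 * A.card + 1) n, (QP u A).coeff i / γ)
  rw [mul_zero] at h1
  apply squeeze_zero' _ _ h1
  · filter_upwards with t
    exact mul_nonneg (h.ga_pos hγ t).1.le (LL_nonneg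
      (add_nonneg (h.s_nonneg hγ t).1 (h.s_nonneg hγ t).2) (h.ratio hγ t).2)
  · filter_upwards [eventually_ge_atTop 0] with t ht
    apply mul_le_mul_of_nonneg_right _ (LL_nonneg
      (add_nonneg (h.s_nonneg hγ t).1 (h.s_nonneg hγ t).2) (h.ratio hγ t).2)
    have := ES_le_top (I := JA (2 * A.card + 1) n) (c := fun i => (QP u A).coeff i / γ)
      (k := kk n) (fun i _ => h.coeff_nonneg hγ i) (K := 0)
      (fun i hi => kk_nonpos ((Finset.mem_filter.1 hi).2).2) ht
    rw [zero_mul, Real.exp_zero, mul_one] at this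
    exact this

omit [DecidableEq ι] in
/-- `Gb L → 0` at `-∞`. -/
lemma NE.gbL (h : NE u v A n) {γ : ℝ} (hγ : 0 < γ) :
    Tendsto (fun t => gB u A n γ t *
      LL (gA u A n γ t + gB u A n γ t) (sA u A n γ t + sB u A n γ t)) atBot (𝓝 0) := by
  have h1 := (h.LL_bot hγ).const_mul (∑ i ∈ JB (2 * A.card + 1) n, (QP u A).coeff i / γ)
  rw [mul_zero] at h1
  apply squeeze_zero' _ _ h1
  · filter_upwards with t
    exact mul_nonneg (h.gb_pos hγ t).1.le (LL_nonneg
      (add_nonneg (h.s_nonneg hγ t).1 (h.s_nonneg hγ t).2) (h.ratio hγ t).2)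
  · filter_upwards [eventually_le_atBot 0] with t ht
    apply mul_le_mul_of_nonneg_right _ (LL_nonneg
      (add_nonneg (h.s_nonneg hγ t).1 (h.s_nonneg hγ t).2) (h.ratio hγ t).2)
    have := ES_le_bot (I := JB (2 * A.card + 1) n) (c := fun i => (QP u A).coeff i / γ)
      (k := kk n) (fun i _ => h.coeff_nonneg hγ i) (K := 0)
      (fun i hi => (kk_pos ((Finset.mem_filter.1 hi).2).2).le) ht
    rw [zero_mul, Real.exp_zero, mul_one] at this
    exact this

/-- The total of the coefficients. -/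
noncomputable def tot (u : ι → ℝ) (A : Finset ι) (n : ℕ) (γ : ℝ) : ℝ :=
  ∑ i ∈ JA (2 * A.card + 1) n, (QP u A).coeff i / γ +
    ∑ i ∈ JB (2 * A.card + 1) n, (QP u A).coeff i / γ +
  (∑ i ∈ IA (2 * A.card + 1) n, (QP u A).coeff i / γ +
    ∑ i ∈ IB (2 * A.card + 1) n, (QP u A).coeff i / γ)

omit [DecidableEq ι] in
lemma NE.log_top (h : NE u v A n) {γ : ℝ} (hγ : 0 < γ) {t : ℝ} (ht : 0 ≤ t) :
    Real.log (gA u A n γ t + gB u A n γ t + (sA u A n γ t + sB u A n γ t)) ≤
      Real.log (tot u A n γ) + (2 * A.card + 1 : ℕ) * t := by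
  have hc := fun (i : ℕ) => h.coeff_nonneg hγ i
  have k1 := ES_le_top (I := JA (2 * A.card + 1) n) (c := fun i => (QP u A).coeff i / γ)
      (k := kk n) (fun i _ => hc i) (K := (2 * A.card + 1 : ℕ))
      (fun i hi => kk_le (Finset.mem_range.1 (Finset.mem_filter.1 hi).1)) ht
  have k2 := ES_le_top (I := JB (2 * A.card + 1) n) (c := fun i => (QP u A).coeff i / γ)
      (k := kk n) (fun i _ => hc i) (K := (2 * A.card + 1 : ℕ))
      (fun i hi => kk_le (Finset.mem_range.1 (Finset.mem_filter.1 hi).1)) ht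
  have k3 := ES_le_top (I := IA (2 * A.card + 1) n) (c := fun i => (QP u A).coeff i / γ)
      (k := kk n) (fun i _ => hc i) (K := (2 * A.card + 1 : ℕ))
      (fun i hi => kk_le (Finset.mem_range.1 (Finset.mem_filter.1 hi).1)) ht
  have k4 := ES_le_top (I := IB (2 * A.card + 1) n) (c := fun i => (QP u A).coeff i / γ)
      (k := kk n) (fun i _ => hc i) (K := (2 * A.card + 1 : ℕ))
      (fun i hi => kk_le (Finset.mem_range.1 (Finset.mem_filter.1 hi).1)) ht
  have hp : 0 < gA u A n γ t + gB u A n γ t + (sA u A n γ t + sB u A n γ t) := by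
    have := (h.ga_pos hγ t).1
    have := (h.gb_pos hγ t).1
    have := (h.s_nonneg hγ t).1
    have := (h.s_nonneg hγ t).2
    linarith
  have hle : gA u A n γ t + gB u A n γ t + (sA u A n γ t + sB u A n γ t) ≤
      tot u A n γ * Real.exp ((2 * A.card + 1 : ℕ) * t) := by
    unfold gA gB sA sB tot
    rw [add_mul, add_mul, add_mul]
    linarith
  have ht0 : 0 < tot u A n γ := by
    have h1 := lt_of_lt_of_le hp hle
    exact (mul_pos_iff_of_pos_right (Real.exp_pos _)).1 h1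
  have h2 := Real.log_le_log hp hle
  rw [Real.log_mul ht0.ne' (Real.exp_pos _).ne', Real.log_exp] at h2
  exact h2

omit [DecidableEq ι] in
lemma NE.log_bot (h : NE u v A n) {γ : ℝ} (hγ : 0 < γ) {t : ℝ} (ht : t ≤ 0) :
    Real.log (gA u A n γ t + gB u A n γ t + (sA u A n γ t + sB u A n γ t)) ≤
      Real.log (tot u A n γ) + (n : ℝ) * -t := by
  have hc := fun (i : ℕ) => h.coeff_nonneg hγ i
  have k1 := ES_le_bot (I := JA (2 * A.card + 1) n) (c := fun i => (QP u A).coeff i / γ)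
      (k := kk n) (fun i _ => hc i) (K := -(n : ℝ)) (fun i hi => kk_ge n i) ht
  have k2 := ES_le_bot (I := JB (2 * A.card + 1) n) (c := fun i => (QP u A).coeff i / γ)
      (k := kk n) (fun i _ => hc i) (K := -(n : ℝ)) (fun i hi => kk_ge n i) ht
  have k3 := ES_le_bot (I := IA (2 * A.card + 1) n) (c := fun i => (QP u A).coeff i / γ)
      (k := kk n) (fun i _ => hc i) (K := -(n : ℝ)) (fun i hi => kk_ge n i) ht
  have k4 := ES_le_bot (I := IB (2 * A.card + 1) n) (c := fun i => (QP u A).coeff i / γ)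
      (k := kk n) (fun i _ => hc i) (K := -(n : ℝ)) (fun i hi => kk_ge n i) ht
  have hp : 0 < gA u A n γ t + gB u A n γ t + (sA u A n γ t + sB u A n γ t) := by
    have := (h.ga_pos hγ t).1
    have := (h.gb_pos hγ t).1
    have := (h.s_nonneg hγ t).1
    have := (h.s_nonneg hγ t).2
    linarith
  have hle : gA u A n γ t + gB u A n γ t + (sA u A n γ t + sB u A n γ t) ≤
      tot u A n γ * Real.exp (-(n : ℝ) * t) := by
    unfold gA gB sA sB tot
    rw [add_mul, add_mul, add_mul]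
    linarith
  have ht0 : 0 < tot u A n γ := by
    have h1 := lt_of_lt_of_le hp hle
    exact (mul_pos_iff_of_pos_right (Real.exp_pos _)).1 h1
  have h2 := Real.log_le_log hp hle
  rw [Real.log_mul ht0.ne' (Real.exp_pos _).ne', Real.log_exp] at h2
  linarith

omit [DecidableEq ι] in
/-- The remaining limit at `+∞`. -/
lemma NE.sM_top (h : NE u v A n) {γ : ℝ} (hγ : 0 < γ)
    (hmin : ∀ t, 1 ≤ gA u A n γ t + gB u A n γ t) :
    Tendsto (fun t => sA u A n γ t *
      (MM (gA u A n γ t + gB u A n γ t) (sA u A n γ t + sB u A n γ t) -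
        NN (5 / 6) (sA u A n γ t + sB u A n γ t))) atTop (𝓝 0) := by
  have h1 := lim_aux_top (∑ i ∈ IA (2 * A.card + 1) n, (QP u A).coeff i / γ)
    (Real.log (tot u A n γ) - Real.log (1 - (5 / 6) ^ 2) / 2) ((2 * A.card + 1 : ℕ) : ℝ)
  apply squeeze_zero' _ _ h1
  · filter_upwards with t
    apply mul_nonneg (h.s_nonneg hγ t).1
    rw [sub_nonneg]
    apply NN_le_MM (by norm_num) (by norm_num)
      (add_nonneg (h.s_nonneg hγ t).1 (h.s_nonneg hγ t).2) (hmin t)
    linarith [(h.ratio hγ t).1]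
  · filter_upwards [eventually_ge_atTop 0] with t ht
    have hS := add_nonneg (h.s_nonneg hγ t).1 (h.s_nonneg hγ t).2
    apply mul_le_mul
    · exact ES_le_top (I := IA (2 * A.card + 1) n) (c := fun i => (QP u A).coeff i / γ)
        (k := kk n) (fun i _ => h.coeff_nonneg hγ i)
        (fun i hi => kk_le_neg_one ((Finset.mem_filter.1 hi).2).2) ht
    · have k1 := MM_le hS (h.ratio hγ t).2
      have k2 := h.log_top hγ ht
      have k3 := NN_ge (θ := 5 / 6) (by norm_num) (by norm_num) hS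
      linarith
    · rw [sub_nonneg]
      apply NN_le_MM (by norm_num) (by norm_num) hS (hmin t)
      linarith [(h.ratio hγ t).1]
    · apply mul_nonneg _ (Real.exp_pos _).le
      exact Finset.sum_nonneg fun i _ => h.coeff_nonneg hγ i

omit [DecidableEq ι] in
/-- The remaining limit at `-∞`. -/
lemma NE.sM_bot (h : NE u v A n) {γ : ℝ} (hγ : 0 < γ)
    (hmin : ∀ t, 1 ≤ gA u A n γ t + gB u A n γ t) :
    Tendsto (fun t => sB u A n γ t *
      (MM (gA u A n γ t + gB u A n γ t) (sA u A n γ t + sB u A n γ t) -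
        NN (5 / 6) (sA u A n γ t + sB u A n γ t))) atBot (𝓝 0) := by
  have h1 := lim_aux_bot (∑ i ∈ IB (2 * A.card + 1) n, (QP u A).coeff i / γ)
    (Real.log (tot u A n γ) - Real.log (1 - (5 / 6) ^ 2) / 2) (n : ℝ)
  apply squeeze_zero' _ _ h1
  · filter_upwards with t
    apply mul_nonneg (h.s_nonneg hγ t).2
    rw [sub_nonneg]
    apply NN_le_MM (by norm_num) (by norm_num)
      (add_nonneg (h.s_nonneg hγ t).1 (h.s_nonneg hγ t).2) (hmin t)
    linarith [(h.ratio hγ t).1]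
  · filter_upwards [eventually_le_atBot 0] with t ht
    have hS := add_nonneg (h.s_nonneg hγ t).1 (h.s_nonneg hγ t).2
    apply mul_le_mul
    · exact ES_le_bot (I := IB (2 * A.card + 1) n) (c := fun i => (QP u A).coeff i / γ)
        (k := kk n) (fun i _ => h.coeff_nonneg hγ i)
        (fun i hi => kk_ge_one ((Finset.mem_filter.1 hi).2).2) ht
    · have k1 := MM_le hS (h.ratio hγ t).2
      have k2 := h.log_bot hγ ht
      have k3 := NN_ge (θ := 5 / 6) (by norm_num) (by norm_num) hS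
      linarith
    · rw [sub_nonneg]
      apply NN_le_MM (by norm_num) (by norm_num) hS (hmin t)
      linarith [(h.ratio hγ t).1]
    · apply mul_nonneg _ (Real.exp_pos _).le
      exact Finset.sum_nonneg fun i _ => h.coeff_nonneg hγ i

/-- The limits of `Q`. -/
lemma NE.Q_top (h : NE u v A n) (J : ℕ) (γ : ℝ) :
    Tendsto (fun t : ℝ => Phi u v A J (Real.exp t) / (2 * γ)) atTop
      (𝓝 (Real.pi * (∑ k ∈ A, 2 * v k * (QP u (A.erase k)).coeff J) / (2 * γ))) :=
  ((Phi_tendsto h.hv h.huv J).comp Real.tendsto_exp_atTop).div_const _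

lemma NE.Q_bot (h : NE u v A n) (J : ℕ) (γ : ℝ) :
    Tendsto (fun t : ℝ => Phi u v A J (Real.exp t) / (2 * γ)) atBot (𝓝 0) := by
  have hc := (Phi_hasDerivAt h.hv h.huv J 0).continuousAt.tendsto
  rw [Phi_zero] at hc
  have h1 := (hc.comp Real.tendsto_exp_atBot).div_const (2 * γ)
  rw [zero_div] at h1
  exact h1

lemma at_five_sixths : (5 / 6 : ℝ) * at' (5 / 6) ≤ 1 := by
  unfold at'
  have e : Real.log (1 + 5 / 6) - Real.log (1 - 5 / 6) = Real.log 11 := by
    rw [← Real.log_div (by norm_num) (by norm_num)]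
    norm_num
  rw [e]
  have := log_eleven
  linarith

/-- The generic case. -/
lemma NE.generic (h : NE u v A n) {J : ℕ} (hJ : n = J + 1)
    (ha : ∃ i, Odd i ∧ i < n ∧ 0 < (QP u A).coeff i)
    (hb : ∃ i, Odd i ∧ n < i ∧ 0 < (QP u A).coeff i) :
    0 < ∑ k ∈ A, 2 * v k * (QP u (A.erase k)).coeff J := by
  -- the minimum of the even part
  have hcont : Continuous (fun t => gA u A n 1 t + gB u A n 1 t) :=
    continuous_iff_continuousAt.2 fun t =>
      ((ES_hasDerivAt _ _ _ t).add (ES_hasDerivAt _ _ _ t)).continuousAt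
  have hJA : 0 ∈ JA (2 * A.card + 1) n :=
    Finset.mem_filter.2 ⟨Finset.mem_range.2 (by omega), by simp, by omega⟩
  have hJB : 2 * A.card ∈ JB (2 * A.card + 1) n :=
    Finset.mem_filter.2 ⟨Finset.mem_range.2 (by omega), by simp, h.hnM⟩
  have hc0 : 0 < (QP u A).coeff 0 / 1 := by
    rw [QP_coeff_zero]
    norm_num
  have hcM : 0 < (QP u A).coeff (2 * A.card) / 1 := by
    have h2 : (QP u A).coeff (2 * A.card) = 1 := by
      rw [← QP_natDegree u A]
      exact QP_monic u A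
    rw [h2]
    norm_num
  have htop : Tendsto (fun t => gA u A n 1 t + gB u A n 1 t) atTop atTop :=
    tendsto_atTop_mono (fun t => show gB u A n 1 t ≤ gA u A n 1 t + gB u A n 1 t from by
        linarith [(h.ga_pos one_pos t).1])
      (ES_tendsto_top_top (I := JB (2 * A.card + 1) n)
        (c := fun i => (QP u A).coeff i / 1) (k := kk n)
        (fun i _ => h.coeff_nonneg one_pos i) ⟨_, hJB, hcM, kk_pos h.hnM⟩)
  have hbot : Tendsto (fun t => gA u A n 1 t + gB u A n 1 t) atBot atTop :=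
    tendsto_atTop_mono (fun t => show gA u A n 1 t ≤ gA u A n 1 t + gB u A n 1 t from by
        linarith [(h.gb_pos one_pos t).1])
      (ES_tendsto_top_bot (I := JA (2 * A.card + 1) n)
        (c := fun i => (QP u A).coeff i / 1) (k := kk n)
        (fun i _ => h.coeff_nonneg one_pos i) ⟨0, hJA, hc0, kk_neg h.hn0⟩)
  obtain ⟨tst, htst⟩ := hcont.exists_forall_le' 0 (by
    rw [cocompact_eq_atBot_atTop, eventually_sup]
    exact ⟨hbot.eventually_ge_atTop _, htop.eventually_ge_atTop _⟩)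
  set γ := gA u A n 1 tst + gB u A n 1 tst with hγdef
  have hγ : 0 < γ := add_pos (h.ga_pos one_pos tst).1 (h.gb_pos one_pos tst).1
  have hscale : ∀ t, gA u A n γ t + gB u A n γ t =
      (gA u A n 1 t + gB u A n 1 t) / γ := by
    intro t
    unfold gA gB
    rw [ES_scale, ES_scale, ES_scale, ES_scale, div_one, div_one, add_div]
  have hmin : ∀ t, 1 ≤ gA u A n γ t + gB u A n γ t := by
    intro t
    rw [hscale, one_le_div hγ]
    exact htst t
  have hst : gA u A n γ tst + gB u A n γ tst = 1 := by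
    rw [hscale, ← hγdef, div_self hγ.ne']
  obtain ⟨ia, ia1, ia2, ia3⟩ := ha
  obtain ⟨ib, ib1, ib2, ib3⟩ := hb
  have hib : ib < 2 * A.card + 1 := by
    by_contra hh
    have : (QP u A).coeff ib = 0 := by
      apply coeff_eq_zero_of_natDegree_lt
      rw [QP_natDegree]
      omega
    linarith
  have mia : ia ∈ IA (2 * A.card + 1) n :=
    Finset.mem_filter.2 ⟨Finset.mem_range.2 (by have := h.hnM; omega), ia1, ia2⟩
  have mib : ib ∈ IB (2 * A.card + 1) n :=
    Finset.mem_filter.2 ⟨Finset.mem_range.2 hib, ib1, ib2⟩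
  have pia : 0 < (QP u A).coeff ia / γ := by positivity
  have pib : 0 < (QP u A).coeff ib / γ := by positivity
  have hcn : ∀ I : Finset ℕ, ∀ i ∈ I, 0 ≤ (QP u A).coeff i / γ :=
    fun _ i _ => h.coeff_nonneg hγ i
  have hlc : LC (sA u A n γ) (sB u A n γ) (sA' u A n γ) (sB' u A n γ) := {
    ha := fun t => ES_hasDerivAt _ _ _ t
    hb := fun t => ES_hasDerivAt _ _ _ t
    ha0 := fun t => ES_pos (hcn _) ⟨ia, mia, pia⟩ t
    hb0 := fun t => ES_pos (hcn _) ⟨ib, mib, pib⟩ t
    ha1 := fun t => ES'_neg (k := kk n) (hcn _) (fun i hi => kk_nonpos ((Finset.mem_filter.1 hi).2).2.le)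
      ⟨ia, mia, pia, kk_neg ia2⟩ t
    hb1 := fun t => ES'_pos (k := kk n) (hcn _) (fun i hi => (kk_pos ((Finset.mem_filter.1 hi).2).2).le)
      ⟨ib, mib, pib, kk_pos ib2⟩ t
    hla := fun s t => ES_log (hcn _) ⟨ia, mia, pia⟩ s t
    hlb := fun s t => ES_log (hcn _) ⟨ib, mib, pib⟩ s t
    hmono := (ES'_strictMono (hcn _) ⟨ia, mia, pia, (kk_neg ia2).ne⟩).add
      (ES'_strictMono (hcn _) ⟨ib, mib, pib, (kk_pos ib2).ne'⟩)
    hatop := ES_tendsto_zero_top (fun i hi => kk_neg ((Finset.mem_filter.1 hi).2).2)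
    habot := ES_tendsto_top_bot (hcn _) ⟨ia, mia, pia, kk_neg ia2⟩
    hbtop := ES_tendsto_top_top (hcn _) ⟨ib, mib, pib, kk_pos ib2⟩
    hbbot := ES_tendsto_zero_bot (fun i hi => kk_pos ((Finset.mem_filter.1 hi).2).2) }
  have hGP : GP (gA u A n γ) (gB u A n γ) (sA u A n γ) (sB u A n γ) (gA' u A n γ)
      (gB' u A n γ) (sA' u A n γ) (sB' u A n γ)
      (fun t : ℝ => Phi u v A J (Real.exp t) / (2 * γ)) (5 / 6) tst := {
    lc := hlc
    h0 := by norm_num
    h1 := by norm_num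
    hGa := fun t => ES_hasDerivAt _ _ _ t
    hGb := fun t => ES_hasDerivAt _ _ _ t
    hGa1 := fun t => (h.ga_pos hγ t).2
    hGb1 := fun t => (h.gb_pos hγ t).2
    hmin := hmin
    hst := hst
    hSG := fun t => by linarith [(h.ratio hγ t).1]
    hQ := fun t => Q_deriv h.hv h.huv hJ h.hn (by have := h.hnM; omega) hγ t }
  have hr := (h.gaL hγ).add (h.sM_top hγ hmin)
  have hl := (h.gbL hγ).add (h.sM_bot hγ hmin)
  rw [add_zero] at hr hl
  have hfin := hGP.main at_five_sixths (h.Q_top J γ) (h.Q_bot J γ) hr hl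
  have h2 : 0 < Real.pi * (∑ k ∈ A, 2 * v k * (QP u (A.erase k)).coeff J) := by
    have e : Real.pi * (∑ k ∈ A, 2 * v k * (QP u (A.erase k)).coeff J) =
        Real.pi * (∑ k ∈ A, 2 * v k * (QP u (A.erase k)).coeff J) / (2 * γ) * (2 * γ) := by
      field_simp
    rw [e]
    positivity
  exact (mul_pos_iff_of_pos_left Real.pi_pos).1 h2

end Pool.Agent.MP_fe2d2a_anR
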