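import Mathlib
import Pool.Agent.Lib.MP_fe2d2a_anR.Even

/-!
Even indices: the degenerate cases and the theorem.
-/

set_option autoImplicit false

open Finset Polynomial Filter Topology

namespace Pool.Agent.MP_fe2d2a_anR

lemma lt_of_deriv_pos {F F' : ℝ → ℝ} (hF : ∀ t, HasDerivAt F (F' t) t) (h0 : ∀ t, 0 < F' t)
    {l r : ℝ} (hr : Tendsto F atTop (𝓝 r)) (hl : Tendsto F atBot (𝓝 l)) : l < r := by
  have hm : StrictMono F := by
    apply strictMono_of_deriv_pos
    intro t
    rw [(hF t).deriv]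
    exact h0 t
  have h1 : l ≤ F 0 := by
    apply le_of_tendsto hl
    filter_upwards [eventually_le_atBot 0] with t ht
    exact hm.monotone ht
  have h2 : F 1 ≤ r := by
    apply ge_of_tendsto hr
    filter_upwards [eventually_ge_atTop 1] with t ht
    exact hm.monotone ht
  have h3 : F 0 < F 1 := hm (by norm_num)
  linarith

lemma LL_hasDerivAt {G S : ℝ → ℝ} {G' S' t : ℝ} (hG : HasDerivAt G G' t)
    (hS : HasDerivAt S S' t) (h1 : 0 < G t + S t) (h2 : 0 < G t - S t) :
    HasDerivAt (fun t => LL (G t) (S t))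
      (((G' + S') / (G t + S t) - (G' - S') / (G t - S t)) / 2) t := by
  unfold LL
  exact (((hG.add hS).log h1.ne').sub ((hG.sub hS).log h2.ne')).div_const 2

lemma alg_aux {x y s x' y' s' L : ℝ} (h1 : x + y + s ≠ 0) (h2 : x + y - s ≠ 0) :
    x * (((x' + y' + s') / (x + y + s) - (x' + y' - s') / (x + y - s)) / 2) +
      s * (((x' + y' + s') / (x + y + s) + (x' + y' - s') / (x + y - s)) / 2) - s' +
      (y' * L + y * (((x' + y' + s') / (x + y + s) - (x' + y' - s') / (x + y - s)) / 2)) =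
    y' * L := by
  have e : (x + y + s) * ((x' + y' + s') / (x + y + s)) = x' + y' + s' := by
    field_simp
  have e2 : (x + y - s) * ((x' + y' - s') / (x + y - s)) = x' + y' - s' := by
    field_simp
  linear_combination (1 / 2) * e - (1 / 2) * e2

variable {ι : Type*} [DecidableEq ι] {u v : ι → ℝ} {A : Finset ι} {n : ℕ}

omit [DecidableEq ι] in
lemma LL_parts (h : NE u v A n) (t : ℝ) :
    HasDerivAt (fun t => LL (gA u A n 1 t + gB u A n 1 t) (sA u A n 1 t + sB u A n 1 t))
      (((gA' u A n 1 t + gB' u A n 1 t + (sA' u A n 1 t + sB' u A n 1 t)) /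
          (gA u A n 1 t + gB u A n 1 t + (sA u A n 1 t + sB u A n 1 t)) -
        (gA' u A n 1 t + gB' u A n 1 t - (sA' u A n 1 t + sB' u A n 1 t)) /
          (gA u A n 1 t + gB u A n 1 t - (sA u A n 1 t + sB u A n 1 t))) / 2) t := by
  have hs := h.s_nonneg one_pos t
  have hga := (h.ga_pos one_pos t).1
  have hgb := (h.gb_pos one_pos t).1
  have hr := (h.ratio one_pos t).2
  refine LL_hasDerivAt (G := fun t => gA u A n 1 t + gB u A n 1 t)
    (S := fun t => sA u A n 1 t + sB u A n 1 t) ?_ ?_ ?_ ?_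
  · exact (ES_hasDerivAt _ _ _ t).add (ES_hasDerivAt _ _ _ t)
  · exact (ES_hasDerivAt _ _ _ t).add (ES_hasDerivAt _ _ _ t)
  · show 0 < gA u A n 1 t + gB u A n 1 t + (sA u A n 1 t + sB u A n 1 t)
    linarith
  · show 0 < gA u A n 1 t + gB u A n 1 t - (sA u A n 1 t + sB u A n 1 t)
    linarith

omit [DecidableEq ι] in
lemma ES_zero {I : Finset ℕ} {c k : ℕ → ℝ} (h : ∀ i ∈ I, c i = 0) (t : ℝ) :
    ES I c k t = 0 ∧ ES' I c k t = 0 := by
  constructor
  · exact Finset.sum_eq_zero fun i hi => by rw [h i hi, zero_mul]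
  · exact Finset.sum_eq_zero fun i hi => by rw [h i hi, zero_mul]

omit [DecidableEq ι] in
lemma concl {W γ : ℝ} (hγ : 0 < γ) (h : 0 < Real.pi * W / (2 * γ)) : 0 < W := by
  have h2 : 0 < Real.pi * W := by
    have e : Real.pi * W = Real.pi * W / (2 * γ) * (2 * γ) := by
      field_simp
    rw [e]
    positivity
  exact (mul_pos_iff_of_pos_left Real.pi_pos).1 h2

/-- No odd coefficient below `n`. -/
lemma NE.case_low (h : NE u v A n) {J : ℕ} (hJ : n = J + 1)
    (ha : ∀ i, Odd i → i < n → (QP u A).coeff i = 0)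
    (hb : ∃ i, Odd i ∧ n < i ∧ 0 < (QP u A).coeff i) :
    0 < ∑ k ∈ A, 2 * v k * (QP u (A.erase k)).coeff J := by
  have hsA : ∀ t, sA u A n 1 t = 0 ∧ sA' u A n 1 t = 0 := fun t => ES_zero (fun i hi => by
    rw [ha i ((Finset.mem_filter.1 hi).2).1 ((Finset.mem_filter.1 hi).2).2, zero_div]) t
  obtain ⟨ib, ib1, ib2, ib3⟩ := hb
  have hib : ib < 2 * A.card + 1 := by
    by_contra hh
    have : (QP u A).coeff ib = 0 := by
      apply coeff_eq_zero_of_natDegree_lt
      rw [QP_natDegree]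
      omega
    linarith
  have mib : ib ∈ IB (2 * A.card + 1) n :=
    Finset.mem_filter.2 ⟨Finset.mem_range.2 hib, ib1, ib2⟩
  have hsB : ∀ t, 0 < sB u A n 1 t := fun t =>
    ES_pos (fun i _ => h.coeff_nonneg one_pos i) ⟨ib, mib, by positivity⟩ t
  set F : ℝ → ℝ := fun t => Phi u v A J (Real.exp t) / (2 * 1) - gA u A n 1 t *
      LL (gA u A n 1 t + gB u A n 1 t) (sA u A n 1 t + sB u A n 1 t) with hF
  have hd : ∀ t, HasDerivAt F (-(gA' u A n 1 t *
      LL (gA u A n 1 t + gB u A n 1 t) (sA u A n 1 t + sB u A n 1 t))) t := by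
    intro t
    have d1 := Q_deriv h.hv h.huv hJ h.hn (by have := h.hnM; omega) one_pos t
    have d2 : HasDerivAt (gA u A n 1) (gA' u A n 1 t) t := ES_hasDerivAt _ _ _ t
    have d3 := d1.sub (d2.mul (LL_parts h t))
    refine d3.congr_deriv ?_
    rw [(hsA t).1, (hsA t).2]
    ring
  have hpos : ∀ t, 0 < -(gA' u A n 1 t *
      LL (gA u A n 1 t + gB u A n 1 t) (sA u A n 1 t + sB u A n 1 t)) := by
    intro t
    have k1 := (h.ga_pos one_pos t).2
    have k2 : 0 < LL (gA u A n 1 t + gB u A n 1 t) (sA u A n 1 t + sB u A n 1 t) := by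
      apply LL_pos _ (h.ratio one_pos t).2
      rw [(hsA t).1, zero_add]
      exact hsB t
    nlinarith
  have hr : Tendsto F atTop (𝓝 (Real.pi * (∑ k ∈ A, 2 * v k * (QP u (A.erase k)).coeff J) /
      (2 * 1))) := by
    have := (h.Q_top J 1).sub (h.gaL one_pos)
    rw [sub_zero] at this
    exact this
  have hl : Tendsto F atBot (𝓝 0) := by
    have k1 : Tendsto (fun t => gA u A n 1 t *
        LL (gA u A n 1 t + gB u A n 1 t) (sA u A n 1 t + sB u A n 1 t)) atBot (𝓝 0) := by
      have k2 : Tendsto (fun t => 6 * sB u A n 1 t) atBot (𝓝 0) := by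
        have : Tendsto (sB u A n 1) atBot (𝓝 0) :=
          ES_tendsto_zero_bot (fun i hi => kk_pos ((Finset.mem_filter.1 hi).2).2)
        simpa using this.const_mul 6
      apply squeeze_zero _ _ k2
      · intro t
        exact mul_nonneg (h.ga_pos one_pos t).1.le (LL_nonneg
          (add_nonneg (h.s_nonneg one_pos t).1 (h.s_nonneg one_pos t).2) (h.ratio one_pos t).2)
      · intro t
        have hL := LL_nonneg (add_nonneg (h.s_nonneg one_pos t).1 (h.s_nonneg one_pos t).2)
          (h.ratio one_pos t).2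
        have hS := add_nonneg (h.s_nonneg one_pos t).1 (h.s_nonneg one_pos t).2
        have hGpos : 0 < gA u A n 1 t + gB u A n 1 t :=
          add_pos (h.ga_pos one_pos t).1 (h.gb_pos one_pos t).1
        have k3 := LL_le hS (h.ratio one_pos t).1 hGpos
        have k4 := mul_nonneg (h.gb_pos one_pos t).1.le hL
        have k5 := (hsA t).1
        nlinarith
    have := (h.Q_bot J 1).sub k1
    rw [sub_zero] at this
    exact this
  exact concl one_pos (lt_of_deriv_pos hd hpos hr hl)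

/-- No odd coefficient above `n`. -/
lemma NE.case_high (h : NE u v A n) {J : ℕ} (hJ : n = J + 1)
    (ha : ∃ i, Odd i ∧ i < n ∧ 0 < (QP u A).coeff i)
    (hb : ∀ i, Odd i → n < i → (QP u A).coeff i = 0) :
    0 < ∑ k ∈ A, 2 * v k * (QP u (A.erase k)).coeff J := by
  have hsB : ∀ t, sB u A n 1 t = 0 ∧ sB' u A n 1 t = 0 := fun t => ES_zero (fun i hi => by
    rw [hb i ((Finset.mem_filter.1 hi).2).1 ((Finset.mem_filter.1 hi).2).2, zero_div]) t
  obtain ⟨ia, ia1, ia2, ia3⟩ := ha
  have mia : ia ∈ IA (2 * A.card + 1) n :=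
    Finset.mem_filter.2 ⟨Finset.mem_range.2 (by have := h.hnM; omega), ia1, ia2⟩
  have hsA : ∀ t, 0 < sA u A n 1 t := fun t =>
    ES_pos (fun i _ => h.coeff_nonneg one_pos i) ⟨ia, mia, by positivity⟩ t
  set F : ℝ → ℝ := fun t => Phi u v A J (Real.exp t) / (2 * 1) + gB u A n 1 t *
      LL (gA u A n 1 t + gB u A n 1 t) (sA u A n 1 t + sB u A n 1 t) with hF
  have hd : ∀ t, HasDerivAt F (gB' u A n 1 t *
      LL (gA u A n 1 t + gB u A n 1 t) (sA u A n 1 t + sB u A n 1 t)) t := by
    intro t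
    have d1 := Q_deriv h.hv h.huv hJ h.hn (by have := h.hnM; omega) one_pos t
    have d2 : HasDerivAt (gB u A n 1) (gB' u A n 1 t) t := ES_hasDerivAt _ _ _ t
    have d3 := d1.add (d2.mul (LL_parts h t))
    refine d3.congr_deriv ?_
    have hr := (h.ratio one_pos t).2
    have h1 : gA u A n 1 t + gB u A n 1 t + (sA u A n 1 t + sB u A n 1 t) ≠ 0 := by
      have hs := h.s_nonneg one_pos t
      have hga := (h.ga_pos one_pos t).1
      have hgb := (h.gb_pos one_pos t).1
      have : 0 < gA u A n 1 t + gB u A n 1 t + (sA u A n 1 t + sB u A n 1 t) := by linarith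
      exact this.ne'
    have h2 : gA u A n 1 t + gB u A n 1 t - (sA u A n 1 t + sB u A n 1 t) ≠ 0 := by
      have : 0 < gA u A n 1 t + gB u A n 1 t - (sA u A n 1 t + sB u A n 1 t) := by linarith
      exact this.ne'
    rw [(hsB t).1] at h1 h2 ⊢
    rw [(hsB t).2]
    rw [add_zero] at h1 h2 ⊢
    rw [add_zero]
    exact alg_aux h1 h2
  have hpos : ∀ t, 0 < gB' u A n 1 t *
      LL (gA u A n 1 t + gB u A n 1 t) (sA u A n 1 t + sB u A n 1 t) := by
    intro t
    have k1 := (h.gb_pos one_pos t).2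
    have k2 : 0 < LL (gA u A n 1 t + gB u A n 1 t) (sA u A n 1 t + sB u A n 1 t) := by
      apply LL_pos _ (h.ratio one_pos t).2
      rw [(hsB t).1, add_zero]
      exact hsA t
    exact mul_pos k1 k2
  have hr : Tendsto F atTop (𝓝 (Real.pi * (∑ k ∈ A, 2 * v k * (QP u (A.erase k)).coeff J) /
      (2 * 1))) := by
    have k1 : Tendsto (fun t => gB u A n 1 t *
        LL (gA u A n 1 t + gB u A n 1 t) (sA u A n 1 t + sB u A n 1 t)) atTop (𝓝 0) := by
      have k2 : Tendsto (fun t => 6 * sA u A n 1 t) atTop (𝓝 0) := by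
        have : Tendsto (sA u A n 1) atTop (𝓝 0) :=
          ES_tendsto_zero_top (fun i hi => kk_neg ((Finset.mem_filter.1 hi).2).2)
        simpa using this.const_mul 6
      apply squeeze_zero _ _ k2
      · intro t
        exact mul_nonneg (h.gb_pos one_pos t).1.le (LL_nonneg
          (add_nonneg (h.s_nonneg one_pos t).1 (h.s_nonneg one_pos t).2) (h.ratio one_pos t).2)
      · intro t
        have hL := LL_nonneg (add_nonneg (h.s_nonneg one_pos t).1 (h.s_nonneg one_pos t).2)
          (h.ratio one_pos t).2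
        have hS := add_nonneg (h.s_nonneg one_pos t).1 (h.s_nonneg one_pos t).2
        have hGpos : 0 < gA u A n 1 t + gB u A n 1 t :=
          add_pos (h.ga_pos one_pos t).1 (h.gb_pos one_pos t).1
        have k3 := LL_le hS (h.ratio one_pos t).1 hGpos
        have k4 := mul_nonneg (h.ga_pos one_pos t).1.le hL
        have k5 := (hsB t).1
        nlinarith
    have := (h.Q_top J 1).add k1
    rw [add_zero] at this
    exact this
  have hl : Tendsto F atBot (𝓝 0) := by
    have := (h.Q_bot J 1).add (h.gbL one_pos)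
    rw [add_zero] at this
    exact this
  exact concl one_pos (lt_of_deriv_pos hd hpos hr hl)

/-- Even indices `J + 1`: the theorem. -/
theorem even_pos' (hv : ∀ k ∈ A, 0 < v k) (huv : ∀ k ∈ A, u k ^ 2 + v k ^ 2 = 1)
    (hpos : ∀ i, 0 ≤ (QP u A).coeff i) (hne : ∃ i, Odd i ∧ 0 < (QP u A).coeff i)
    (hk : ∀ x : ℝ, 0 < x → (QP u A).eval x ≤ 11 * (QP u A).eval (-x))
    {J : ℕ} (hJ : Odd J) (hJM : J + 1 < 2 * A.card) :
    0 < ∑ k ∈ A, 2 * v k * (QP u (A.erase k)).coeff J := by
  have h : NE u v A (J + 1) := ⟨hv, huv, hpos, hk, hJ.add_one, Nat.succ_pos J, hJM⟩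
  by_cases ha : ∃ i, Odd i ∧ i < J + 1 ∧ 0 < (QP u A).coeff i
  · by_cases hb : ∃ i, Odd i ∧ J + 1 < i ∧ 0 < (QP u A).coeff i
    · exact h.generic rfl ha hb
    · apply h.case_high rfl ha
      intro i hi hi2
      by_contra hh
      exact hb ⟨i, hi, hi2, lt_of_le_of_ne (hpos i) (Ne.symm hh)⟩
  · have ha' : ∀ i, Odd i → i < J + 1 → (QP u A).coeff i = 0 := by
      intro i hi hi2
      by_contra hh
      exact ha ⟨i, hi, hi2, lt_of_le_of_ne (hpos i) (Ne.symm hh)⟩
    apply h.case_low rfl ha'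
    obtain ⟨i, hi, hi0⟩ := hne
    refine ⟨i, hi, ?_, hi0⟩
    by_contra hh
    rcases Nat.lt_or_ge i (J + 1) with h2 | h2
    · have := ha' i hi h2
      linarith
    · have e : i = J + 1 := by omega
      rw [e] at hi
      exact (Nat.not_even_iff_odd.2 hi) hJ.add_one

end Pool.Agent.MP_fe2d2a_anR
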